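import Mathlib

/-!
# The one-step inequality for the radial profile
-/

open MeasureTheory ProbabilityTheory

namespace MP04ae38

/-- Radial profile, as a function of the squared distance. -/
noncomputable def Fn (τ : ℝ) : ℝ := 5 / 2 * √τ - 6 / 5 * (τ / (4 + τ))

theorem main_poly (ρ : ℝ) (hρ : 0 ≤ ρ) :
    0 ≤ (1.24 * ρ - 1.15) * (4 + ρ^2)^3 + 4.8 * (16 - 16 * ρ^2 - ρ^4) := by
  nlinarith [mul_nonneg hρ (sq_nonneg (ρ - 1)), mul_nonneg hρ (sq_nonneg (ρ^2 - 1)),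
    mul_nonneg hρ (sq_nonneg (ρ^3 - ρ)), sq_nonneg (ρ - 1), mul_nonneg hρ (sq_nonneg (ρ^3 - 1)),
    mul_nonneg hρ (sq_nonneg (ρ^2 - ρ)), mul_nonneg hρ (sq_nonneg (ρ^3 - ρ^2)), sq_nonneg (ρ^2 - ρ),
    sq_nonneg (ρ^3-ρ)]

theorem sqrt_ineq (x : ℝ) (hx : -1 ≤ x) : √(1 + x) ≤ 1 + x / 2 - x ^ 2 / 8 + |x| ^ 3 / 16 := by
  apply Real.sqrt_le_iff.2
  rcases le_total 0 x with h | h
  · rw [abs_of_nonneg h]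
    constructor
    · nlinarith [mul_nonneg h (sq_nonneg (x - 1)), pow_nonneg h 3]
    · have : 0 ≤ x ^ 4 / 256 * (20 - 4 * x + x ^ 2) := by
        apply mul_nonneg (by positivity)
        nlinarith [sq_nonneg (x - 2)]
      nlinarith [this]
  · rw [abs_of_nonpos h]
    set z := -x with hz
    have hx' : x = -z := by simp [hz]
    have hz0 : 0 ≤ z := by linarith
    have hz1 : z ≤ 1 := by linarith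
    rw [hx']
    have h2 : z ^ 2 ≤ 1 := by nlinarith
    constructor
    · nlinarith [pow_nonneg hz0 3]
    · have h3 : 0 ≤ z ^ 3 * (1 / 4 - 3 * z / 64 - z ^ 2 / 64 + z ^ 3 / 256) := by
        apply mul_nonneg (by positivity)
        nlinarith [pow_nonneg hz0 3]
      nlinarith [h3]

theorem sqrt_ineq' (ρ D : ℝ) (hρ : 0 < ρ) (hD : -ρ ^ 2 ≤ D) :
    √(ρ ^ 2 + D) ≤ ρ + D / (2 * ρ) - D ^ 2 / (8 * ρ ^ 3) + |D| ^ 3 / (16 * ρ ^ 5) := by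
  have h1 : ρ ^ 2 + D = ρ ^ 2 * (1 + D / ρ ^ 2) := by field_simp
  have h2 : -1 ≤ D / ρ ^ 2 := by
    rw [le_div_iff₀ (by positivity)]; linarith
  rw [h1, Real.sqrt_mul (by positivity), Real.sqrt_sq hρ.le]
  have h3 := mul_le_mul_of_nonneg_left (sqrt_ineq _ h2) hρ.le
  refine h3.trans (le_of_eq ?_)
  rw [abs_div, abs_of_pos (show (0 : ℝ) < ρ ^ 2 by positivity)]
  field_simp

theorem rat_ineq (τ D : ℝ) (hτ : 0 ≤ τ) (hD : -τ ≤ D) :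
    4 / (4 + (τ + D)) ≤ 4 / (4 + τ) - 4 * D / (4 + τ) ^ 2 + 4 * D ^ 2 / (4 + τ) ^ 3
      + |D| ^ 3 / (4 + τ) ^ 3 := by
  have hv : 0 < 4 + τ := by linarith
  have hvD : 4 ≤ 4 + (τ + D) := by linarith
  have hvD' : 0 < 4 + (τ + D) := by linarith
  have e : 4 / (4 + (τ + D)) = 4 / (4 + τ) - 4 * D / (4 + τ) ^ 2 + 4 * D ^ 2 / (4 + τ) ^ 3
      - 4 * D ^ 3 / ((4 + τ) ^ 3 * (4 + (τ + D))) := by
    field_simp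
    ring
  rw [e]
  have h : -(4 * D ^ 3 / ((4 + τ) ^ 3 * (4 + (τ + D)))) ≤ |D| ^ 3 / (4 + τ) ^ 3 := by
    rw [← neg_div, div_le_div_iff₀ (by positivity) (by positivity)]
    have h1 : -D ^ 3 ≤ |D| ^ 3 := by
      rw [← abs_pow]; exact neg_le_abs _
    have h2 : 0 ≤ |D| ^ 3 := by positivity
    have h3 : 0 < (4 + τ) ^ 3 := by positivity
    nlinarith [mul_nonneg h2 h3.le, mul_nonneg (sub_nonneg.2 h1) h3.le,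
      mul_nonneg (mul_nonneg h2 h3.le) (sub_nonneg.2 hvD)]
  linarith

theorem Fn_eq (τ : ℝ) (hτ : 0 ≤ τ) : Fn τ = 5 / 2 * √τ - 6 / 5 + 6 / 5 * (4 / (4 + τ)) := by
  unfold Fn
  have : 4 + τ ≠ 0 := by linarith
  field_simp
  ring

theorem Fn_taylor (ρ D : ℝ) (hρ : 0 < ρ) (hD : -ρ ^ 2 ≤ D) :
    Fn (ρ ^ 2 + D) ≤ Fn (ρ ^ 2) + (5 / (4 * ρ) - 24 / 5 / (4 + ρ ^ 2) ^ 2) * D
      - (5 / (16 * ρ ^ 3) - 24 / 5 / (4 + ρ ^ 2) ^ 3) * D ^ 2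
      + (5 / (32 * ρ ^ 5) + 6 / 5 / (4 + ρ ^ 2) ^ 3) * |D| ^ 3 := by
  rw [Fn_eq _ (by linarith), Fn_eq _ (by positivity)]
  have h1 := sqrt_ineq' ρ D hρ hD
  have h2 := rat_ineq (ρ ^ 2) D (by positivity) hD
  have h3 : √(ρ ^ 2) = ρ := Real.sqrt_sq hρ.le
  rw [h3]
  have e1 : 5 / 2 * (ρ + D / (2 * ρ) - D ^ 2 / (8 * ρ ^ 3) + |D| ^ 3 / (16 * ρ ^ 5)) =
    5 / 2 * ρ + 5 / (4 * ρ) * D - 5 / (16 * ρ ^ 3) * D ^ 2 + 5 / (32 * ρ ^ 5) * |D| ^ 3 := by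
    field_simp
    ring
  have e2 : 6 / 5 * (4 / (4 + ρ ^ 2) - 4 * D / (4 + ρ ^ 2) ^ 2 + 4 * D ^ 2 / (4 + ρ ^ 2) ^ 3
      + |D| ^ 3 / (4 + ρ ^ 2) ^ 3) = 6 / 5 * (4 / (4 + ρ ^ 2)) - 24 / 5 / (4 + ρ ^ 2) ^ 2 * D
      + 24 / 5 / (4 + ρ ^ 2) ^ 3 * D ^ 2 + 6 / 5 / (4 + ρ ^ 2) ^ 3 * |D| ^ 3 := by
    ring
  nlinarith [h1, h2, e1, e2]

theorem Fn_nonneg (τ : ℝ) (hτ : 0 ≤ τ) : 0 ≤ Fn τ := by
  unfold Fn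
  have h1 : τ = √τ ^ 2 := (Real.sq_sqrt hτ).symm
  set r := √τ with hr
  have hr0 : 0 ≤ r := Real.sqrt_nonneg _
  rw [h1]
  have : 6 / 5 * (r ^ 2 / (4 + r ^ 2)) ≤ 5 / 2 * r := by
    rw [← mul_div_assoc, div_le_iff₀ (by positivity)]
    nlinarith [mul_nonneg hr0 (sq_nonneg (r - 1)), mul_nonneg hr0 hr0, sq_nonneg (r - 2),
      mul_nonneg hr0 (sq_nonneg (r - 2))]
  linarith

theorem Fn_le (τ : ℝ) (hτ : 0 ≤ τ) : Fn τ ≤ 5 / 2 * √τ := by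
  unfold Fn
  have : 0 ≤ 6 / 5 * (τ / (4 + τ)) := by positivity
  linarith

theorem Fn_mono (τ σ : ℝ) (hτ : 0 ≤ τ) (h : τ ≤ σ) : Fn τ ≤ Fn σ := by
  unfold Fn
  have h1 : τ = √τ ^ 2 := (Real.sq_sqrt hτ).symm
  have h2 : σ = √σ ^ 2 := (Real.sq_sqrt (hτ.trans h)).symm
  have h3 : √τ ≤ √σ := Real.sqrt_le_sqrt h
  set r := √τ with hr
  set t := √σ with ht
  have hr0 : 0 ≤ r := Real.sqrt_nonneg _
  rw [h1, h2]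
  have ht0 : 0 ≤ t := hr0.trans h3
  have key : t ^ 2 / (4 + t ^ 2) - r ^ 2 / (4 + r ^ 2) ≤ (t - r) := by
    rw [div_sub_div _ _ (by positivity) (by positivity), div_le_iff₀ (by positivity)]
    have e : t ^ 2 * (4 + r ^ 2) - (4 + t ^ 2) * r ^ 2 = (t - r) * (4 * (t + r)) := by ring
    rw [e]
    apply mul_le_mul_of_nonneg_left _ (sub_nonneg.2 h3)
    nlinarith [sq_nonneg (t - 2), sq_nonneg (r - 2), sq_nonneg (t * r), mul_nonneg hr0 ht0, sq_nonneg (t-1), sq_nonneg (r-1)]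
  linarith [sub_nonneg.2 h3]


theorem det_main (ρ : ℝ) (hρ0 : 0 < ρ) :
    (5 / (4 * ρ) - 24 / 5 / (4 + ρ ^ 2) ^ 2) * (4 - ρ ^ 2)
      - (5 / (16 * ρ ^ 3) - 24 / 5 / (4 + ρ ^ 2) ^ 3) * (16 * ρ ^ 2) ≤ - 115 / 100 - ρ / 100 := by
  have e : (5 / (4 * ρ) - 24 / 5 / (4 + ρ ^ 2) ^ 2) * (4 - ρ ^ 2)
    - (5 / (16 * ρ ^ 3) - 24 / 5 / (4 + ρ ^ 2) ^ 3) * (16 * ρ ^ 2) =
    - (5 / 4 * ρ + 24 / 5 * (16 - 16 * ρ ^ 2 - ρ ^ 4) / (4 + ρ ^ 2) ^ 3) := by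
    field_simp
    ring
  rw [e]
  have h := main_poly ρ hρ0.le
  have h3 : (0 : ℝ) < (4 + ρ ^ 2) ^ 3 := by positivity
  have h4 : -(1.24 * ρ - 1.15) ≤ 24 / 5 * (16 - 16 * ρ ^ 2 - ρ ^ 4) / (4 + ρ ^ 2) ^ 3 := by
    rw [le_div_iff₀ h3]
    norm_num at h ⊢
    linarith
  norm_num at h4 ⊢
  linarith

theorem det_a (r0 ρ b : ℝ) (hr0 : 0 < r0) (hρ : r0 ≤ ρ) (hb0 : 0 ≤ b) (hbρ : b ≤ ρ)
    (ha : (ρ ^ 2 - b ^ 2) * (5 / (4 * r0) + 5 / r0 ^ 3) ≤ 1 / 100) :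
    (ρ ^ 2 - b ^ 2) * ((5 / (4 * ρ) - 24 / 5 / (4 + ρ ^ 2) ^ 2) +
      16 * (5 / (16 * ρ ^ 3) - 24 / 5 / (4 + ρ ^ 2) ^ 3)) ≤ 1 / 100 := by
  have hρ0 : 0 < ρ := hr0.trans_le hρ
  refine le_trans (mul_le_mul_of_nonneg_left ?_ (by nlinarith)) ha
  have h1 : 5 / (4 * ρ) ≤ 5 / (4 * r0) := by
    apply div_le_div_of_nonneg_left (by norm_num) (by positivity) (by linarith)
  have h2 : 5 / ρ ^ 3 ≤ 5 / r0 ^ 3 := by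
    apply div_le_div_of_nonneg_left (by norm_num) (by positivity)
    exact pow_le_pow_left₀ hr0.le hρ 3
  have h3 : 0 ≤ 24 / 5 / (4 + ρ ^ 2) ^ 2 := by positivity
  have h4 : 0 ≤ 24 / 5 / (4 + ρ ^ 2) ^ 3 := by positivity
  have h5 : 16 * (5 / (16 * ρ ^ 3)) = 5 / ρ ^ 3 := by field_simp
  linarith

theorem det_e1 (r0 ρ b s M4 : ℝ) (hr0 : 0 < r0) (hρ : r0 ≤ ρ) (hb0 : 0 ≤ b) (hbρ : b ≤ ρ)
    (hM4 : 0 ≤ M4) (hs0 : 0 < s) (hs1 : s ≤ 1) :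
    - ((5 / (16 * ρ ^ 3) - 24 / 5 / (4 + ρ ^ 2) ^ 3) *
      (s ^ 2 * (b ^ 4 - 24 * b ^ 2 + 16 * M4))) ≤
      s * (5 / 16 * (ρ + 24 / r0 + 16 * M4 / r0 ^ 3) + 24 / 5 * (25 + 16 * M4)) := by
  have hρ0 : 0 < ρ := hr0.trans_le hρ
  have hs2 : s ^ 2 ≤ s := pow_le_of_le_one hs0.le hs1 (by norm_num)
  have hv1 : (1 : ℝ) ≤ 4 + ρ ^ 2 := by linarith [sq_nonneg ρ]
  have hv3 : (1 : ℝ) ≤ (4 + ρ ^ 2) ^ 3 := one_le_pow₀ hv1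
  have hvρ2 : ρ ^ 2 ≤ (4 + ρ ^ 2) ^ 3 := by
    calc ρ ^ 2 ≤ 4 + ρ ^ 2 := by linarith
      _ = (4 + ρ ^ 2) ^ 1 := by ring
      _ ≤ _ := pow_le_pow_right₀ hv1 (by norm_num)
  have hvρ4 : ρ ^ 4 ≤ (4 + ρ ^ 2) ^ 3 := by
    calc ρ ^ 4 = (ρ ^ 2) ^ 2 := by ring
      _ ≤ (4 + ρ ^ 2) ^ 2 := pow_le_pow_left₀ (by positivity) (by linarith) 2
      _ ≤ _ := pow_le_pow_right₀ hv1 (by norm_num)
  have h1 : - ((5 / (16 * ρ ^ 3) - 24 / 5 / (4 + ρ ^ 2) ^ 3) *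
    (s ^ 2 * (b ^ 4 - 24 * b ^ 2 + 16 * M4))) ≤
    (5 / (16 * ρ ^ 3) + 24 / 5 / (4 + ρ ^ 2) ^ 3) * (s * (ρ ^ 4 + 24 * ρ ^ 2 + 16 * M4)) := by
    have q1 : |(5 / (16 * ρ ^ 3) - 24 / 5 / (4 + ρ ^ 2) ^ 3)| ≤
      (5 / (16 * ρ ^ 3) + 24 / 5 / (4 + ρ ^ 2) ^ 3) := by
      have h3 : 0 ≤ 5 / (16 * ρ ^ 3) := by positivity
      have h4 : 0 ≤ 24 / 5 / (4 + ρ ^ 2) ^ 3 := by positivity
      rw [abs_le]; constructor <;> linarith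
    have q2 : |s ^ 2 * (b ^ 4 - 24 * b ^ 2 + 16 * M4)| ≤ s * (ρ ^ 4 + 24 * ρ ^ 2 + 16 * M4) := by
      rw [abs_mul, abs_of_nonneg (sq_nonneg s)]
      apply mul_le_mul hs2 _ (abs_nonneg _) hs0.le
      have hb2 : b ^ 2 ≤ ρ ^ 2 := pow_le_pow_left₀ hb0 hbρ 2
      have hb4 : b ^ 4 ≤ ρ ^ 4 := pow_le_pow_left₀ hb0 hbρ 4
      rw [abs_le]
      have w1 := pow_nonneg hb0 4
      have w2 := pow_nonneg hb0 2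
      have w3 := pow_nonneg hρ0.le 4
      have w4 := pow_nonneg hρ0.le 2
      constructor <;> linarith
    calc _ ≤ |(5 / (16 * ρ ^ 3) - 24 / 5 / (4 + ρ ^ 2) ^ 3) *
        (s ^ 2 * (b ^ 4 - 24 * b ^ 2 + 16 * M4))| := neg_le_abs _
      _ ≤ _ := by
        rw [abs_mul]
        exact mul_le_mul q1 q2 (abs_nonneg _) (by positivity)
  refine h1.trans ?_
  have h2 : 5 / (16 * ρ ^ 3) * (ρ ^ 4 + 24 * ρ ^ 2 + 16 * M4) ≤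
      5 / 16 * (ρ + 24 / r0 + 16 * M4 / r0 ^ 3) := by
    have e : 5 / (16 * ρ ^ 3) * (ρ ^ 4 + 24 * ρ ^ 2 + 16 * M4) =
      5 / 16 * (ρ + 24 / ρ + 16 * M4 / ρ ^ 3) := by field_simp
    rw [e]
    have h1 : 24 / ρ ≤ 24 / r0 :=
      div_le_div_of_nonneg_left (by norm_num) (by positivity) (by linarith)
    have h2 : 16 * M4 / ρ ^ 3 ≤ 16 * M4 / r0 ^ 3 := by
      apply div_le_div_of_nonneg_left (by positivity) (by positivity)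
      exact pow_le_pow_left₀ hr0.le hρ 3
    linarith
  have h3 : 24 / 5 / (4 + ρ ^ 2) ^ 3 * (ρ ^ 4 + 24 * ρ ^ 2 + 16 * M4) ≤
      24 / 5 * (25 + 16 * M4) := by
    rw [div_mul_eq_mul_div, div_le_iff₀ (by positivity)]
    have := mul_le_mul_of_nonneg_left hv3 hM4
    linarith
  calc _ = s * (5 / (16 * ρ ^ 3) * (ρ ^ 4 + 24 * ρ ^ 2 + 16 * M4) +
      24 / 5 / (4 + ρ ^ 2) ^ 3 * (ρ ^ 4 + 24 * ρ ^ 2 + 16 * M4)) := by ring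
    _ ≤ _ := mul_le_mul_of_nonneg_left (add_le_add h2 h3) hs0.le

theorem det_e2 (r0 ρ b s M3 M6 : ℝ) (hr0 : 0 < r0) (hρ : r0 ≤ ρ) (hb0 : 0 ≤ b) (hbρ : b ≤ ρ)
    (hM3 : 0 ≤ M3) (hM6 : 0 ≤ M6) (hs0 : 0 < s) (hs1 : s ≤ 1) :
    (5 / (32 * ρ ^ 5) + 6 / 5 / (4 + ρ ^ 2) ^ 3) * (9 * (s ^ 4 * b ^ 6 +
      64 * s * b ^ 3 * M3 + 64 * s ^ 4 * M6)) ≤
      s * (45 / 32 * (ρ + 64 * M3 / r0 ^ 2 + 64 * M6 / r0 ^ 5) +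
        54 / 5 * (1 + 64 * M3 + 64 * M6)) := by
  have hρ0 : 0 < ρ := hr0.trans_le hρ
  have hs4 : s ^ 4 ≤ s := pow_le_of_le_one hs0.le hs1 (by norm_num)
  have hv1 : (1 : ℝ) ≤ 4 + ρ ^ 2 := by linarith [sq_nonneg ρ]
  have hv3 : (1 : ℝ) ≤ (4 + ρ ^ 2) ^ 3 := one_le_pow₀ hv1
  have hvρ3 : ρ ^ 3 ≤ (4 + ρ ^ 2) ^ 3 :=
    pow_le_pow_left₀ hρ0.le (by nlinarith [sq_nonneg (ρ - 1)]) 3
  have hvρ6 : ρ ^ 6 ≤ (4 + ρ ^ 2) ^ 3 := by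
    calc ρ ^ 6 = (ρ ^ 2) ^ 3 := by ring
      _ ≤ _ := pow_le_pow_left₀ (by positivity) (by linarith) 3
  have h1 : 9 * (s ^ 4 * b ^ 6 + 64 * s * b ^ 3 * M3 + 64 * s ^ 4 * M6) ≤
      9 * (s * (ρ ^ 6 + 64 * ρ ^ 3 * M3 + 64 * M6)) := by
    have hb3 : b ^ 3 ≤ ρ ^ 3 := pow_le_pow_left₀ hb0 hbρ 3
    have hb6 : b ^ 6 ≤ ρ ^ 6 := pow_le_pow_left₀ hb0 hbρ 6
    have q1 : s ^ 4 * b ^ 6 ≤ s * ρ ^ 6 := mul_le_mul hs4 hb6 (by positivity) hs0.le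
    have q2 : 64 * s * b ^ 3 * M3 ≤ 64 * s * ρ ^ 3 * M3 := by gcongr
    have q3 : 64 * s ^ 4 * M6 ≤ 64 * s * M6 := by gcongr
    linarith
  refine (mul_le_mul_of_nonneg_left h1 (by positivity)).trans ?_
  have h2 : 5 / (32 * ρ ^ 5) * (ρ ^ 6 + 64 * ρ ^ 3 * M3 + 64 * M6) ≤
      5 / 32 * (ρ + 64 * M3 / r0 ^ 2 + 64 * M6 / r0 ^ 5) := by
    have e : 5 / (32 * ρ ^ 5) * (ρ ^ 6 + 64 * ρ ^ 3 * M3 + 64 * M6) =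
      5 / 32 * (ρ + 64 * M3 / ρ ^ 2 + 64 * M6 / ρ ^ 5) := by field_simp
    rw [e]
    have h1 : 64 * M3 / ρ ^ 2 ≤ 64 * M3 / r0 ^ 2 := by
      apply div_le_div_of_nonneg_left (by positivity) (by positivity)
      exact pow_le_pow_left₀ hr0.le hρ 2
    have h2 : 64 * M6 / ρ ^ 5 ≤ 64 * M6 / r0 ^ 5 := by
      apply div_le_div_of_nonneg_left (by positivity) (by positivity)
      exact pow_le_pow_left₀ hr0.le hρ 5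
    linarith
  have h3 : 6 / 5 / (4 + ρ ^ 2) ^ 3 * (ρ ^ 6 + 64 * ρ ^ 3 * M3 + 64 * M6) ≤
      6 / 5 * (1 + 64 * M3 + 64 * M6) := by
    rw [div_mul_eq_mul_div, div_le_iff₀ (by positivity)]
    have k1 := mul_le_mul_of_nonneg_left hv3 hM6
    have k2 := mul_le_mul_of_nonneg_left hvρ3 hM3
    linarith
  calc _ = s * (9 * (5 / (32 * ρ ^ 5) * (ρ ^ 6 + 64 * ρ ^ 3 * M3 + 64 * M6)) +
      9 * (6 / 5 / (4 + ρ ^ 2) ^ 3 * (ρ ^ 6 + 64 * ρ ^ 3 * M3 + 64 * M6))) := by ring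
    _ ≤ _ := mul_le_mul_of_nonneg_left (by linarith) hs0.le

/-- deterministic part of the one step estimate -/
theorem det_est (r0 M3 M4 M6 : ℝ) (hr0 : 0 < r0) (hM3 : 0 ≤ M3) (hM4 : 0 ≤ M4) (hM6 : 0 ≤ M6) :
    ∃ C : ℝ, 0 < C ∧ ∀ ρ b s : ℝ, r0 ≤ ρ → 0 ≤ b → b ≤ ρ → 0 < s → s ≤ 1 → 
      (ρ ^ 2 - b ^ 2) * (5 / (4 * r0) + 5 / r0 ^ 3) ≤ 1 / 100 → s * C ≤ 1 / 100 →
      (5 / (4 * ρ) - 24 / 5 / (4 + ρ ^ 2) ^ 2) * (4 - b ^ 2)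
      - (5 / (16 * ρ ^ 3) - 24 / 5 / (4 + ρ ^ 2) ^ 3) * (16 * b ^ 2
        + s ^ 2 * (b ^ 4 - 24 * b ^ 2 + 16 * M4))
      + (5 / (32 * ρ ^ 5) + 6 / 5 / (4 + ρ ^ 2) ^ 3) * (9 * (s ^ 4 * b ^ 6 + 64 * s * b ^ 3 * M3
        + 64 * s ^ 4 * M6)) ≤ - 11 / 10 := by
  obtain ⟨K, hK⟩ : ∃ K, K = (5 / 16 * (24 / r0 + 16 * M4 / r0 ^ 3) + 24 / 5 * (25 + 16 * M4) +
    45 / 32 * (64 * M3 / r0 ^ 2 + 64 * M6 / r0 ^ 5) + 54 / 5 * (1 + 64 * M3 + 64 * M6)) := ⟨_, rfl⟩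
  have hK0 : 0 ≤ K := by rw [hK]; positivity
  refine ⟨2 + K, by linarith, ?_⟩
  intro ρ b s hρ hb0 hbρ hs0 hs1 ha hC
  have hρ0 : 0 < ρ := hr0.trans_le hρ
  have hmain := det_main ρ hρ0
  have hA := det_a r0 ρ b hr0 hρ hb0 hbρ ha
  have hE1 := det_e1 r0 ρ b s M4 hr0 hρ hb0 hbρ hM4 hs0 hs1
  have hE2 := det_e2 r0 ρ b s M3 M6 hr0 hρ hb0 hbρ hM3 hM6 hs0 hs1
  have hsum : s * (5 / 16 * (ρ + 24 / r0 + 16 * M4 / r0 ^ 3) + 24 / 5 * (25 + 16 * M4)) +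
      s * (45 / 32 * (ρ + 64 * M3 / r0 ^ 2 + 64 * M6 / r0 ^ 5) +
        54 / 5 * (1 + 64 * M3 + 64 * M6)) ≤ (1 + ρ) / 100 := by
    have e : s * (5 / 16 * (ρ + 24 / r0 + 16 * M4 / r0 ^ 3) + 24 / 5 * (25 + 16 * M4)) +
      s * (45 / 32 * (ρ + 64 * M3 / r0 ^ 2 + 64 * M6 / r0 ^ 5) +
        54 / 5 * (1 + 64 * M3 + 64 * M6)) = s * (55 / 32 * ρ + K) := by rw [hK]; ring
    rw [e]
    have h1 : s * (55 / 32 * ρ + K) ≤ s * ((2 + K) * (1 + ρ)) := by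
      apply mul_le_mul_of_nonneg_left _ hs0.le
      have := mul_nonneg hK0 hρ0.le
      linarith
    have h2 : s * ((2 + K) * (1 + ρ)) = (s * (2 + K)) * (1 + ρ) := by ring
    have h3 := mul_le_mul_of_nonneg_right hC (show 0 ≤ 1 + ρ by linarith)
    linarith
  have expand : (5 / (4 * ρ) - 24 / 5 / (4 + ρ ^ 2) ^ 2) * (4 - b ^ 2)
      - (5 / (16 * ρ ^ 3) - 24 / 5 / (4 + ρ ^ 2) ^ 3) * (16 * b ^ 2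
        + s ^ 2 * (b ^ 4 - 24 * b ^ 2 + 16 * M4)) =
      ((5 / (4 * ρ) - 24 / 5 / (4 + ρ ^ 2) ^ 2) * (4 - ρ ^ 2)
      - (5 / (16 * ρ ^ 3) - 24 / 5 / (4 + ρ ^ 2) ^ 3) * (16 * ρ ^ 2)) +
      (ρ ^ 2 - b ^ 2) * ((5 / (4 * ρ) - 24 / 5 / (4 + ρ ^ 2) ^ 2) +
      16 * (5 / (16 * ρ ^ 3) - 24 / 5 / (4 + ρ ^ 2) ^ 3)) +
      - ((5 / (16 * ρ ^ 3) - 24 / 5 / (4 + ρ ^ 2) ^ 3) *
      (s ^ 2 * (b ^ 4 - 24 * b ^ 2 + 16 * M4))) := by ring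
  rw [expand]
  linarith

end MP04ae38
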