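import Pool.Agent.Lib.MP_04ae38_an.Step

/-!
# The integrated reflection coupling estimate
-/

open Set Function MeasureTheory ProbabilityTheory Filter Topology

namespace MP04ae38

variable {n : ℕ}

/-- auxiliary constant -/
noncomputable def kap (n : ℕ) : ℝ := 1 / (40 * (1 + 2 * n) * ((∫ z, ‖z‖ ∂(γ n)) + 1))

theorem kap_pos (n : ℕ) : 0 < kap n := by
  unfold kap
  have : 0 ≤ ∫ z, ‖z‖ ∂(γ n) := integral_nonneg (fun _ => norm_nonneg _)
  positivity

theorem one_sub_sqrt_le (s : ℝ) (hs0 : 0 ≤ s) (hs1 : s ≤ 1) : 1 - √(1 - s ^ 2) ≤ s ^ 2 := by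
  have : 1 - s ^ 2 ≤ √(1 - s ^ 2) := by
    apply Real.le_sqrt_of_sq_le
    have h1 : 0 ≤ 1 - s ^ 2 := by nlinarith
    have h2 : 1 - s ^ 2 ≤ 1 := by nlinarith
    nlinarith
  linarith

set_option maxHeartbeats 1000000 in
theorem S_directed (r0 : ℝ) (hr0 : 0 < r0) (hr1 : r0 ≤ 1) (C : ℝ) (hC0 : 0 ≤ C) :
    ∃ s0 : ℝ, 0 < s0 ∧ s0 ≤ 1 ∧ ∀ s : ℝ, 0 < s → s ≤ s0 → ∀ u : (Fin n → ℝ) → ℝ, Measurable u →
    (∀ p, |u p| ≤ C) → ∀ rr : ℝ, 0 ≤ rr →
    (∀ p q : Fin n → ℝ, (∀ i, p i ≤ q i) →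
      u p - u q ≤ Fn (sq2 (q - p)) + rr + kap n * s * (‖p‖ + ‖q‖)) →
    ∀ x y : Fin n → ℝ, (∀ i, x i ≤ y i) → r0 ^ 2 ≤ sq2 (y - x) →
      kap n * s * (‖x‖ + ‖y‖) ≤ 2 * C →
      S s u x - S s u y ≤ Fn (sq2 (y - x)) + rr + kap n * s * (‖x‖ + ‖y‖) - s ^ 2 := by
  obtain ⟨s1, hs1pos, hs11, hrad⟩ := step_radial r0 hr0
  set Q := 5 / (4 * r0) + 5 / r0 ^ 3 with hQ
  have hQ0 : 0 < Q := by positivity
  have hQr : 1 / Q ≤ r0 ^ 3 / 5 := by
    rw [div_le_iff₀ hQ0]
    have h1 : r0 ^ 3 / 5 * (5 / r0 ^ 3) = 1 := by field_simp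
    have h2 : 0 ≤ r0 ^ 3 / 5 * (5 / (4 * r0)) := by positivity
    rw [hQ, mul_add]
    linarith
  set θ := √(1 / (100 * (n + 1) * Q)) with hθdef
  have hθ0 : 0 < θ := Real.sqrt_pos.2 (by positivity)
  have hθ2 : θ ^ 2 = 1 / (100 * (n + 1) * Q) := Real.sq_sqrt (by positivity)
  set m6 := ∫ z, ‖z‖ ^ 6 ∂(γ n) with hm6
  have hm60 : 0 ≤ m6 := integral_nonneg (fun _ => by positivity)
  set m1 := ∫ z, ‖z‖ ∂(γ n) with hm1
  have hm10 : 0 ≤ m1 := integral_nonneg (fun _ => norm_nonneg _)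
  have hκ0 := kap_pos n
  have hn0 : (0 : ℝ) ≤ n := Nat.cast_nonneg n
  refine ⟨min s1 (min (1 / (40 * (C + 1) * (m6 + 1))) (min (θ * kap n / (8 * (C + 1)))
    ((θ / (4 * (1 + 2 * n))) ^ 2))), by positivity, (min_le_left _ _).trans hs11, ?_⟩
  intro s hs0 hs u hmu hu rr hrr hdir x y hxy hxyr hxybox
  have hsa : s ≤ s1 := hs.trans (min_le_left _ _)
  have hsb : s ≤ 1 / (40 * (C + 1) * (m6 + 1)) :=
    hs.trans ((min_le_right _ _).trans (min_le_left _ _))
  have hsc : s ≤ θ * kap n / (8 * (C + 1)) :=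
    hs.trans ((min_le_right _ _).trans ((min_le_right _ _).trans (min_le_left _ _)))
  have hsd : s ≤ (θ / (4 * (1 + 2 * n))) ^ 2 :=
    hs.trans ((min_le_right _ _).trans ((min_le_right _ _).trans (min_le_right _ _)))
  have hs1 : s ≤ 1 := hsa.trans hs11
  -- decomposition of the difference
  set a2 := ∑ i, (if θ ≤ y i - x i then 0 else (y i - x i) ^ 2) with ha2
  set b2 := ∑ i, (if θ ≤ y i - x i then (y i - x i) ^ 2 else 0) with hb2
  have hsum : sq2 (y - x) = a2 + b2 := by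
    rw [ha2, hb2, ← Finset.sum_add_distrib]
    apply Finset.sum_congr rfl
    intro i _
    split_ifs
    · simp
    · simp
  have ha20 : 0 ≤ a2 := Finset.sum_nonneg (fun i _ => by split_ifs <;> positivity)
  have hb20 : 0 ≤ b2 := Finset.sum_nonneg (fun i _ => by split_ifs <;> positivity)
  have ha2n : a2 ≤ n * θ ^ 2 := by
    calc a2 ≤ ∑ i : Fin n, θ ^ 2 := by
          apply Finset.sum_le_sum
          intro i _
          split_ifs with h
          · positivity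
          · push Not at h
            exact pow_le_pow_left₀ (by linarith [hxy i]) h.le 2
      _ = n * θ ^ 2 := by simp
  have ha2Q : a2 * Q ≤ 1 / 100 := by
    calc a2 * Q ≤ n * θ ^ 2 * Q := mul_le_mul_of_nonneg_right ha2n hQ0.le
      _ = (1 / 100) * (n / (n + 1)) := by rw [hθ2]; field_simp
      _ ≤ (1 / 100) * 1 := by
        apply mul_le_mul_of_nonneg_left _ (by norm_num)
        rw [div_le_one (by positivity)]; linarith
      _ = 1 / 100 := by ring
  have hb2pos : 0 < b2 := by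
    have h1 : a2 ≤ (1 / 100) * (1 / Q) := by
      rw [mul_one_div, le_div_iff₀ hQ0]; exact ha2Q
    have h2 : (1 / 100) * (1 / Q) ≤ (1 / 100) * (r0 ^ 3 / 5) :=
      mul_le_mul_of_nonneg_left hQr (by norm_num)
    have h3 : r0 ^ 3 ≤ r0 ^ 2 := pow_le_pow_of_le_one hr0.le hr1 (by norm_num)
    have h4 : 0 < r0 ^ 2 := by positivity
    linarith
  set b := √b2 with hbdef
  have hb : 0 < b := Real.sqrt_pos.2 hb2pos
  have hbsq : b ^ 2 = b2 := Real.sq_sqrt hb20
  -- the smallness of the jumps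
  have hθcond : (1 - √(1 - s ^ 2)) * (‖x‖ + ‖y‖) + (1 + 2 * n) * √s ≤ θ / 2 := by
    have h1 : (1 - √(1 - s ^ 2)) * (‖x‖ + ‖y‖) ≤ θ / 4 := by
      have h2 : (1 - √(1 - s ^ 2)) * (‖x‖ + ‖y‖) ≤ s ^ 2 * (‖x‖ + ‖y‖) :=
        mul_le_mul_of_nonneg_right (one_sub_sqrt_le s hs0.le hs1) (by positivity)
      have h3 : s ^ 2 * (‖x‖ + ‖y‖) = s / kap n * (kap n * s * (‖x‖ + ‖y‖)) := by
        field_simp
      have h4 : s / kap n * (kap n * s * (‖x‖ + ‖y‖)) ≤ s / kap n * (2 * C) :=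
        mul_le_mul_of_nonneg_left hxybox (by positivity)
      have h5 : s / kap n ≤ θ / (8 * (C + 1)) := by
        rw [div_le_iff₀ hκ0]
        calc s ≤ θ * kap n / (8 * (C + 1)) := hsc
          _ = _ := by ring
      have h6 : s / kap n * (2 * C) ≤ θ / (8 * (C + 1)) * (2 * C) :=
        mul_le_mul_of_nonneg_right h5 (by positivity)
      have h7 : θ / (8 * (C + 1)) * (2 * C) ≤ θ / 4 := by
        rw [div_mul_eq_mul_div, div_le_iff₀ (by positivity)]
        nlinarith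
      linarith
    have h2 : (1 + 2 * n) * √s ≤ θ / 4 := by
      have h3 : √s ≤ θ / (4 * (1 + 2 * n)) := by
        rw [Real.sqrt_le_iff]
        exact ⟨by positivity, hsd⟩
      calc (1 + 2 * n) * √s ≤ (1 + 2 * n) * (θ / (4 * (1 + 2 * n))) :=
            mul_le_mul_of_nonneg_left h3 (by positivity)
        _ = θ / 4 := by field_simp
    linarith
  have hpath := W_directed u C hu rr (kap n * s) hrr (by positivity) hdir s hs0 hs1 θ x y hxy b hb
    (by rw [hbsq]) hθcond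
  simp only [] at hpath
  set k : Fin n → ℝ := fun i => if θ ≤ y i - x i then (y i - x i) / b else 0 with hk
  have hksum : ∑ j, k j ^ 2 = 1 := by
    have : ∀ j, k j ^ 2 = (if θ ≤ y j - x j then (y j - x j) ^ 2 else 0) / b ^ 2 := by
      intro j
      simp only [hk]
      split_ifs
      · rw [div_pow]
      · simp
    rw [Finset.sum_congr rfl (fun j _ => this j), ← Finset.sum_div, ← hb2, hbsq,
      div_self hb2pos.ne']
  obtain ⟨hradint, hradle⟩ := hrad s a2 b hs0 hsa ha20 hb.le (by rw [hbsq, ← hsum]; exact hxyr) ha2Q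
  have hlaw := refl_law k hksum
  have hmeas : Measurable (fun g : ℝ => Fn (a2 + (√(1 - s ^ 2) * b - 2 * s * g) ^ 2)) :=
    measurable_Fn.comp (by fun_prop)
  have hradint' : Integrable (fun z : Fin n → ℝ => Fn (a2 + (√(1 - s ^ 2) * b -
      2 * s * ∑ j, k j * z j) ^ 2)) (γ n) :=
    hlaw.integrable_comp_of_integrable hradint
  have hradle' : ∫ z, Fn (a2 + (√(1 - s ^ 2) * b - 2 * s * ∑ j, k j * z j) ^ 2) ∂(γ n) ≤
      Fn (a2 + b ^ 2) - 11 / 10 * s ^ 2 := by
    have : ∫ z, Fn (a2 + (√(1 - s ^ 2) * b - 2 * s * ∑ j, k j * z j) ^ 2) ∂(γ n) =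
      ∫ g, Fn (a2 + (√(1 - s ^ 2) * b - 2 * s * g) ^ 2) ∂(gaussianReal 0 1) := by
      rw [← hlaw.map_eq, integral_map hlaw.measurable.aemeasurable hmeas.aestronglyMeasurable]
    rw [this]; exact hradle
  -- rewrite the second integral by reflection invariance
  have hSy : S s u y = ∫ z, W u (List.finRange n) y (jump s y (refl k z)) ∂(γ n) := by
    unfold S
    have hr := refl_mp k hksum
    conv_lhs => rw [← hr.map_eq]
    rw [integral_map hr.measurable.aemeasurable (measurable_WJ' s u hmu _ y).aestronglyMeasurable]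
  have hint1 := integrable_WJ s u hmu C hu (List.finRange n) x
  have hint2 : Integrable (fun z => W u (List.finRange n) y (jump s y (refl k z))) (γ n) :=
    Integrable.of_bound (((measurable_WJ' s u hmu _ y).comp
      (refl_mp k hksum).measurable).aestronglyMeasurable) C
      (Eventually.of_forall fun z => abs_W_le u C hu _ y _)
  have hn1 : Integrable (fun z : Fin n → ℝ => ‖z‖) (γ n) := by
    simpa using integrable_norm_pow (n := n) 1
  have hn6 := integrable_norm_pow (n := n) 6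
  have hrhs0 : Integrable (fun z : Fin n → ℝ => Fn (a2 + (√(1 - s ^ 2) * b -
      2 * s * ∑ j, k j * z j) ^ 2) + rr) (γ n) := hradint'.add (integrable_const _)
  have hrhs1 : Integrable (fun z : Fin n → ℝ => Fn (a2 + (√(1 - s ^ 2) * b -
      2 * s * ∑ j, k j * z j) ^ 2) + rr + kap n * s * (‖x‖ + ‖y‖)) (γ n) :=
    hrhs0.add (integrable_const _)
  have hrhs2 : Integrable (fun z : Fin n → ℝ => Fn (a2 + (√(1 - s ^ 2) * b -
      2 * s * ∑ j, k j * z j) ^ 2) + rr + kap n * s * (‖x‖ + ‖y‖) +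
      2 * (kap n * s) * s * (1 + 2 * n) * ‖z‖) (γ n) := hrhs1.add (hn1.const_mul _)
  have hrhs : Integrable (fun z : Fin n → ℝ => Fn (a2 + (√(1 - s ^ 2) * b -
      2 * s * ∑ j, k j * z j) ^ 2) + rr + kap n * s * (‖x‖ + ‖y‖) +
      2 * (kap n * s) * s * (1 + 2 * n) * ‖z‖ + 2 * C * s ^ 3 * ‖z‖ ^ 6) (γ n) :=
    hrhs2.add (hn6.const_mul _)
  have hmono := integral_mono (hint1.sub hint2) hrhs (fun z => hpath z)
  have hl : ∫ z, ((fun z => W u (List.finRange n) x (jump s x z)) - 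
      (fun z => W u (List.finRange n) y (jump s y (refl k z)))) z ∂(γ n) = S s u x - S s u y := by
    rw [hSy]
    exact integral_sub hint1 hint2
  rw [hl] at hmono
  have hr : ∫ z, (Fn (a2 + (√(1 - s ^ 2) * b -
      2 * s * ∑ j, k j * z j) ^ 2) + rr + kap n * s * (‖x‖ + ‖y‖) +
      2 * (kap n * s) * s * (1 + 2 * n) * ‖z‖ + 2 * C * s ^ 3 * ‖z‖ ^ 6) ∂(γ n) =
      (∫ z, Fn (a2 + (√(1 - s ^ 2) * b - 2 * s * ∑ j, k j * z j) ^ 2) ∂(γ n)) + rr +
      kap n * s * (‖x‖ + ‖y‖) + 2 * (kap n * s) * s * (1 + 2 * n) * m1 + 2 * C * s ^ 3 * m6 := by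
    rw [integral_add hrhs2 (hn6.const_mul _), integral_add hrhs1 (hn1.const_mul _),
      integral_add hrhs0 (integrable_const _),
      integral_add hradint' (integrable_const _), integral_const_mul _ (fun z : Fin n → ℝ => ‖z‖ ^ 6),
      integral_const_mul _ (fun z : Fin n → ℝ => ‖z‖), ← hm6, ← hm1]
    simp
  have hmono' := hmono.trans (le_of_eq hr)
  have hk1 : 2 * (kap n * s) * s * (1 + 2 * n) * m1 ≤ s ^ 2 / 20 := by
    have h1 : kap n * ((1 + 2 * n) * m1) ≤ 1 / 40 := by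
      unfold kap
      rw [← hm1, div_mul_eq_mul_div, div_le_iff₀ (by positivity)]
      nlinarith [mul_nonneg hn0 hm10]
    have h2 : 2 * (kap n * s) * s * (1 + 2 * n) * m1 = 2 * s ^ 2 * (kap n * ((1 + 2 * n) * m1)) := by
      ring
    rw [h2]
    have := mul_le_mul_of_nonneg_left h1 (show 0 ≤ 2 * s ^ 2 by positivity)
    linarith
  have hk2 : 2 * C * s ^ 3 * m6 ≤ s ^ 2 / 20 := by
    have h1 : s * (C * m6) ≤ 1 / 40 := by
      rw [le_div_iff₀ (by positivity)] at hsb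
      have h2 : C * m6 ≤ (C + 1) * (m6 + 1) := by
        apply mul_le_mul (by linarith) (by linarith) hm60 (by linarith)
      have := mul_le_mul_of_nonneg_left h2 hs0.le
      linarith
    have h2 : 2 * C * s ^ 3 * m6 = 2 * s ^ 2 * (s * (C * m6)) := by ring
    rw [h2]
    have := mul_le_mul_of_nonneg_left h1 (show 0 ≤ 2 * s ^ 2 by positivity)
    linarith
  rw [hsum, ← hbsq]
  linarith

end MP04ae38
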