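import Mathlib

/-!
# Duality: distance to a cone in `L¹`
-/

open Set Function MeasureTheory Filter Topology
open scoped RealInnerProductSpace

namespace MP04ae38

theorem duality {α : Type*} [MeasurableSpace α] (μ : Measure α) [IsProbabilityMeasure μ]
    (M : Set (α → ℝ)) (hM2 : ∀ H ∈ M, MemLp H 2 μ) (h0 : (fun _ => (0 : ℝ)) ∈ M)
    (hadd : ∀ H ∈ M, ∀ H' ∈ M, (fun x => H x + H' x) ∈ M)
    (hsmul : ∀ c : ℝ, 0 ≤ c → ∀ H ∈ M, (fun x => c * H x) ∈ M)
    (F : α → ℝ) (hF : MemLp F 2 μ) (r : ℝ) (hr0 : 0 < r)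
    (hr : ∀ H ∈ M, r ≤ ∫ x, |F x - H x| ∂μ) :
    ∃ g : α → ℝ, Measurable g ∧ (∀ x, |g x| ≤ 1) ∧ (∀ H ∈ M, ∫ x, g x * H x ∂μ ≤ 0) ∧
      r ≤ ∫ x, g x * F x ∂μ := by
  classical
  -- the two convex sets
  let A : Set (Lp ℝ 2 μ) := {w | ∫ x, |w x| ∂μ < r}
  let B : Set (Lp ℝ 2 μ) := {w | ∃ H ∈ M, w =ᵐ[μ] fun x => F x - H x}
  have hint : ∀ w : Lp ℝ 2 μ, Integrable w μ := fun w => (Lp.memLp w).integrable one_le_two
  -- the functional `w ↦ ∫ |w|`
  have hN_lip : ∀ w v : Lp ℝ 2 μ, |∫ x, |w x| ∂μ - ∫ x, |v x| ∂μ| ≤ ‖w - v‖ := by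
    intro w v
    rw [← integral_sub (hint w).abs (hint v).abs]
    have h1 : |∫ x, (|w x| - |v x|) ∂μ| ≤ ∫ x, |(w - v : Lp ℝ 2 μ) x| ∂μ := by
      rw [← Real.norm_eq_abs]
      apply norm_integral_le_of_norm_le (hint (w - v)).abs
      filter_upwards [Lp.coeFn_sub w v] with x hx
      rw [hx, Real.norm_eq_abs]
      exact abs_abs_sub_abs_le_abs_sub _ _
    refine h1.trans ?_
    have h2 := eLpNorm_le_eLpNorm_of_exponent_le (μ := μ) (p := 1) (q := 2) one_le_two
      (Lp.aestronglyMeasurable (w - v))
    have h3 : ∫ x, |(w - v : Lp ℝ 2 μ) x| ∂μ = (eLpNorm (w - v : Lp ℝ 2 μ) 1 μ).toReal := by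
      rw [eLpNorm_one_eq_lintegral_enorm, ← integral_norm_eq_lintegral_enorm
        (Lp.aestronglyMeasurable (w - v))]
      rfl
    rw [h3, Lp.norm_def]
    exact ENNReal.toReal_mono (Lp.eLpNorm_ne_top _) h2
  have hAopen : IsOpen A := by
    have hc : Continuous fun w : Lp ℝ 2 μ => ∫ x, |w x| ∂μ := by
      have : LipschitzWith 1 fun w : Lp ℝ 2 μ => ∫ x, |w x| ∂μ := by
        apply LipschitzWith.of_dist_le_mul
        intro w v
        rw [Real.dist_eq, dist_eq_norm, NNReal.coe_one, one_mul]
        exact hN_lip w v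
      exact this.continuous
    exact isOpen_lt hc continuous_const
  have hAconv : Convex ℝ A := by
    intro w hw v hv a b ha hb hab
    simp only [A, mem_ofPred_eq] at hw hv ⊢
    have h1 : ∫ x, |(a • w + b • v : Lp ℝ 2 μ) x| ∂μ ≤ ∫ x, (a * |w x| + b * |v x|) ∂μ := by
      apply integral_mono_ae (hint _).abs (((hint w).abs.const_mul a).add ((hint v).abs.const_mul b))
      filter_upwards [Lp.coeFn_add (a • w) (b • v), Lp.coeFn_smul a w, Lp.coeFn_smul b v]
        with x h1 h2 h3
      rw [h1, Pi.add_apply, h2, h3]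
      simp only [Pi.smul_apply, smul_eq_mul]
      calc |a * w x + b * v x| ≤ |a * w x| + |b * v x| := abs_add_le _ _
        _ = a * |w x| + b * |v x| := by rw [abs_mul, abs_mul, abs_of_nonneg ha, abs_of_nonneg hb]
    rw [integral_add ((hint w).abs.const_mul a) ((hint v).abs.const_mul b), integral_const_mul,
      integral_const_mul] at h1
    rcases eq_or_lt_of_le ha with ha' | ha'
    · have hb1 : b = 1 := by linarith
      rw [← ha', hb1] at h1 ⊢
      linarith
    · have h2 := mul_lt_mul_of_pos_left hw ha'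
      have h3 := mul_le_mul_of_nonneg_left hv.le hb
      have h4 : a * r + b * r = r := by rw [← add_mul, hab, one_mul]
      linarith
  have hBconv : Convex ℝ B := by
    intro w hw v hv a b ha hb hab
    obtain ⟨H, hH, hw⟩ := hw
    obtain ⟨H', hH', hv⟩ := hv
    refine ⟨fun x => a * H x + b * H' x, hadd _ (hsmul a ha H hH) _ (hsmul b hb H' hH'), ?_⟩
    filter_upwards [Lp.coeFn_add (a • w) (b • v), Lp.coeFn_smul a w, Lp.coeFn_smul b v, hw, hv]
      with x h1 h2 h3 h4 h5
    rw [h1, Pi.add_apply, h2, h3]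
    simp only [Pi.smul_apply, smul_eq_mul]
    rw [h4, h5]
    have : F x = (a + b) * F x := by rw [hab, one_mul]
    linear_combination -this
  have hdisj : Disjoint A B := by
    rw [Set.disjoint_left]
    rintro w hw ⟨H, hH, hw'⟩
    have h1 : ∫ x, |w x| ∂μ = ∫ x, |F x - H x| ∂μ := by
      apply integral_congr_ae
      filter_upwards [hw'] with x hx
      rw [hx]
    simp only [A, mem_ofPred_eq] at hw
    rw [h1] at hw
    exact absurd hw (not_lt.2 (hr H hH))
  obtain ⟨f, c, hfA, hfB⟩ := geometric_hahn_banach_open hAconv hAopen hBconv hdisj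
  -- `c > 0`
  have hc0 : 0 < c := by
    have : (0 : Lp ℝ 2 μ) ∈ A := by
      simp only [A, mem_ofPred_eq]
      have : ∫ x, |(0 : Lp ℝ 2 μ) x| ∂μ = 0 := by
        have h1 : ∫ x, |(0 : Lp ℝ 2 μ) x| ∂μ = ∫ _, (0 : ℝ) ∂μ := by
          apply integral_congr_ae
          filter_upwards [Lp.coeFn_zero ℝ 2 μ] with x hx
          rw [hx]; simp
        rw [h1]; simp
      rw [this]; exact hr0
    have := hfA 0 this
    simpa using this
  -- Riesz representative
  let g' : Lp ℝ 2 μ := (InnerProductSpace.toDual ℝ (Lp ℝ 2 μ)).symm f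
  have hg' : ∀ w : Lp ℝ 2 μ, f w = ∫ x, g' x * w x ∂μ := by
    intro w
    have h1 : ⟪g', w⟫ = f w := InnerProductSpace.toDual_symm_apply
    rw [← h1, L2.inner_def]
    apply integral_congr_ae
    refine Eventually.of_forall fun x => ?_
    simp [mul_comm]
  have hprod : ∀ w : Lp ℝ 2 μ, Integrable (fun x => g' x * w x) μ := by
    intro w
    exact (Lp.memLp g').integrable_mul (Lp.memLp w)
  -- values on functions in `L²`
  have hval : ∀ (H : α → ℝ) (hH : MemLp H 2 μ), f (hH.toLp H) = ∫ x, g' x * H x ∂μ := by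
    intro H hH
    rw [hg']
    apply integral_congr_ae
    filter_upwards [hH.coeFn_toLp] with x hx
    rw [hx]
  have hFH : ∀ H ∈ M, ∀ a : ℝ, 0 ≤ a → c ≤ ∫ x, g' x * F x ∂μ - a * ∫ x, g' x * H x ∂μ := by
    intro H hH a ha
    have hmem := hM2 _ (hsmul a ha H hH)
    have h1 := hfB (hF.toLp F - hmem.toLp _) ⟨_, hsmul a ha H hH, by
      filter_upwards [Lp.coeFn_sub (hF.toLp F) (hmem.toLp _), hF.coeFn_toLp, hmem.coeFn_toLp]
        with x h1 h2 h3
      rw [h1, Pi.sub_apply, h2, h3]⟩
    rw [map_sub, hval F hF, hval _ hmem] at h1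
    have h2 : ∫ x, g' x * (a * H x) ∂μ = a * ∫ x, g' x * H x ∂μ := by
      rw [← integral_const_mul]
      apply integral_congr_ae
      refine Eventually.of_forall fun x => ?_
      dsimp only; ring
    rw [h2] at h1
    exact h1
  have hFc : c ≤ ∫ x, g' x * F x ∂μ := by
    have := hFH _ h0 0 le_rfl
    simpa using this
  have hH0 : ∀ H ∈ M, ∫ x, g' x * H x ∂μ ≤ 0 := by
    intro H hH
    by_contra hcon
    push Not at hcon
    set I := ∫ x, g' x * H x ∂μ
    have h1 := hFH H hH ((∫ x, g' x * F x ∂μ) / I) (by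
      apply div_nonneg (hc0.le.trans hFc) hcon.le)
    rw [div_mul_cancel₀ _ hcon.ne', sub_self] at h1
    linarith
  -- the bound `|g'| ≤ c / r`
  have hg'm : Measurable g' := (Lp.stronglyMeasurable g').measurable
  have hbound : ∀ᵐ x ∂μ, |g' x| ≤ c / r := by
    set T := {x | c / r < |g' x|} with hT
    have hTm : MeasurableSet T := measurableSet_lt measurable_const hg'm.abs
    rw [ae_iff]
    have : {x | ¬|g' x| ≤ c / r} = T := by
      ext x; simp [T]
    rw [this]
    by_contra hpos
    have hm : 0 < μ.real T := by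
      rw [measureReal_def]
      exact ENNReal.toReal_pos hpos (measure_ne_top μ T)
    set m := μ.real T with hmdef
    -- test function
    let s : α → ℝ := fun x => if 0 ≤ g' x then 1 else -1
    have hsm : Measurable s := Measurable.ite (measurableSet_le measurable_const hg'm)
      measurable_const measurable_const
    have hs1 : ∀ x, |s x| = 1 := by
      intro x; simp only [s]; split_ifs <;> simp
    have hsg : ∀ x, g' x * s x = |g' x| := by
      intro x; simp only [s]
      split_ifs with h
      · rw [abs_of_nonneg h, mul_one]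
      · push Not at h
        rw [abs_of_neg h]; ring
    have hwm : ∀ τ : ℝ, MemLp (T.indicator fun x => τ * s x) 2 μ := by
      intro τ
      apply MemLp.of_bound ((hsm.const_mul τ).indicator hTm).aestronglyMeasurable |τ|
      refine Eventually.of_forall fun x => ?_
      rw [norm_indicator_eq_indicator_norm]
      apply indicator_le_self' _ x |>.trans
      · rw [norm_mul, Real.norm_eq_abs, Real.norm_eq_abs, hs1, mul_one]
      · intro x _; exact norm_nonneg _
    have hIT : (c / r) * m < ∫ x in T, |g' x| ∂μ := by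
      have h1 : ∫ x in T, (c / r) ∂μ = (c / r) * m := by
        rw [setIntegral_const, smul_eq_mul, mul_comm]
      rw [← h1]
      have hi : IntegrableOn (fun x => |g' x|) T μ := (hint g').abs.integrableOn
      have h2 : 0 < ∫ x in T, (|g' x| - c / r) ∂μ := by
        rw [setIntegral_pos_iff_support_of_nonneg_ae]
        · have : (support fun x => |g' x| - c / r) ∩ T = T := by
            ext x
            simp only [mem_inter_iff, mem_support, T, mem_ofPred_eq]
            constructor
            · exact fun h => h.2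
            · intro h; exact ⟨by linarith [h] |> fun (h' : 0 < |g' x| - c / r) => h'.ne', h⟩
          rw [this]
          exact pos_iff_ne_zero.2 hpos
        · filter_upwards [ae_restrict_mem hTm] with x hx
          have : c / r < |g' x| := hx
          simp only [Pi.zero_apply]
          linarith
        · exact hi.sub (integrable_const _).integrableOn
      rw [integral_sub hi (integrable_const _).integrableOn] at h2
      linarith
    have hfτ : ∀ τ : ℝ, 0 ≤ τ → τ * m < r → τ * ∫ x in T, |g' x| ∂μ < c := by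
      intro τ hτ hτm
      have h1 : (hwm τ).toLp _ ∈ A := by
        simp only [A, mem_ofPred_eq]
        have h2 : ∫ x, |((hwm τ).toLp _ : Lp ℝ 2 μ) x| ∂μ = τ * m := by
          have h3 : ∫ x, |((hwm τ).toLp _ : Lp ℝ 2 μ) x| ∂μ = ∫ x, T.indicator (fun _ => τ) x ∂μ := by
            apply integral_congr_ae
            filter_upwards [(hwm τ).coeFn_toLp] with x hx
            rw [hx]
            by_cases hxT : x ∈ T
            · rw [indicator_of_mem hxT, indicator_of_mem hxT, abs_mul, hs1, mul_one,
                abs_of_nonneg hτ]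
            · rw [indicator_of_notMem hxT, indicator_of_notMem hxT, abs_zero]
          rw [h3, integral_indicator hTm, setIntegral_const, smul_eq_mul, mul_comm]
        rw [h2]; exact hτm
      have h2 := hfA _ h1
      rw [hval _ (hwm τ)] at h2
      have h3 : ∫ x, g' x * T.indicator (fun x => τ * s x) x ∂μ = τ * ∫ x in T, |g' x| ∂μ := by
        rw [← integral_const_mul, ← integral_indicator hTm]
        apply integral_congr_ae
        refine Eventually.of_forall fun x => ?_
        dsimp only
        by_cases hxT : x ∈ T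
        · rw [indicator_of_mem hxT, indicator_of_mem hxT, ← hsg x]; ring
        · rw [indicator_of_notMem hxT, indicator_of_notMem hxT, mul_zero]
      rw [h3] at h2
      exact h2
    -- choose `τ` close to `r / m`
    set I := ∫ x in T, |g' x| ∂μ with hI
    have hI0 : 0 < I := lt_of_le_of_lt (by positivity) hIT
    have hτ1 := hfτ (c / I) (by positivity) (by
      rw [div_mul_eq_mul_div, div_lt_iff₀ hI0]
      rw [div_mul_eq_mul_div, div_lt_iff₀ hr0] at hIT
      linarith)
    rw [div_mul_cancel₀ _ hI0.ne'] at hτ1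
    exact lt_irrefl _ hτ1
  -- normalise and clamp
  let g : α → ℝ := fun x => max (-1) (min 1 ((r / c) * g' x))
  have hgae : ∀ᵐ x ∂μ, g x = (r / c) * g' x := by
    filter_upwards [hbound] with x hx
    have h1 : |r / c * g' x| ≤ 1 := by
      rw [abs_mul, abs_of_pos (show 0 < r / c by positivity)]
      calc r / c * |g' x| ≤ r / c * (c / r) := mul_le_mul_of_nonneg_left hx (by positivity)
        _ = 1 := by field_simp
    simp only [g]
    rw [min_eq_right (abs_le.1 h1).2, max_eq_right (abs_le.1 h1).1]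
  have hgint : ∀ H : α → ℝ, ∫ x, g x * H x ∂μ = (r / c) * ∫ x, g' x * H x ∂μ := by
    intro H
    rw [← integral_const_mul]
    apply integral_congr_ae
    filter_upwards [hgae] with x hx
    rw [hx]; ring
  refine ⟨g, measurable_const.max (measurable_const.min (hg'm.const_mul _)), ?_, ?_, ?_⟩
  · intro x
    simp only [g]
    rw [abs_le]
    exact ⟨le_max_left _ _, max_le (by norm_num) (min_le_left _ _)⟩
  · intro H hH
    rw [hgint]
    exact mul_nonpos_of_nonneg_of_nonpos (by positivity) (hH0 H hH)
  · rw [hgint]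
    calc r = r / c * c := by field_simp
      _ ≤ _ := mul_le_mul_of_nonneg_left hFc (by positivity)

end MP04ae38
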