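import Pool.Agent.Lib.MP_04ae38_an.Flux
import Pool.Agent.Lib.MP_04ae38_an.Directed

/-!
# Small-step expansion of the flux
-/

open Set Function MeasureTheory ProbabilityTheory Filter Topology

namespace MP04ae38

variable {n : ℕ}

/-- directional derivative -/
noncomputable def dd (h : (Fin n → ℝ) → ℝ) (i : Fin n) (x : Fin n → ℝ) : ℝ :=
  fderiv ℝ h x (Pi.single i 1)

theorem abs_J_sub (s : ℝ) (hs0 : 0 ≤ s) (hs1 : s ≤ 1) (i : Fin n)
    (p : (Fin n → ℝ) × (Fin n → ℝ)) : |J s p i - p.1 i| ≤ s * (|p.1 i| + |p.2 i|) := by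
  have h1 : J s p i - p.1 i = -((1 - √(1 - s ^ 2)) * p.1 i) + s * p.2 i := by
    simp only [J, jump]; ring
  have h2 : 0 ≤ 1 - √(1 - s ^ 2) := by
    have : √(1 - s ^ 2) ≤ 1 := by rw [Real.sqrt_le_one]; nlinarith
    linarith
  have h3 : 1 - √(1 - s ^ 2) ≤ s := by
    have := one_sub_sqrt_le s hs0 hs1
    nlinarith
  rw [h1]
  calc |-((1 - √(1 - s ^ 2)) * p.1 i) + s * p.2 i| ≤ |-((1 - √(1 - s ^ 2)) * p.1 i)| +
        |s * p.2 i| := abs_add_le _ _
    _ = (1 - √(1 - s ^ 2)) * |p.1 i| + s * |p.2 i| := by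
      rw [abs_neg, abs_mul, abs_mul, abs_of_nonneg h2, abs_of_nonneg hs0]
    _ ≤ s * |p.1 i| + s * |p.2 i| := by gcongr
    _ = _ := by ring

theorem abs_W_sub_W (h : (Fin n → ℝ) → ℝ) (K : ℝ) (hK : 0 ≤ K)
    (hh : ∀ p q, |h p - h q| ≤ K * ‖p - q‖) (l : List (Fin n)) (hl : l.Nodup) (i : Fin n)
    (hi : i ∉ l) (x x' : Fin n → ℝ) (a : ℝ) :
    |W h l x x' - W h l (update x i a) x'| ≤ K * |a - x i| := by
  have hnorm : ∀ p q : Fin n → ℝ, (∀ j ∈ l, p j = q j) → (∀ j, j ∉ l → p j = x j ∧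
      q j = update x i a j) → ‖p - q‖ ≤ |a - x i| := by
    intro p q h1 h2
    rw [pi_norm_le_iff_of_nonneg (abs_nonneg _)]
    intro j
    by_cases hj : j ∈ l
    · simp [h1 j hj]
    · have := h2 j hj
      rw [Pi.sub_apply, this.1, this.2]
      by_cases hji : j = i
      · subst hji
        rw [update_self, Real.norm_eq_abs, abs_sub_comm]
      · rw [update_of_ne hji]; simp
  have e : ∀ j ∈ l, x j = update x i a j := by
    intro j hj
    have : j ≠ i := fun h => hi (h ▸ hj)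
    rw [update_of_ne this]
  rw [abs_le]
  constructor
  · have := W_sync h h (K * |a - x i|) x' l hl (update x i a) x (fun j hj => (e j hj).symm) (by
      intro p q h1 h2
      have h3 := hnorm q p (fun j hj => (h1 j hj).1.symm) (fun j hj => ⟨(h2 j hj).2, (h2 j hj).1⟩)
      rw [norm_sub_rev] at h3
      exact (le_abs_self _).trans ((hh p q).trans (mul_le_mul_of_nonneg_left h3 hK)))
    linarith
  · exact W_sync h h (K * |a - x i|) x' l hl x (update x i a) e (by
      intro p q h1 h2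
      have h3 := hnorm p q (fun j hj => (h1 j hj).1) (fun j hj => ⟨(h2 j hj).1, (h2 j hj).2⟩)
      exact (le_abs_self _).trans ((hh p q).trans (mul_le_mul_of_nonneg_left h3 hK)))

/-- the rescaled displacement -/
noncomputable def zz (s : ℝ) (p : (Fin n → ℝ) × (Fin n → ℝ)) : Fin n → ℝ :=
  fun j => (√(1 - s ^ 2) - 1) / s * p.1 j + p.2 j

theorem J_eq_zz (s : ℝ) (hs0 : 0 < s) (p : (Fin n → ℝ) × (Fin n → ℝ)) :
    J s p = p.1 + s • zz s p := by
  funext j
  simp only [J, jump, zz, Pi.add_apply, Pi.smul_apply, smul_eq_mul]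
  field_simp
  ring

theorem zz_tendsto (s : ℕ → ℝ) (hs0 : ∀ k, 0 < s k) (hs1 : ∀ k, s k ≤ 1)
    (hs : Tendsto s atTop (𝓝 0)) (p : (Fin n → ℝ) × (Fin n → ℝ)) :
    Tendsto (fun k => zz (s k) p) atTop (𝓝 p.2) := by
  rw [tendsto_pi_nhds]
  intro j
  have h1 : Tendsto (fun k => (√(1 - s k ^ 2) - 1) / s k) atTop (𝓝 0) := by
    have h2 : ∀ k, |(√(1 - s k ^ 2) - 1) / s k| ≤ s k := by
      intro k
      have h3 := one_sub_sqrt_le (s k) (hs0 k).le (hs1 k)
      have h4 : √(1 - s k ^ 2) ≤ 1 := by rw [Real.sqrt_le_one]; nlinarith [sq_nonneg (s k)]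
      rw [abs_div, abs_of_pos (hs0 k), div_le_iff₀ (hs0 k), abs_of_nonpos (by linarith)]
      nlinarith
    exact squeeze_zero_norm h2 hs
  have h2 := (h1.mul_const (p.1 j)).add_const (p.2 j)
  simpa [zz] using h2

theorem AB_tendsto (h : (Fin n → ℝ) → ℝ) (s : ℕ → ℝ) (hs0 : ∀ k, 0 < s k) (hs1 : ∀ k, s k ≤ 1)
    (hs : Tendsto s atTop (𝓝 0)) (l : List (Fin n)) (hl : l.Nodup) (i : Fin n) (hi : i ∉ l)
    (p : (Fin n → ℝ) × (Fin n → ℝ)) (hd : DifferentiableAt ℝ h p.1) :
    Tendsto (fun k => (W h l p.1 (J (s k) p) - W h l (update p.1 i (J (s k) p i)) (J (s k) p))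
      / s k) atTop (𝓝 (-(p.2 i * dd h i p.1))) := by
  have hz := zz_tendsto s hs0 hs1 hs p
  -- continuous convergence of difference quotients
  have hcc : ∀ (wk : ℕ → (Fin n → ℝ)) (w : Fin n → ℝ), Tendsto wk atTop (𝓝 w) →
      Tendsto (fun k => (h (p.1 + s k • wk k) - h p.1) / s k) atTop
        (𝓝 ((fderiv ℝ h p.1 : (Fin n → ℝ) →ₗ[ℝ] ℝ) w)) := by
    intro wk w hw
    have h1 : Tendsto (fun k => (s k)⁻¹ • (s k • wk k)) atTop (𝓝 w) := by
      refine hw.congr (fun k => ?_)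
      rw [smul_smul, inv_mul_cancel₀ (hs0 k).ne', one_smul]
    have h2 : Tendsto (fun k => s k • wk k) atTop (𝓝 0) := by
      simpa using hs.smul hw
    have h3 := (hasFDerivWithinAt_univ.2 hd.hasFDerivAt).lim h2
      (Eventually.of_forall fun _ => mem_univ _) h1
    refine h3.congr (fun k => ?_)
    rw [smul_eq_mul]; field_simp
  have hA := W_tendsto (fun k w => (h (p.1 + s k • w) - h p.1) / s k)
    (fun w => (fderiv ℝ h p.1 : (Fin n → ℝ) →ₗ[ℝ] ℝ) w) hcc (fun k => zz (s k) p) p.2 hz l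
    (fun _ => 0) 0 tendsto_const_nhds
  have hzi : Tendsto (fun k => zz (s k) p i) atTop (𝓝 (p.2 i)) := (tendsto_pi_nhds.1 hz) i
  have hB := W_tendsto (fun k w => (h (p.1 + s k • w) - h p.1) / s k)
    (fun w => (fderiv ℝ h p.1 : (Fin n → ℝ) →ₗ[ℝ] ℝ) w) hcc (fun k => zz (s k) p) p.2 hz l
    (fun k => update 0 i (zz (s k) p i)) (update 0 i (p.2 i))
    ((tendsto_const_nhds (x := (0 : Fin n → ℝ))).update i hzi)
  have hAB := hA.sub hB
  have hlin := W_linear_shift (fderiv ℝ h p.1 : (Fin n → ℝ) →ₗ[ℝ] ℝ) l hl i hi p.2 (p.2 i)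
  have e : W (fun w => (fderiv ℝ h p.1 : (Fin n → ℝ) →ₗ[ℝ] ℝ) w) l 0 p.2 -
      W (fun w => (fderiv ℝ h p.1 : (Fin n → ℝ) →ₗ[ℝ] ℝ) w) l (update 0 i (p.2 i)) p.2 =
      -(p.2 i * dd h i p.1) := hlin
  rw [e] at hAB
  refine hAB.congr (fun k => ?_)
  rw [W_affine h p.1 (s k) (hs0 k) (h p.1) l, W_affine h p.1 (s k) (hs0 k) (h p.1) l,
    ← J_eq_zz (s k) (hs0 k) p, smul_zero, add_zero]
  have e2 : p.1 + s k • update (0 : Fin n → ℝ) i (zz (s k) p i) =
      update p.1 i (J (s k) p i) := by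
    rw [J_eq_zz (s k) (hs0 k) p]
    funext j
    by_cases hj : j = i
    · subst hj; simp
    · simp [update_of_ne hj]
  rw [e2]
  ring

theorem integrable_coord_sq (i : Fin n) :
    Integrable (fun p : (Fin n → ℝ) × (Fin n → ℝ) => (|p.1 i| + |p.2 i|) ^ 2) (PP n) := by
  have h1 : MeasurePreserving (Prod.fst : (Fin n → ℝ) × (Fin n → ℝ) → _) (PP n) (γ n) := by
    unfold PP; exact measurePreserving_fst
  have h2 : MeasurePreserving (Prod.snd : (Fin n → ℝ) × (Fin n → ℝ) → _) (PP n) (γ n) := by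
    unfold PP; exact measurePreserving_snd
  have i1 := h1.integrable_comp_of_integrable (integrable_norm_pow (n := n) 2)
  have i2 := h2.integrable_comp_of_integrable (integrable_norm_pow (n := n) 2)
  have m1 : Measurable (fun p : (Fin n → ℝ) × (Fin n → ℝ) => (|p.1 i| + |p.2 i|) ^ 2) := by
    fun_prop
  refine ((i1.const_mul 2).add (i2.const_mul 2)).mono' m1.aestronglyMeasurable
    (Eventually.of_forall fun p => ?_)
  simp only [Pi.add_apply, comp_apply]
  rw [Real.norm_eq_abs, abs_of_nonneg (sq_nonneg _)]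
  have a1 : |p.1 i| ≤ ‖p.1‖ := norm_le_pi_norm p.1 i
  have a2 : |p.2 i| ≤ ‖p.2‖ := norm_le_pi_norm p.2 i
  have b1 : |p.1 i| ^ 2 ≤ ‖p.1‖ ^ 2 := pow_le_pow_left₀ (abs_nonneg _) a1 2
  have b2 : |p.2 i| ^ 2 ≤ ‖p.2‖ ^ 2 := pow_le_pow_left₀ (abs_nonneg _) a2 2
  nlinarith [sq_nonneg (|p.1 i| - |p.2 i|)]

theorem ae_fst {q : (Fin n → ℝ) → Prop} (h : ∀ᵐ x ∂(γ n), q x) : ∀ᵐ p ∂(PP n), q p.1 := by
  have h1 : MeasurePreserving (Prod.fst : (Fin n → ℝ) × (Fin n → ℝ) → _) (PP n) (γ n) := by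
    unfold PP; exact measurePreserving_fst
  exact h1.quasiMeasurePreserving.ae h

theorem ae_diff (h : (Fin n → ℝ) → ℝ) (K : ℝ) (hK : 0 ≤ K)
    (hh : ∀ p q, |h p - h q| ≤ K * ‖p - q‖) : ∀ᵐ x ∂(γ n), DifferentiableAt ℝ h x := by
  have hl : LipschitzWith ⟨K, hK⟩ h := by
    apply LipschitzWith.of_dist_le_mul
    intro p q
    rw [Real.dist_eq, dist_eq_norm]
    exact hh p q
  exact (γ_ac n).ae_le hl.ae_differentiableAt

theorem integral_half (i : Fin n) :
    ∫ y : Fin n → ℝ, (if 0 < y i then 2 * y i ^ 2 else 0) ∂(γ n) = 1 := by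
  have h1 : MeasurePreserving (fun y : Fin n → ℝ => y i) (γ n) (gaussianReal 0 1) := by
    unfold γ; exact measurePreserving_eval (fun _ => gaussianReal 0 1) i
  have m1 : Measurable (fun g : ℝ => if 0 < g then 2 * g ^ 2 else 0) :=
    Measurable.ite (measurableSet_lt measurable_const measurable_id) (by fun_prop) measurable_const
  have e1 : ∫ y : Fin n → ℝ, (if 0 < y i then 2 * y i ^ 2 else 0) ∂(γ n) =
      ∫ g : ℝ, (if 0 < g then 2 * g ^ 2 else 0) ∂(gaussianReal 0 1) := by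
    rw [← h1.map_eq, integral_map h1.measurable.aemeasurable m1.aestronglyMeasurable]
  rw [e1]
  have hneg : MeasurePreserving (fun x : ℝ => -x) (gaussianReal 0 1) (gaussianReal 0 1) := by
    refine ⟨by fun_prop, ?_⟩
    rw [gaussianReal_map_neg]; simp
  have iI : Integrable (fun g : ℝ => if 0 < g then 2 * g ^ 2 else 0) (gaussianReal 0 1) := by
    refine ((int_pow 2).const_mul 2).mono' m1.aestronglyMeasurable
      (Eventually.of_forall fun g => ?_)
    rw [Real.norm_eq_abs]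
    split_ifs
    · rw [abs_of_nonneg (by positivity)]
    · rw [abs_zero]; positivity
  have iI' : Integrable (fun g : ℝ => if 0 < -g then 2 * (-g) ^ 2 else 0) (gaussianReal 0 1) :=
    hneg.integrable_comp_of_integrable iI
  have e2 : ∫ g : ℝ, (if 0 < -g then 2 * (-g) ^ 2 else 0) ∂(gaussianReal 0 1) =
      ∫ g : ℝ, (if 0 < g then 2 * g ^ 2 else 0) ∂(gaussianReal 0 1) := by
    conv_rhs => rw [← hneg.map_eq]
    rw [integral_map hneg.measurable.aemeasurable m1.aestronglyMeasurable]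
  have e3 : ∫ g : ℝ, ((if 0 < g then 2 * g ^ 2 else 0) + (if 0 < -g then 2 * (-g) ^ 2 else 0))
      ∂(gaussianReal 0 1) = ∫ g : ℝ, 2 * g ^ 2 ∂(gaussianReal 0 1) := by
    apply integral_congr_ae
    refine Eventually.of_forall fun g => ?_
    dsimp only
    rcases lt_trichotomy g 0 with h | h | h
    · rw [if_neg (by linarith), if_pos (by linarith)]; ring
    · subst h; simp
    · rw [if_pos h, if_neg (by linarith)]; ring
  rw [integral_add iI iI', e2, integral_const_mul, mom2] at e3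
  linarith

theorem measurable_dd (h : (Fin n → ℝ) → ℝ) (i : Fin n) : Measurable (dd h i) := by
  unfold dd
  exact measurable_fderiv_apply_const ℝ h _

theorem abs_dd_le (h : (Fin n → ℝ) → ℝ) (K : ℝ) (hK : 0 ≤ K)
    (hh : ∀ p q, |h p - h q| ≤ K * ‖p - q‖) (i : Fin n) (x : Fin n → ℝ) : |dd h i x| ≤ K := by
  have hl : LipschitzWith ⟨K, hK⟩ h := by
    apply LipschitzWith.of_dist_le_mul
    intro p q
    rw [Real.dist_eq, dist_eq_norm]
    exact hh p q
  have h1 : ‖fderiv ℝ h x‖ ≤ K := norm_fderiv_le_of_lipschitz ℝ hl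
  unfold dd
  calc |fderiv ℝ h x (Pi.single i 1)| ≤ ‖fderiv ℝ h x‖ * ‖(Pi.single i 1 : Fin n → ℝ)‖ :=
        (fderiv ℝ h x).le_opNorm _
    _ ≤ K * 1 := by
      apply mul_le_mul h1 _ (norm_nonneg _) hK
      rw [pi_norm_le_iff_of_nonneg zero_le_one]
      intro j
      by_cases hj : j = i
      · subst hj; simp
      · simp [Pi.single_eq_of_ne hj]
    _ = K := mul_one K

/-- Expansion of the flux against a fixed test function. -/
theorem expand_B (h ψ : (Fin n → ℝ) → ℝ) (C D Kh Kψ : ℝ) (hKh : 0 ≤ Kh) (hKψ : 0 ≤ Kψ)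
    (mh : Measurable h) (mψ : Measurable ψ) (hC : ∀ p, |h p| ≤ C) (hD : ∀ p, |ψ p| ≤ D)
    (hh : ∀ p q, |h p - h q| ≤ Kh * ‖p - q‖) (hψ : ∀ p q, |ψ p - ψ q| ≤ Kψ * ‖p - q‖)
    (s : ℕ → ℝ) (hs0 : ∀ k, 0 < s k) (hs1 : ∀ k, s k ≤ 1)
    (hs : Tendsto s atTop (𝓝 0)) (l : List (Fin n)) (hl : l.Nodup) (i : Fin n) (hi : i ∉ l) :
    Tendsto (fun k => (2 / s k ^ 2) * ∫ p, ψ p.1 * (W h l p.1 (J (s k) p) -
      W h (i :: l) p.1 (J (s k) p)) ∂(PP n)) atTop
      (𝓝 (∫ x, (-dd ψ i x) * max (-dd h i x) 0 ∂(γ n))) := by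
  -- the limit integral on the product space
  have elim : ∫ x, (-dd ψ i x) * max (-dd h i x) 0 ∂(γ n) =
      ∫ p : (Fin n → ℝ) × (Fin n → ℝ), ((-dd ψ i p.1) * max (-dd h i p.1) 0) *
        (if 0 < p.2 i then 2 * p.2 i ^ 2 else 0) ∂(PP n) := by
    unfold PP
    rw [integral_prod_mul (fun x => (-dd ψ i x) * max (-dd h i x) 0)
      (fun y : Fin n → ℝ => if 0 < y i then 2 * y i ^ 2 else 0), integral_half, mul_one]
  rw [elim]
  have efl : ∀ k, (2 / s k ^ 2) * ∫ p, ψ p.1 * (W h l p.1 (J (s k) p) -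
      W h (i :: l) p.1 (J (s k) p)) ∂(PP n) =
      ∫ p, (2 / s k ^ 2) * (if p.1 i < J (s k) p i then (ψ p.1 - ψ (update p.1 i (J (s k) p i))) *
      max (W h l p.1 (J (s k) p) - W h l (update p.1 i (J (s k) p i)) (J (s k) p)) 0 else 0)
        ∂(PP n) := by
    intro k
    rw [flux (s k) (hs0 k).le (hs1 k) h mh C hC ψ mψ D hD l i hi, integral_const_mul]
  simp_rw [efl]
  have mint : ∀ k, Measurable fun p : (Fin n → ℝ) × (Fin n → ℝ) =>
      (2 / s k ^ 2) * (if p.1 i < J (s k) p i then (ψ p.1 - ψ (update p.1 i (J (s k) p i))) *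
      max (W h l p.1 (J (s k) p) - W h l (update p.1 i (J (s k) p i)) (J (s k) p)) 0 else 0) := by
    intro k
    apply Measurable.const_mul
    apply Measurable.ite (measurableSet_up (s k) i) _ measurable_const
    exact ((mψ.comp measurable_fst).sub (mψ.comp (measurable_upd (s k) i))).mul
      (((measurable_WA (s k) h mh l).sub (measurable_WB (s k) h mh l i)).max measurable_const)
  have bA : ∀ k (p : (Fin n → ℝ) × (Fin n → ℝ)), |ψ p.1 - ψ (update p.1 i (J (s k) p i))| ≤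
      Kψ * (s k * (|p.1 i| + |p.2 i|)) := by
    intro k p
    have h1 := abs_W_sub_W ψ Kψ hKψ hψ [] List.nodup_nil i (by simp) p.1 p.1 (J (s k) p i)
    exact h1.trans (mul_le_mul_of_nonneg_left (abs_J_sub (s k) (hs0 k).le (hs1 k) i p) hKψ)
  have bB : ∀ k (p : (Fin n → ℝ) × (Fin n → ℝ)), |W h l p.1 (J (s k) p) -
      W h l (update p.1 i (J (s k) p i)) (J (s k) p)| ≤ Kh * (s k * (|p.1 i| + |p.2 i|)) := by
    intro k p
    have h1 := abs_W_sub_W h Kh hKh hh l hl i hi p.1 (J (s k) p) (J (s k) p i)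
    exact h1.trans (mul_le_mul_of_nonneg_left (abs_J_sub (s k) (hs0 k).le (hs1 k) i p) hKh)
  apply tendsto_integral_of_dominated_convergence
    (fun p => 2 * Kψ * Kh * (|p.1 i| + |p.2 i|) ^ 2)
  · intro k; exact (mint k).aestronglyMeasurable
  · exact (integrable_coord_sq i).const_mul _
  · intro k
    refine Eventually.of_forall fun p => ?_
    have hsk := hs0 k
    rw [norm_mul, Real.norm_eq_abs, abs_of_pos (show 0 < 2 / s k ^ 2 by positivity)]
    split_ifs
    · rw [norm_mul, Real.norm_eq_abs, Real.norm_eq_abs]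
      have h1 : |max (W h l p.1 (J (s k) p) -
        W h l (update p.1 i (J (s k) p i)) (J (s k) p)) 0| ≤ Kh * (s k * (|p.1 i| + |p.2 i|)) := by
        rw [abs_of_nonneg (le_max_right _ _)]
        exact max_le ((le_abs_self _).trans (bB k p)) (by positivity)
      calc 2 / s k ^ 2 * (|ψ p.1 - ψ (update p.1 i (J (s k) p i))| * _) ≤
          2 / s k ^ 2 * ((Kψ * (s k * (|p.1 i| + |p.2 i|))) * (Kh * (s k * (|p.1 i| + |p.2 i|)))) := by
            apply mul_le_mul_of_nonneg_left _ (by positivity)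
            exact mul_le_mul (bA k p) h1 (abs_nonneg _) (by positivity)
        _ = _ := by field_simp
    · rw [norm_zero, mul_zero]; positivity
  · filter_upwards [ae_fst (ae_diff h Kh hKh hh), ae_fst (ae_diff ψ Kψ hKψ hψ)] with p hp1 hp2
    have t1 := AB_tendsto h s hs0 hs1 hs l hl i hi p hp1
    have t2 := AB_tendsto ψ s hs0 hs1 hs [] List.nodup_nil i (by simp) p hp2
    simp only [W] at t2
    have t3 := t2.mul (t1.max (tendsto_const_nhds (x := (0 : ℝ))))
    have hz : Tendsto (fun k => zz (s k) p i) atTop (𝓝 (p.2 i)) :=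
      (tendsto_pi_nhds.1 (zz_tendsto s hs0 hs1 hs p)) i
    have hJz : ∀ k, p.1 i < J (s k) p i ↔ 0 < zz (s k) p i := by
      intro k
      rw [J_eq_zz (s k) (hs0 k) p]
      simp [hs0 k]
    have e1 : ∀ k, (2 / s k ^ 2) * ((ψ p.1 - ψ (update p.1 i (J (s k) p i))) *
      max (W h l p.1 (J (s k) p) - W h l (update p.1 i (J (s k) p i)) (J (s k) p)) 0) =
      2 * ((ψ p.1 - ψ (update p.1 i (J (s k) p i))) / s k * max ((W h l p.1 (J (s k) p) -
        W h l (update p.1 i (J (s k) p i)) (J (s k) p)) / s k) 0) := by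
      intro k
      have hsk := hs0 k
      rw [show max ((W h l p.1 (J (s k) p) -
        W h l (update p.1 i (J (s k) p i)) (J (s k) p)) / s k) 0 =
        max (W h l p.1 (J (s k) p) -
        W h l (update p.1 i (J (s k) p i)) (J (s k) p)) 0 / s k by
          rw [← max_div_div_right hsk.le, zero_div]]
      field_simp
    rcases lt_trichotomy (p.2 i) 0 with hy | hy | hy
    · rw [if_neg (not_lt.2 hy.le), mul_zero]
      refine tendsto_const_nhds.congr' ?_
      filter_upwards [hz.eventually_lt tendsto_const_nhds hy] with k hk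
      rw [if_neg (fun h' => (not_lt.2 hk.le) ((hJz k).1 h')), mul_zero]
    · rw [if_neg (by rw [hy]; exact lt_irrefl _), mul_zero]
      have t4 : Tendsto (fun k => 2 * ((ψ p.1 - ψ (update p.1 i (J (s k) p i))) / s k *
        max ((W h l p.1 (J (s k) p) -
        W h l (update p.1 i (J (s k) p i)) (J (s k) p)) / s k) 0)) atTop (𝓝 0) := by
        have := t3.const_mul 2
        rw [hy] at this
        simpa using this
      apply squeeze_zero_norm (a := fun k => ‖2 * ((ψ p.1 - ψ (update p.1 i (J (s k) p i))) / s k *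
        max ((W h l p.1 (J (s k) p) -
        W h l (update p.1 i (J (s k) p i)) (J (s k) p)) / s k) 0)‖)
      · intro k
        split_ifs
        · rw [e1]
        · rw [mul_zero, norm_zero]; exact norm_nonneg _
      · simpa using t4.norm
    · rw [if_pos hy]
      have t4 := t3.const_mul 2
      have e2 : 2 * (-(p.2 i * dd ψ i p.1) * max (-(p.2 i * dd h i p.1)) 0) =
          -dd ψ i p.1 * max (-dd h i p.1) 0 * (2 * p.2 i ^ 2) := by
        have : max (-(p.2 i * dd h i p.1)) 0 = p.2 i * max (-dd h i p.1) 0 := by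
          rw [mul_max_of_nonneg _ _ hy.le, mul_zero]
          congr 1; ring
        rw [this]; ring
      rw [e2] at t4
      refine t4.congr' ?_
      filter_upwards [tendsto_const_nhds.eventually_lt hz hy] with k hk
      rw [if_pos ((hJz k).2 hk), e1]

end MP04ae38
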