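import Mathlib

/-!
# Approximation of bounded measurable functions by Lipschitz functions
-/

open Set Function MeasureTheory Filter Topology

namespace MP04ae38

variable {E : Type*} [NormedAddCommGroup E]

/-- inf-convolution -/
noncomputable def ic (g : E → ℝ) (m : ℝ) (x : E) : ℝ := ⨅ y, (g y + m * ‖x - y‖)

section
variable (g : E → ℝ) (K : ℝ) (hg : ∀ x, |g x| ≤ K) (m : ℝ) (hm : 0 ≤ m)

include hg hm in
theorem ic_bdd (x : E) : BddBelow (range fun y => g y + m * ‖x - y‖) := by
  refine ⟨-K, ?_⟩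
  rintro _ ⟨y, rfl⟩
  have h1 := (abs_le.1 (hg y)).1
  have h2 : 0 ≤ m * ‖x - y‖ := by positivity
  simp only
  linarith

include hg hm in
theorem ic_le (x : E) : ic g m x ≤ g x := by
  have := ciInf_le (ic_bdd g K hg m hm x) x
  simpa [ic] using this

include hg hm in
theorem le_ic (x : E) : -K ≤ ic g m x := by
  apply le_ciInf
  intro y
  have h1 := (abs_le.1 (hg y)).1
  have h2 : 0 ≤ m * ‖x - y‖ := by positivity
  linarith

include hg hm in
theorem abs_ic_le (x : E) : |ic g m x| ≤ K := by
  rw [abs_le]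
  exact ⟨le_ic g K hg m hm x, (ic_le g K hg m hm x).trans (abs_le.1 (hg x)).2⟩

include hg hm in
theorem ic_lip (x y : E) : |ic g m x - ic g m y| ≤ m * ‖x - y‖ := by
  have key : ∀ x y : E, ic g m x ≤ ic g m y + m * ‖x - y‖ := by
    intro x y
    have : ic g m x - m * ‖x - y‖ ≤ ic g m y := by
      apply le_ciInf
      intro z
      have h1 := ciInf_le (ic_bdd g K hg m hm x) z
      have h2 : ‖x - z‖ ≤ ‖x - y‖ + ‖y - z‖ := norm_sub_le_norm_sub_add_norm_sub x y z
      have h3 := mul_le_mul_of_nonneg_left h2 hm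
      have h4 : ic g m x ≤ g z + m * ‖x - z‖ := h1
      linarith
    linarith
  rw [abs_le]
  constructor
  · have := key y x
    rw [norm_sub_rev] at this
    linarith
  · have := key x y
    linarith

end

theorem ic_tendsto (g : E → ℝ) (K : ℝ) (hg : ∀ x, |g x| ≤ K) (x : E) (hc : ContinuousAt g x) :
    Tendsto (fun m : ℕ => ic g m x) atTop (𝓝 (g x)) := by
  rw [Metric.tendsto_atTop]
  intro ε hε
  obtain ⟨δ, hδ, h⟩ := Metric.continuousAt_iff.1 hc (ε / 2) (by positivity)
  obtain ⟨N, hN⟩ := exists_nat_gt (2 * K / δ)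
  refine ⟨N, fun m hm => ?_⟩
  have hm' : 2 * K / δ < m := hN.trans_le (by exact_mod_cast hm)
  rw [Real.dist_eq, abs_lt]
  constructor
  · have : g x - ε / 2 ≤ ic g m x := by
      apply le_ciInf
      intro y
      by_cases hy : dist y x < δ
      · have h1 := h hy
        rw [Real.dist_eq, abs_lt] at h1
        have h2 : 0 ≤ (m : ℝ) * ‖x - y‖ := by positivity
        linarith [h1.1]
      · push Not at hy
        rw [dist_eq_norm, norm_sub_rev] at hy
        have h1 := (abs_le.1 (hg y)).1
        have h2 := (abs_le.1 (hg x)).2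
        have h3 : 2 * K < m * δ := by
          rwa [div_lt_iff₀ hδ] at hm'
        have h4 : (m : ℝ) * δ ≤ m * ‖x - y‖ := mul_le_mul_of_nonneg_left hy (Nat.cast_nonneg m)
        linarith
    linarith
  · have := ic_le g K hg m (Nat.cast_nonneg m) x
    linarith

variable [MeasurableSpace E] [BorelSpace E]

theorem clamp_lip (K a b : ℝ) : |max (-K) (min K a) - max (-K) (min K b)| ≤ |a - b| := by
  calc |max (-K) (min K a) - max (-K) (min K b)| ≤ |min K a - min K b| := by
        have := abs_max_sub_max_le_abs (min K a) (min K b) (-K)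
        rwa [max_comm (-K), max_comm (-K)]
    _ ≤ |a - b| := by
        have := abs_min_sub_min_le_max K a K b
        simpa using this

theorem lip_approx (ν : Measure E) [IsFiniteMeasure ν] (ζ : E → ℝ)
    (hm : Measurable ζ) (K : ℝ) (hK : 0 ≤ K) (hζ : ∀ x, |ζ x| ≤ K) (η : ℝ) (hη : 0 < η) :
    ∃ (f : E → ℝ) (Λ : ℝ), 0 ≤ Λ ∧ (∀ p q, |f p - f q| ≤ Λ * ‖p - q‖) ∧ (∀ x, |f x| ≤ K) ∧
      ∫ x, |ζ x - f x| ∂ν ≤ η := by
  have hint : Integrable ζ ν := Integrable.of_bound hm.aestronglyMeasurable K
    (Eventually.of_forall hζ)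
  obtain ⟨g, hg1, hg2⟩ := hint.exists_boundedContinuous_integral_sub_le (half_pos hη)
  let g' : E → ℝ := fun x => max (-K) (min K (g x))
  have hg'c : Continuous g' := by fun_prop
  have hg'b : ∀ x, |g' x| ≤ K := by
    intro x
    rw [abs_le]
    exact ⟨le_max_left _ _, max_le (by linarith) (min_le_left _ _)⟩
  have hζ' : ∀ x, ζ x = max (-K) (min K (ζ x)) := by
    intro x
    rw [min_eq_right (abs_le.1 (hζ x)).2, max_eq_right (abs_le.1 (hζ x)).1]
  have hdist : ∀ x, |ζ x - g' x| ≤ |ζ x - g x| := by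
    intro x
    conv_lhs => rw [hζ' x]
    exact clamp_lip K _ _
  have hlim : Tendsto (fun m : ℕ => ∫ x, |g' x - ic g' m x| ∂ν) atTop (𝓝 0) := by
    have h0 : ∫ x : E, |g' x - g' x| ∂ν = 0 := by simp
    rw [← h0]
    apply tendsto_integral_of_dominated_convergence (fun _ => 2 * K)
    · intro m
      have : Continuous (ic g' m) := by
        have hl : LipschitzWith ⟨m, Nat.cast_nonneg m⟩ (ic g' m) := by
          apply LipschitzWith.of_dist_le_mul
          intro p q
          rw [Real.dist_eq, dist_eq_norm]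
          exact ic_lip g' K hg'b m (Nat.cast_nonneg m) p q
        exact hl.continuous
      exact ((hg'c.sub this).abs).aestronglyMeasurable
    · exact integrable_const _
    · intro m
      refine Eventually.of_forall fun x => ?_
      rw [Real.norm_eq_abs, abs_abs]
      have h1 := abs_le.1 (hg'b x)
      have h2 := abs_le.1 (abs_ic_le g' K hg'b m (Nat.cast_nonneg m) x)
      rw [abs_le]; constructor
      · linarith [h1.1, h2.2]
      · linarith [h1.2, h2.1]
    · refine Eventually.of_forall fun x => ?_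
      exact (tendsto_const_nhds.sub (ic_tendsto g' K hg'b x hg'c.continuousAt)).abs
  obtain ⟨m, hm'⟩ := (hlim.eventually (gt_mem_nhds (half_pos hη))).exists
  refine ⟨ic g' m, m, Nat.cast_nonneg m, ic_lip g' K hg'b m (Nat.cast_nonneg m),
    abs_ic_le g' K hg'b m (Nat.cast_nonneg m), ?_⟩
  have hmic : Measurable (ic g' m) := by
    have hl : LipschitzWith ⟨m, Nat.cast_nonneg m⟩ (ic g' m) := by
      apply LipschitzWith.of_dist_le_mul
      intro p q
      rw [Real.dist_eq, dist_eq_norm]
      exact ic_lip g' K hg'b m (Nat.cast_nonneg m) p q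
    exact hl.continuous.measurable
  have i1 : Integrable (fun x => |ζ x - g x|) ν := (hint.sub hg2).abs
  have i2 : Integrable (fun x => |g' x - ic g' m x|) ν := by
    apply Integrable.of_bound ((hg'c.measurable.sub hmic).abs).aestronglyMeasurable (2 * K)
    refine Eventually.of_forall fun x => ?_
    rw [Real.norm_eq_abs, abs_abs]
    have h1 := abs_le.1 (hg'b x)
    have h2 := abs_le.1 (abs_ic_le g' K hg'b m (Nat.cast_nonneg m) x)
    rw [Pi.sub_apply, abs_le]; constructor
    · linarith [h1.1, h2.2]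
    · linarith [h1.2, h2.1]
  have i3 : Integrable (fun x => |ζ x - ic g' m x|) ν := by
    apply Integrable.of_bound ((hm.sub hmic).abs).aestronglyMeasurable (2 * K)
    refine Eventually.of_forall fun x => ?_
    rw [Real.norm_eq_abs, abs_abs]
    have h1 := abs_le.1 (hζ x)
    have h2 := abs_le.1 (abs_ic_le g' K hg'b m (Nat.cast_nonneg m) x)
    rw [Pi.sub_apply, abs_le]; constructor
    · linarith [h1.1, h2.2]
    · linarith [h1.2, h2.1]
  calc ∫ x, |ζ x - ic g' m x| ∂ν ≤ ∫ x, (|ζ x - g x| + |g' x - ic g' m x|) ∂ν := by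
        apply integral_mono i3 (i1.add i2)
        intro x
        calc |ζ x - ic g' m x| ≤ |ζ x - g' x| + |g' x - ic g' m x| := abs_sub_le _ _ _
          _ ≤ _ := add_le_add (hdist x) le_rfl
    _ = ∫ x, |ζ x - g x| ∂ν + ∫ x, |g' x - ic g' m x| ∂ν := integral_add i1 i2
    _ ≤ η / 2 + η / 2 := add_le_add hg1 hm'.le
    _ = η := by ring

end MP04ae38
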