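import Pool.Agent.Lib.MP_04ae38_an.Expand
import Pool.Agent.Lib.MP_04ae38_an.LipApprox

/-!
# The flux tested against a sequence tending to zero
-/

open Set Function MeasureTheory ProbabilityTheory Filter Topology

namespace MP04ae38

variable {n : ℕ}

theorem integrable_coord_four (i : Fin n) :
    Integrable (fun p : (Fin n → ℝ) × (Fin n → ℝ) => (|p.1 i| + |p.2 i|) ^ 4) (PP n) := by
  have h1 : MeasurePreserving (Prod.fst : (Fin n → ℝ) × (Fin n → ℝ) → _) (PP n) (γ n) := by
    unfold PP; exact measurePreserving_fst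
  have h2 : MeasurePreserving (Prod.snd : (Fin n → ℝ) × (Fin n → ℝ) → _) (PP n) (γ n) := by
    unfold PP; exact measurePreserving_snd
  have i1 := h1.integrable_comp_of_integrable (integrable_norm_pow (n := n) 4)
  have i2 := h2.integrable_comp_of_integrable (integrable_norm_pow (n := n) 4)
  have m1 : Measurable (fun p : (Fin n → ℝ) × (Fin n → ℝ) => (|p.1 i| + |p.2 i|) ^ 4) := by
    fun_prop
  refine ((i1.const_mul 8).add (i2.const_mul 8)).mono' m1.aestronglyMeasurable
    (Eventually.of_forall fun p => ?_)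
  simp only [Pi.add_apply, comp_apply]
  rw [Real.norm_eq_abs, abs_of_nonneg (by positivity)]
  have a1 : |p.1 i| ≤ ‖p.1‖ := norm_le_pi_norm p.1 i
  have a2 : |p.2 i| ≤ ‖p.2‖ := norm_le_pi_norm p.2 i
  have b1 : |p.1 i| ^ 4 ≤ ‖p.1‖ ^ 4 := pow_le_pow_left₀ (abs_nonneg _) a1 4
  have b2 : |p.2 i| ^ 4 ≤ ‖p.2‖ ^ 4 := pow_le_pow_left₀ (abs_nonneg _) a2 4
  have key : ∀ a b : ℝ, (a + b) ^ 4 ≤ 8 * a ^ 4 + 8 * b ^ 4 := by
    intro a b
    nlinarith [sq_nonneg (a - b), sq_nonneg (a + b), sq_nonneg (a ^ 2 - b ^ 2),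
      mul_nonneg (sq_nonneg (a - b)) (sq_nonneg (a + b)), sq_nonneg ((a - b) ^ 2),
      mul_nonneg (sq_nonneg (a-b)) (sq_nonneg a), mul_nonneg (sq_nonneg (a-b)) (sq_nonneg b)]
  linarith [key |p.1 i| |p.2 i|]

/-- Approximation of a bounded measurable function with a quadratic weight. -/
theorem lip_approx_w (i : Fin n) (ζ : (Fin n → ℝ) → ℝ) (hm : Measurable ζ) (K : ℝ) (hK : 0 ≤ K)
    (hζ : ∀ x, |ζ x| ≤ K) (η : ℝ) (hη : 0 < η) :
    ∃ (f : (Fin n → ℝ) → ℝ) (Λ : ℝ), 0 ≤ Λ ∧ (∀ p q, |f p - f q| ≤ Λ * ‖p - q‖) ∧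
      (∀ x, |f x| ≤ K) ∧
      ∫ p, (|p.1 i| + |p.2 i|) ^ 2 * |ζ p.1 - f p.1| ∂(PP n) ≤ η := by
  set M := ∫ p, (|p.1 i| + |p.2 i|) ^ 4 ∂(PP n) with hM
  have hM0 : 0 ≤ M := integral_nonneg (fun _ => by positivity)
  set e := η / (M + 1) with he
  have he0 : 0 < e := by positivity
  obtain ⟨f, Λ, hΛ, hf1, hf2, hf3⟩ := lip_approx (γ n) ζ hm K hK hζ (η * e / (2 * (K + 1)))
    (by positivity)
  refine ⟨f, Λ, hΛ, hf1, hf2, ?_⟩
  have hfm : Measurable f := by
    have hl : LipschitzWith ⟨Λ, hΛ⟩ f := by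
      apply LipschitzWith.of_dist_le_mul
      intro p q
      rw [Real.dist_eq, dist_eq_norm]
      exact hf1 p q
    exact hl.continuous.measurable
  have hb : ∀ x, |ζ x - f x| ≤ 2 * K := by
    intro x
    have h1 := abs_le.1 (hζ x)
    have h2 := abs_le.1 (hf2 x)
    rw [abs_le]; constructor
    · linarith [h1.1, h2.2]
    · linarith [h1.2, h2.1]
  have hmd : Measurable fun p : (Fin n → ℝ) × (Fin n → ℝ) => |ζ p.1 - f p.1| :=
    ((hm.comp measurable_fst).sub (hfm.comp measurable_fst)).abs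
  have i1 : Integrable (fun p : (Fin n → ℝ) × (Fin n → ℝ) => |ζ p.1 - f p.1|) (PP n) :=
    Integrable.of_bound hmd.aestronglyMeasurable (2 * K)
      (Eventually.of_forall fun p => by rw [Real.norm_eq_abs, abs_abs]; exact hb _)
  have i2 := integrable_coord_four i
  have hle : ∀ p : (Fin n → ℝ) × (Fin n → ℝ), (|p.1 i| + |p.2 i|) ^ 2 * |ζ p.1 - f p.1| ≤
      e / 2 * (|p.1 i| + |p.2 i|) ^ 4 + K / e * |ζ p.1 - f p.1| := by
    intro p
    set a := (|p.1 i| + |p.2 i|) ^ 2
    set b := |ζ p.1 - f p.1| with hbdef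
    have hb0 : 0 ≤ b := abs_nonneg _
    have hb2 : b ≤ 2 * K := hb p.1
    have h1 : (|p.1 i| + |p.2 i|) ^ 4 = a ^ 2 := by simp only [a]; ring
    rw [h1]
    have h2 : a * b ≤ e / 2 * a ^ 2 + 1 / (2 * e) * b ^ 2 := by
      have : 0 ≤ 1 / (2 * e) * (e * a - b) ^ 2 := by positivity
      have h3 : 1 / (2 * e) * (e * a - b) ^ 2 = e / 2 * a ^ 2 - a * b + 1 / (2 * e) * b ^ 2 := by
        field_simp
        ring
      linarith
    have h4 : 1 / (2 * e) * b ^ 2 ≤ K / e * b := by
      have : 1 / (2 * e) * b ^ 2 ≤ 1 / (2 * e) * (2 * K * b) := by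
        apply mul_le_mul_of_nonneg_left _ (by positivity)
        nlinarith
      refine this.trans (le_of_eq ?_)
      field_simp
    linarith
  have i3 : Integrable (fun p : (Fin n → ℝ) × (Fin n → ℝ) =>
      (|p.1 i| + |p.2 i|) ^ 2 * |ζ p.1 - f p.1|) (PP n) := by
    refine ((i2.const_mul (e / 2)).add (i1.const_mul (K / e))).mono'
      ((Measurable.mul (by fun_prop) hmd).aestronglyMeasurable) (Eventually.of_forall fun p => ?_)
    rw [Real.norm_eq_abs, abs_of_nonneg (by positivity)]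
    exact hle p
  calc ∫ p, (|p.1 i| + |p.2 i|) ^ 2 * |ζ p.1 - f p.1| ∂(PP n)
      ≤ ∫ p, (e / 2 * (|p.1 i| + |p.2 i|) ^ 4 + K / e * |ζ p.1 - f p.1|) ∂(PP n) :=
        integral_mono i3 ((i2.const_mul (e / 2)).add (i1.const_mul (K / e))) hle
    _ = e / 2 * M + K / e * ∫ p, |ζ p.1 - f p.1| ∂(PP n) := by
        rw [integral_add (i2.const_mul (e / 2)) (i1.const_mul (K / e)), integral_const_mul,
          integral_const_mul]
    _ = e / 2 * M + K / e * ∫ x, |ζ x - f x| ∂(γ n) := by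
        rw [integral_fst (fun x => |ζ x - f x|) ((hm.sub hfm).abs)]
    _ ≤ η / 2 + η / 2 := by
        apply add_le_add
        · rw [he, div_div, div_mul_eq_mul_div, div_le_iff₀ (by positivity)]
          nlinarith
        · calc K / e * ∫ x, |ζ x - f x| ∂(γ n) ≤ K / e * (η * e / (2 * (K + 1))) :=
                mul_le_mul_of_nonneg_left hf3 (by positivity)
            _ = η / 2 * (K / (K + 1)) := by field_simp
            _ ≤ η / 2 * 1 := by
              apply mul_le_mul_of_nonneg_left _ (by positivity)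
              rw [div_le_one (by positivity)]; linarith
            _ = η / 2 := mul_one _
    _ = η := by ring

theorem meas_of_lip (f : (Fin n → ℝ) → ℝ) (Λ : ℝ) (hΛ : 0 ≤ Λ)
    (hf1 : ∀ p q, |f p - f q| ≤ Λ * ‖p - q‖) : Measurable f := by
  have hl : LipschitzWith ⟨Λ, hΛ⟩ f := by
    apply LipschitzWith.of_dist_le_mul
    intro p q
    rw [Real.dist_eq, dist_eq_norm]
    exact hf1 p q
  exact hl.continuous.measurable

theorem upd_diff (v : (Fin n → ℝ) → ℝ) (K : ℝ) (hK : 0 ≤ K)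
    (hv : ∀ p q, |v p - v q| ≤ K * ‖p - q‖) (s : ℝ) (hs0 : 0 ≤ s) (hs1 : s ≤ 1) (i : Fin n)
    (p : (Fin n → ℝ) × (Fin n → ℝ)) :
    |v p.1 - v (update p.1 i (J s p i))| ≤ K * (s * (|p.1 i| + |p.2 i|)) := by
  have h1 := abs_W_sub_W v K hK hv [] List.nodup_nil i (by simp) p.1 p.1 (J s p i)
  exact h1.trans (mul_le_mul_of_nonneg_left (abs_J_sub s hs0 hs1 i p) hK)

/-- The swap identity for the linearised flux. -/
theorem lin_flux (s : ℝ) (hs0 : 0 < s) (hs1 : s ≤ 1) (v f : (Fin n → ℝ) → ℝ) (mv : Measurable v)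
    (mf : Measurable f) (D K : ℝ) (hD : ∀ p, |v p| ≤ D) (hK : ∀ p, |f p| ≤ K) (i : Fin n) :
    ∫ p, (if p.1 i < J s p i then (v p.1 - v (update p.1 i (J s p i))) *
      (f p.1 * (J s p i - p.1 i)) else 0) ∂(PP n) =
    (∫ p, v p.1 * f p.1 * (-(1 - √(1 - s ^ 2)) * p.1 i) ∂(PP n)) +
    ∫ p, (if J s p i < p.1 i then v p.1 * (f (update p.1 i (J s p i)) - f p.1) *
      (J s p i - p.1 i) else 0) ∂(PP n) := by
  have hD0 : 0 ≤ D := (abs_nonneg _).trans (hD 0)
  have hK0 : 0 ≤ K := (abs_nonneg _).trans (hK 0)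
  have mJi : Measurable fun p : (Fin n → ℝ) × (Fin n → ℝ) => J s p i :=
    (measurable_pi_apply i).comp (measurable_J s)
  have mxi : Measurable fun p : (Fin n → ℝ) × (Fin n → ℝ) => p.1 i :=
    (measurable_pi_apply i).comp measurable_fst
  have mδ : Measurable fun p : (Fin n → ℝ) × (Fin n → ℝ) => J s p i - p.1 i := mJi.sub mxi
  have mup := measurable_upd (n := n) s i
  have mv1 : Measurable fun p : (Fin n → ℝ) × (Fin n → ℝ) => v p.1 := mv.comp measurable_fst
  have mv2 : Measurable fun p : (Fin n → ℝ) × (Fin n → ℝ) => v (update p.1 i (J s p i)) :=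
    mv.comp mup
  have mf1 : Measurable fun p : (Fin n → ℝ) × (Fin n → ℝ) => f p.1 := mf.comp measurable_fst
  have mf2 : Measurable fun p : (Fin n → ℝ) × (Fin n → ℝ) => f (update p.1 i (J s p i)) :=
    mf.comp mup
  have hset := measurableSet_up (n := n) s i
  have hset' : MeasurableSet {p : (Fin n → ℝ) × (Fin n → ℝ) | J s p i < p.1 i} :=
    measurableSet_lt mJi mxi
  -- integrable majorant
  have iw : Integrable (fun p : (Fin n → ℝ) × (Fin n → ℝ) => 1 + (|p.1 i| + |p.2 i|) ^ 2) (PP n) :=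
    (integrable_const _).add (integrable_coord_sq i)
  have hδ : ∀ p : (Fin n → ℝ) × (Fin n → ℝ), |J s p i - p.1 i| ≤ 1 + (|p.1 i| + |p.2 i|) ^ 2 := by
    intro p
    have h1 := abs_J_sub s hs0.le hs1 i p
    have h2 : 0 ≤ |p.1 i| + |p.2 i| := by positivity
    have h3 : s * (|p.1 i| + |p.2 i|) ≤ 1 * (|p.1 i| + |p.2 i|) :=
      mul_le_mul_of_nonneg_right hs1 h2
    nlinarith [sq_nonneg (|p.1 i| + |p.2 i| - 1)]
  have bnd : ∀ (a b c : ℝ) (p : (Fin n → ℝ) × (Fin n → ℝ)), |a| ≤ D → |b| ≤ K →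
      |c| ≤ 1 + (|p.1 i| + |p.2 i|) ^ 2 → |a * b * c| ≤ D * K * (1 + (|p.1 i| + |p.2 i|) ^ 2) := by
    intro a b c p ha hb hc
    rw [abs_mul, abs_mul]
    exact mul_le_mul (mul_le_mul ha hb (abs_nonneg _) hD0) hc (abs_nonneg _) (by positivity)
  let a : (Fin n → ℝ) × (Fin n → ℝ) → ℝ := fun p =>
    if p.1 i < J s p i then v p.1 * f p.1 * (J s p i - p.1 i) else 0
  let b : (Fin n → ℝ) × (Fin n → ℝ) → ℝ := fun p =>
    if p.1 i < J s p i then v (update p.1 i (J s p i)) * f p.1 * (J s p i - p.1 i) else 0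
  let c : (Fin n → ℝ) × (Fin n → ℝ) → ℝ := fun p =>
    if J s p i < p.1 i then v p.1 * f (update p.1 i (J s p i)) * (J s p i - p.1 i) else 0
  have ma : Measurable a := Measurable.ite hset ((mv1.mul mf1).mul mδ) measurable_const
  have mb : Measurable b := Measurable.ite hset ((mv2.mul mf1).mul mδ) measurable_const
  have mc : Measurable c := Measurable.ite hset' ((mv1.mul mf2).mul mδ) measurable_const
  have ia : Integrable a (PP n) := by
    refine (iw.const_mul (D * K)).mono' ma.aestronglyMeasurable (Eventually.of_forall fun p => ?_)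
    simp only [a]
    split_ifs
    · exact bnd _ _ _ p (hD _) (hK _) (hδ p)
    · rw [norm_zero]; positivity
  have ib : Integrable b (PP n) := by
    refine (iw.const_mul (D * K)).mono' mb.aestronglyMeasurable (Eventually.of_forall fun p => ?_)
    simp only [b]
    split_ifs
    · exact bnd _ _ _ p (hD _) (hK _) (hδ p)
    · rw [norm_zero]; positivity
  have ic' : Integrable c (PP n) := by
    refine (iw.const_mul (D * K)).mono' mc.aestronglyMeasurable (Eventually.of_forall fun p => ?_)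
    simp only [c]
    split_ifs
    · exact bnd _ _ _ p (hD _) (hK _) (hδ p)
    · rw [norm_zero]; positivity
  have ebc : ∫ p, b p ∂(PP n) = - ∫ p, c p ∂(PP n) := by
    have hmp := swp_mp' s hs0.le hs1 i
    conv_lhs => rw [← hmp.map_eq]
    rw [integral_map hmp.measurable.aemeasurable mb.aestronglyMeasurable, ← integral_neg]
    apply integral_congr_ae
    refine Eventually.of_forall fun p => ?_
    simp only [b, c]
    rw [swp_fst, update_self, J_swp s hs0.le hs1, update_self, update_idem, update_eq_self]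
    split_ifs
    · ring
    · simp
  have e1 : ∀ p, (if p.1 i < J s p i then (v p.1 - v (update p.1 i (J s p i))) *
      (f p.1 * (J s p i - p.1 i)) else 0) = a p - b p := by
    intro p
    simp only [a, b]
    split_ifs
    · ring
    · ring
  rw [integral_congr_ae (Eventually.of_forall e1), integral_sub ia ib, ebc, sub_neg_eq_add,
    ← integral_add ia ic']
  -- now the algebra
  let d : (Fin n → ℝ) × (Fin n → ℝ) → ℝ := fun p =>
    if J s p i < p.1 i then v p.1 * (f (update p.1 i (J s p i)) - f p.1) * (J s p i - p.1 i) else 0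
  have md : Measurable d := Measurable.ite hset' ((mv1.mul (mf2.sub mf1)).mul mδ) measurable_const
  have id' : Integrable d (PP n) := by
    refine (iw.const_mul (D * (2 * K))).mono' md.aestronglyMeasurable
      (Eventually.of_forall fun p => ?_)
    simp only [d]
    split_ifs
    · rw [Real.norm_eq_abs, abs_mul, abs_mul]
      have : |f (update p.1 i (J s p i)) - f p.1| ≤ 2 * K := by
        have h1 := abs_le.1 (hK (update p.1 i (J s p i)))
        have h2 := abs_le.1 (hK p.1)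
        rw [abs_le]; constructor
        · linarith [h1.1, h2.2]
        · linarith [h1.2, h2.1]
      exact mul_le_mul (mul_le_mul (hD _) this (abs_nonneg _) hD0) (hδ p) (abs_nonneg _)
        (by positivity)
    · rw [norm_zero]; positivity
  let e : (Fin n → ℝ) × (Fin n → ℝ) → ℝ := fun p => v p.1 * f p.1 * (-(1 - √(1 - s ^ 2)) * p.1 i)
  let g : (Fin n → ℝ) × (Fin n → ℝ) → ℝ := fun p => (v p.1 * f p.1) * (s * p.2 i)
  have hc0 : 0 ≤ 1 - √(1 - s ^ 2) := by
    have : √(1 - s ^ 2) ≤ 1 := by rw [Real.sqrt_le_one]; nlinarith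
    linarith
  have hc1 : 1 - √(1 - s ^ 2) ≤ 1 := by
    have : 0 ≤ √(1 - s ^ 2) := Real.sqrt_nonneg _
    linarith
  have ie : Integrable e (PP n) := by
    refine (iw.const_mul (D * K)).mono' ((mv1.mul mf1).mul
      (mxi.const_mul _)).aestronglyMeasurable (Eventually.of_forall fun p => ?_)
    refine bnd _ _ _ p (hD _) (hK _) ?_
    rw [abs_mul, abs_neg, abs_of_nonneg hc0]
    have h2 : 0 ≤ |p.1 i| := abs_nonneg _
    have h3 : 0 ≤ |p.2 i| := abs_nonneg _
    have h4 : (1 - √(1 - s ^ 2)) * |p.1 i| ≤ 1 * |p.1 i| := mul_le_mul_of_nonneg_right hc1 h2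
    nlinarith [sq_nonneg (|p.1 i| + |p.2 i| - 1)]
  have ig : Integrable g (PP n) := by
    refine (iw.const_mul (D * K)).mono' ((mv1.mul mf1).mul
      (Measurable.const_mul (by fun_prop) _)).aestronglyMeasurable (Eventually.of_forall fun p => ?_)
    refine bnd _ _ _ p (hD _) (hK _) ?_
    rw [abs_mul, abs_of_pos hs0]
    have h2 : 0 ≤ |p.1 i| := abs_nonneg _
    have h3 : 0 ≤ |p.2 i| := abs_nonneg _
    have h4 : s * |p.2 i| ≤ 1 * |p.2 i| := mul_le_mul_of_nonneg_right hs1 h3
    nlinarith [sq_nonneg (|p.1 i| + |p.2 i| - 1)]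
  have hg0 : ∫ p, g p ∂(PP n) = 0 := by
    simp only [g]
    unfold PP
    rw [integral_prod_mul (fun x => v x * f x) (fun y : Fin n → ℝ => s * y i)]
    have h1 : MeasurePreserving (fun y : Fin n → ℝ => y i) (γ n) (gaussianReal 0 1) := by
      unfold γ; exact measurePreserving_eval (fun _ => gaussianReal 0 1) i
    have h2 : ∫ y : Fin n → ℝ, s * y i ∂(γ n) = 0 := by
      rw [integral_const_mul]
      have : ∫ y : Fin n → ℝ, y i ∂(γ n) = ∫ g : ℝ, g ∂(gaussianReal 0 1) := by
        rw [← h1.map_eq, integral_map h1.measurable.aemeasurable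
          measurable_id'.aestronglyMeasurable]
      rw [this, mom1, mul_zero]
    rw [h2, mul_zero]
  have e2 : ∀ p, a p + c p = e p + g p + d p := by
    intro p
    have hJ : J s p i - p.1 i = -(1 - √(1 - s ^ 2)) * p.1 i + s * p.2 i := by
      simp only [J, jump]; ring
    have h3 : e p + g p = v p.1 * f p.1 * (J s p i - p.1 i) := by
      simp only [e, g]; rw [hJ]; ring
    rw [h3]
    simp only [a, c, d]
    rcases lt_trichotomy (p.1 i) (J s p i) with h | h | h
    · rw [if_pos h, if_neg (not_lt.2 h.le), if_neg (not_lt.2 h.le)]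
    · rw [h]; simp
    · rw [if_neg (not_lt.2 h.le), if_pos h, if_pos h]; ring
  have ieg : Integrable (fun p => e p + g p) (PP n) := ie.add ig
  rw [integral_congr_ae (Eventually.of_forall e2), integral_add ieg id', integral_add ie ig, hg0,
    add_zero]

end MP04ae38
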