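import Pool.Agent.Lib.MP_04ae38_an.ExpandC

/-!
# The flux tested against a sequence tending to zero, conclusion
-/

open Set Function MeasureTheory ProbabilityTheory Filter Topology

namespace MP04ae38

variable {n : ℕ}

theorem dct0 {α : Type*} [MeasurableSpace α] {μ : Measure α} {F : ℕ → α → ℝ} (bound : α → ℝ)
    (h1 : ∀ k, AEStronglyMeasurable (F k) μ) (h2 : Integrable bound μ)
    (h3 : ∀ k, ∀ᵐ a ∂μ, ‖F k a‖ ≤ bound a) (h4 : ∀ᵐ a ∂μ, Tendsto (fun k => F k a) atTop (𝓝 0)) :
    Tendsto (fun k => ∫ a, F k a ∂μ) atTop (𝓝 0) := by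
  have := tendsto_integral_of_dominated_convergence bound h1 h2 h3 h4
  simpa using this

/-- linearised flux -/
noncomputable def UU (s : ℝ) (v f : (Fin n → ℝ) → ℝ) (i : Fin n) : ℝ :=
  (2 / s ^ 2) * ∫ p, (if p.1 i < J s p i then (v p.1 - v (update p.1 i (J s p i))) *
      (f p.1 * (J s p i - p.1 i)) else 0) ∂(PP n)

section

variable (v : ℕ → (Fin n → ℝ) → ℝ) (D Kv : ℝ) (hKv : 0 ≤ Kv)
  (mv : ∀ k, Measurable (v k)) (hD : ∀ k p, |v k p| ≤ D)
  (hv : ∀ k p q, |v k p - v k q| ≤ Kv * ‖p - q‖)
  (s : ℕ → ℝ) (hs0 : ∀ k, 0 < s k) (hs1 : ∀ k, s k ≤ 1)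
  (hs : Tendsto s atTop (𝓝 0)) (hv0 : ∀ x, Tendsto (fun k => v k x) atTop (𝓝 0))
  (i : Fin n)

include hs0 hs1 mv hD hv0 in
/-- Step 2: Lipschitz weights. -/
theorem UU_lip_tendsto (f : (Fin n → ℝ) → ℝ) (K Λ : ℝ) (hΛ : 0 ≤ Λ)
    (hf : ∀ p q, |f p - f q| ≤ Λ * ‖p - q‖) (hfK : ∀ p, |f p| ≤ K) :
    Tendsto (fun k => UU (s k) (v k) f i) atTop (𝓝 0) := by
  have mf := meas_of_lip f Λ hΛ hf
  have hD0 : 0 ≤ D := (abs_nonneg _).trans (hD 0 0)
  have hK0 : 0 ≤ K := (abs_nonneg _).trans (hfK 0)
  -- first term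
  have t1 : Tendsto (fun k => ∫ p : (Fin n → ℝ) × (Fin n → ℝ), (2 / s k ^ 2) *
      (v k p.1 * f p.1 * (-(1 - √(1 - s k ^ 2)) * p.1 i)) ∂(PP n)) atTop (𝓝 0) := by
    have hb : ∀ k (p : (Fin n → ℝ) × (Fin n → ℝ)), |(2 / s k ^ 2) *
        (v k p.1 * f p.1 * (-(1 - √(1 - s k ^ 2)) * p.1 i))| ≤ |v k p.1| * (2 * K * |p.1 i|) := by
      intro k p
      have hsk := hs0 k
      have h1 := one_sub_sqrt_le (s k) (hs0 k).le (hs1 k)
      have h0 : 0 ≤ 1 - √(1 - s k ^ 2) := by
        have : √(1 - s k ^ 2) ≤ 1 := by rw [Real.sqrt_le_one]; nlinarith [sq_nonneg (s k)]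
        linarith
      rw [abs_mul, abs_mul, abs_mul, abs_mul, abs_neg, abs_of_nonneg h0,
        abs_of_pos (show 0 < 2 / s k ^ 2 by positivity)]
      have h2 : 2 / s k ^ 2 * (1 - √(1 - s k ^ 2)) ≤ 2 := by
        rw [div_mul_eq_mul_div, div_le_iff₀ (by positivity)]
        linarith
      calc 2 / s k ^ 2 * (|v k p.1| * |f p.1| * ((1 - √(1 - s k ^ 2)) * |p.1 i|)) =
          |v k p.1| * ((2 / s k ^ 2 * (1 - √(1 - s k ^ 2))) * |f p.1| * |p.1 i|) := by ring
        _ ≤ |v k p.1| * (2 * K * |p.1 i|) := by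
          apply mul_le_mul_of_nonneg_left _ (abs_nonneg _)
          apply mul_le_mul_of_nonneg_right _ (abs_nonneg _)
          exact mul_le_mul h2 (hfK _) (abs_nonneg _) (by norm_num)
    apply dct0
      (fun p => D * (2 * K * (1 + (|p.1 i| + |p.2 i|) ^ 2)))
    · intro k
      have : Measurable fun p : (Fin n → ℝ) × (Fin n → ℝ) => (2 / s k ^ 2) *
        (v k p.1 * f p.1 * (-(1 - √(1 - s k ^ 2)) * p.1 i)) :=
        ((((mv k).comp measurable_fst).mul (mf.comp measurable_fst)).mul
          (Measurable.const_mul ((measurable_pi_apply i).comp measurable_fst) _)).const_mul _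
      exact this.aestronglyMeasurable
    · exact ((((integrable_const _).add (integrable_coord_sq i))).const_mul _).const_mul _
    · intro k
      refine Eventually.of_forall fun p => ?_
      refine (hb k p).trans ?_
      have h1 : |p.1 i| ≤ 1 + (|p.1 i| + |p.2 i|) ^ 2 := by
        nlinarith [abs_nonneg (p.1 i), abs_nonneg (p.2 i), sq_nonneg (|p.1 i| + |p.2 i| - 1)]
      exact mul_le_mul (hD k _) (mul_le_mul_of_nonneg_left h1 (by positivity)) (by positivity) hD0
    · refine Eventually.of_forall fun p => ?_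
      apply squeeze_zero_norm (fun k => hb k p)
      have := (hv0 p.1).abs.mul_const (2 * K * |p.1 i|)
      simpa using this
  -- second term
  have t2 : Tendsto (fun k => ∫ p, (2 / s k ^ 2) *
      (if J (s k) p i < p.1 i then v k p.1 * (f (update p.1 i (J (s k) p i)) - f p.1) *
      (J (s k) p i - p.1 i) else 0) ∂(PP n)) atTop (𝓝 0) := by
    have hb : ∀ k (p : (Fin n → ℝ) × (Fin n → ℝ)), |(2 / s k ^ 2) *
      (if J (s k) p i < p.1 i then v k p.1 * (f (update p.1 i (J (s k) p i)) - f p.1) *
      (J (s k) p i - p.1 i) else 0)| ≤ |v k p.1| * (2 * Λ * (|p.1 i| + |p.2 i|) ^ 2) := by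
      intro k p
      have hsk := hs0 k
      rw [abs_mul, abs_of_pos (show 0 < 2 / s k ^ 2 by positivity)]
      split_ifs
      · rw [abs_mul, abs_mul]
        have h1 := upd_diff f Λ hΛ hf (s k) (hs0 k).le (hs1 k) i p
        rw [abs_sub_comm] at h1
        have h2 := abs_J_sub (s k) (hs0 k).le (hs1 k) i p
        calc 2 / s k ^ 2 * (|v k p.1| * |f (update p.1 i (J (s k) p i)) - f p.1| *
            |J (s k) p i - p.1 i|) ≤ 2 / s k ^ 2 * (|v k p.1| * (Λ * (s k * (|p.1 i| + |p.2 i|))) *
            (s k * (|p.1 i| + |p.2 i|))) := by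
              apply mul_le_mul_of_nonneg_left _ (by positivity)
              apply mul_le_mul _ h2 (abs_nonneg _) (by positivity)
              exact mul_le_mul_of_nonneg_left h1 (abs_nonneg _)
          _ = _ := by field_simp
      · rw [abs_zero, mul_zero]; positivity
    apply dct0
      (fun p => D * (2 * Λ * (|p.1 i| + |p.2 i|) ^ 2))
    · intro k
      have mJi : Measurable fun p : (Fin n → ℝ) × (Fin n → ℝ) => J (s k) p i :=
        (measurable_pi_apply i).comp (measurable_J (s k))
      have mxi : Measurable fun p : (Fin n → ℝ) × (Fin n → ℝ) => p.1 i :=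
        (measurable_pi_apply i).comp measurable_fst
      have hset' : MeasurableSet {p : (Fin n → ℝ) × (Fin n → ℝ) | J (s k) p i < p.1 i} :=
        measurableSet_lt mJi mxi
      have : Measurable fun p : (Fin n → ℝ) × (Fin n → ℝ) => (2 / s k ^ 2) *
        (if J (s k) p i < p.1 i then v k p.1 * (f (update p.1 i (J (s k) p i)) - f p.1) *
        (J (s k) p i - p.1 i) else 0) := by
        apply Measurable.const_mul
        apply Measurable.ite hset' _ measurable_const
        exact (((mv k).comp measurable_fst).mul ((mf.comp (measurable_upd (s k) i)).sub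
          (mf.comp measurable_fst))).mul (mJi.sub mxi)
      exact this.aestronglyMeasurable
    · exact ((integrable_coord_sq i).const_mul _).const_mul _
    · intro k
      refine Eventually.of_forall fun p => ?_
      refine (hb k p).trans ?_
      exact mul_le_mul_of_nonneg_right (hD k _) (by positivity)
    · refine Eventually.of_forall fun p => ?_
      apply squeeze_zero_norm (fun k => hb k p)
      have := (hv0 p.1).abs.mul_const (2 * Λ * (|p.1 i| + |p.2 i|) ^ 2)
      simpa using this
  have t3 := t1.add t2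
  rw [add_zero] at t3
  refine t3.congr (fun k => ?_)
  unfold UU
  rw [lin_flux (s k) (hs0 k) (hs1 k) (v k) f (mv k) mf D K (hD k) hfK i, integral_const_mul,
    integral_const_mul]
  ring

include hs0 hs1 mv hv hKv in
/-- Step 3: stability of the linearised flux in the weight. -/
theorem UU_stab (ζ f : (Fin n → ℝ) → ℝ) (K : ℝ) (mζ : Measurable ζ) (mf : Measurable f)
    (hζ : ∀ p, |ζ p| ≤ K) (hf : ∀ p, |f p| ≤ K) (k : ℕ) :
    |UU (s k) (v k) ζ i - UU (s k) (v k) f i| ≤
      2 * Kv * ∫ p, (|p.1 i| + |p.2 i|) ^ 2 * |ζ p.1 - f p.1| ∂(PP n) := by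
  have hK0 : 0 ≤ K := (abs_nonneg _).trans (hf 0)
  have hsk := hs0 k
  have mJi : Measurable fun p : (Fin n → ℝ) × (Fin n → ℝ) => J (s k) p i :=
    (measurable_pi_apply i).comp (measurable_J (s k))
  have mxi : Measurable fun p : (Fin n → ℝ) × (Fin n → ℝ) => p.1 i :=
    (measurable_pi_apply i).comp measurable_fst
  have hset := measurableSet_up (n := n) (s k) i
  have mdv : Measurable fun p : (Fin n → ℝ) × (Fin n → ℝ) =>
      v k p.1 - v k (update p.1 i (J (s k) p i)) :=
    ((mv k).comp measurable_fst).sub ((mv k).comp (measurable_upd (s k) i))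
  have mker : ∀ g : (Fin n → ℝ) → ℝ, Measurable g → Measurable
      fun p : (Fin n → ℝ) × (Fin n → ℝ) => (if p.1 i < J (s k) p i then
        (v k p.1 - v k (update p.1 i (J (s k) p i))) * (g p.1 * (J (s k) p i - p.1 i)) else 0) := by
    intro g mg
    apply Measurable.ite hset _ measurable_const
    exact mdv.mul ((mg.comp measurable_fst).mul (mJi.sub mxi))
  have bker : ∀ g : (Fin n → ℝ) → ℝ, ∀ p : (Fin n → ℝ) × (Fin n → ℝ),
      |(if p.1 i < J (s k) p i then
        (v k p.1 - v k (update p.1 i (J (s k) p i))) * (g p.1 * (J (s k) p i - p.1 i)) else 0)| ≤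
      (Kv * s k ^ 2) * ((|p.1 i| + |p.2 i|) ^ 2 * |g p.1|) := by
    intro g p
    split_ifs
    · rw [abs_mul, abs_mul]
      have h1 := upd_diff (v k) Kv hKv (hv k) (s k) (hs0 k).le (hs1 k) i p
      have h2 := abs_J_sub (s k) (hs0 k).le (hs1 k) i p
      calc |v k p.1 - v k (update p.1 i (J (s k) p i))| * (|g p.1| * |J (s k) p i - p.1 i|) ≤
          (Kv * (s k * (|p.1 i| + |p.2 i|))) * (|g p.1| * (s k * (|p.1 i| + |p.2 i|))) := by
            apply mul_le_mul h1 _ (by positivity) (by positivity)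
            exact mul_le_mul_of_nonneg_left h2 (abs_nonneg _)
        _ = _ := by ring
    · rw [abs_zero]; positivity
  have iker : ∀ g : (Fin n → ℝ) → ℝ, Measurable g → (∀ p, |g p| ≤ K) → Integrable
      (fun p : (Fin n → ℝ) × (Fin n → ℝ) => (if p.1 i < J (s k) p i then
        (v k p.1 - v k (update p.1 i (J (s k) p i))) * (g p.1 * (J (s k) p i - p.1 i)) else 0))
        (PP n) := by
    intro g mg hg
    refine (((integrable_coord_sq i).mul_const K).const_mul (Kv * s k ^ 2)).mono'
      (mker g mg).aestronglyMeasurable (Eventually.of_forall fun p => ?_)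
    refine (bker g p).trans ?_
    apply mul_le_mul_of_nonneg_left _ (by positivity)
    exact mul_le_mul_of_nonneg_left (hg _) (by positivity)
  unfold UU
  rw [← mul_sub, ← integral_sub (iker ζ mζ hζ) (iker f mf hf), abs_mul,
    abs_of_pos (show 0 < 2 / s k ^ 2 by positivity)]
  have hdiff : ∀ p : (Fin n → ℝ) × (Fin n → ℝ), (if p.1 i < J (s k) p i then
        (v k p.1 - v k (update p.1 i (J (s k) p i))) * (ζ p.1 * (J (s k) p i - p.1 i)) else 0) -
        (if p.1 i < J (s k) p i then
        (v k p.1 - v k (update p.1 i (J (s k) p i))) * (f p.1 * (J (s k) p i - p.1 i)) else 0) =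
        (if p.1 i < J (s k) p i then
        (v k p.1 - v k (update p.1 i (J (s k) p i))) * ((ζ p.1 - f p.1) * (J (s k) p i - p.1 i))
        else 0) := by
    intro p
    split_ifs
    · ring
    · ring
  rw [integral_congr_ae (Eventually.of_forall hdiff)]
  have mζf : Measurable fun x => ζ x - f x := mζ.sub mf
  have hζf : ∀ x, |ζ x - f x| ≤ 2 * K := by
    intro x
    have h1 := abs_le.1 (hζ x)
    have h2 := abs_le.1 (hf x)
    rw [abs_le]; constructor
    · linarith [h1.1, h2.2]
    · linarith [h1.2, h2.1]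
  have iw : Integrable (fun p : (Fin n → ℝ) × (Fin n → ℝ) =>
      (|p.1 i| + |p.2 i|) ^ 2 * |ζ p.1 - f p.1|) (PP n) := by
    refine ((integrable_coord_sq i).mul_const (2 * K)).mono'
      (Measurable.mul (by fun_prop) (mζf.comp measurable_fst).abs).aestronglyMeasurable
      (Eventually.of_forall fun p => ?_)
    rw [Real.norm_eq_abs, abs_of_nonneg (by positivity)]
    exact mul_le_mul_of_nonneg_left (hζf _) (by positivity)
  calc 2 / s k ^ 2 * |∫ p, (if p.1 i < J (s k) p i then
        (v k p.1 - v k (update p.1 i (J (s k) p i))) * ((ζ p.1 - f p.1) * (J (s k) p i - p.1 i))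
        else 0) ∂(PP n)| ≤ 2 / s k ^ 2 * ∫ p, (Kv * s k ^ 2) * ((|p.1 i| + |p.2 i|) ^ 2 *
          |ζ p.1 - f p.1|) ∂(PP n) := by
        apply mul_le_mul_of_nonneg_left _ (by positivity)
        rw [← Real.norm_eq_abs]
        apply norm_integral_le_of_norm_le (iw.const_mul _)
        exact Eventually.of_forall fun p => bker (fun x => ζ x - f x) p
    _ = _ := by
      rw [integral_const_mul]
      field_simp

include hs0 hs1 hs mv hD hv hKv hv0 in
theorem expand_C (h : (Fin n → ℝ) → ℝ) (C Kh : ℝ) (hKh : 0 ≤ Kh)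
    (mh : Measurable h) (hC : ∀ p, |h p| ≤ C) (hh : ∀ p q, |h p - h q| ≤ Kh * ‖p - q‖)
    (l : List (Fin n)) (hl : l.Nodup) (hi : i ∉ l) :
    Tendsto (fun k => (2 / s k ^ 2) * ∫ p, v k p.1 * (W h l p.1 (J (s k) p) -
      W h (i :: l) p.1 (J (s k) p)) ∂(PP n)) atTop (𝓝 0) := by
  set ζ : (Fin n → ℝ) → ℝ := fun x => max (-dd h i x) 0 with hζdef
  have mζ : Measurable ζ := ((measurable_dd h i).neg).max measurable_const
  have hζ : ∀ x, |ζ x| ≤ Kh := by
    intro x
    simp only [hζdef]
    rw [abs_of_nonneg (le_max_right _ _)]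
    apply max_le _ hKh
    have := abs_dd_le h Kh hKh hh i x
    linarith [(abs_le.1 this).1]
  have mJi : ∀ k, Measurable fun p : (Fin n → ℝ) × (Fin n → ℝ) => J (s k) p i := fun k =>
    (measurable_pi_apply i).comp (measurable_J (s k))
  have mxi : Measurable fun p : (Fin n → ℝ) × (Fin n → ℝ) => p.1 i :=
    (measurable_pi_apply i).comp measurable_fst
  have mdv : ∀ k, Measurable fun p : (Fin n → ℝ) × (Fin n → ℝ) =>
      v k p.1 - v k (update p.1 i (J (s k) p i)) := fun k =>
    ((mv k).comp measurable_fst).sub ((mv k).comp (measurable_upd (s k) i))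
  have mAB : ∀ k, Measurable fun p : (Fin n → ℝ) × (Fin n → ℝ) =>
      max (W h l p.1 (J (s k) p) - W h l (update p.1 i (J (s k) p i)) (J (s k) p)) 0 := fun k =>
    ((measurable_WA (s k) h mh l).sub (measurable_WB (s k) h mh l i)).max measurable_const
  have bv : ∀ k (p : (Fin n → ℝ) × (Fin n → ℝ)), |v k p.1 - v k (update p.1 i (J (s k) p i))| ≤
      Kv * (s k * (|p.1 i| + |p.2 i|)) := fun k p =>
    upd_diff (v k) Kv hKv (hv k) (s k) (hs0 k).le (hs1 k) i p
  have bB : ∀ k (p : (Fin n → ℝ) × (Fin n → ℝ)), |max (W h l p.1 (J (s k) p) -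
      W h l (update p.1 i (J (s k) p i)) (J (s k) p)) 0| ≤ Kh * (s k * (|p.1 i| + |p.2 i|)) := by
    intro k p
    have h1 := abs_W_sub_W h Kh hKh hh l hl i hi p.1 (J (s k) p) (J (s k) p i)
    have h2 := h1.trans (mul_le_mul_of_nonneg_left (abs_J_sub (s k) (hs0 k).le (hs1 k) i p) hKh)
    have hsk := hs0 k
    rw [abs_of_nonneg (le_max_right _ _)]
    exact max_le ((le_abs_self _).trans h2) (by positivity)
  have bζ : ∀ k (p : (Fin n → ℝ) × (Fin n → ℝ)), |ζ p.1 * (J (s k) p i - p.1 i)| ≤
      Kh * (s k * (|p.1 i| + |p.2 i|)) := by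
    intro k p
    rw [abs_mul]
    exact mul_le_mul (hζ _) (abs_J_sub (s k) (hs0 k).le (hs1 k) i p) (abs_nonneg _) hKh
  -- Step 1
  have step1 : Tendsto (fun k => ∫ p, (2 / s k ^ 2) * (if p.1 i < J (s k) p i then
      (v k p.1 - v k (update p.1 i (J (s k) p i))) *
      (max (W h l p.1 (J (s k) p) - W h l (update p.1 i (J (s k) p i)) (J (s k) p)) 0 -
        ζ p.1 * (J (s k) p i - p.1 i)) else 0) ∂(PP n)) atTop (𝓝 0) := by
    have hb1 : ∀ k (p : (Fin n → ℝ) × (Fin n → ℝ)), |(2 / s k ^ 2) * (if p.1 i < J (s k) p i then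
      (v k p.1 - v k (update p.1 i (J (s k) p i))) *
      (max (W h l p.1 (J (s k) p) - W h l (update p.1 i (J (s k) p i)) (J (s k) p)) 0 -
        ζ p.1 * (J (s k) p i - p.1 i)) else 0)| ≤ (2 * Kv * (|p.1 i| + |p.2 i|)) *
        |if p.1 i < J (s k) p i then (max ((W h l p.1 (J (s k) p) -
          W h l (update p.1 i (J (s k) p i)) (J (s k) p)) / s k) 0 - ζ p.1 * zz (s k) p i)
          else 0| := by
      intro k p
      have hsk := hs0 k
      rw [abs_mul, abs_of_pos (show 0 < 2 / s k ^ 2 by positivity)]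
      split_ifs
      · rw [abs_mul]
        have e1 : max (W h l p.1 (J (s k) p) - W h l (update p.1 i (J (s k) p i)) (J (s k) p)) 0 -
            ζ p.1 * (J (s k) p i - p.1 i) = s k * (max ((W h l p.1 (J (s k) p) -
          W h l (update p.1 i (J (s k) p i)) (J (s k) p)) / s k) 0 - ζ p.1 * zz (s k) p i) := by
          have e2 : J (s k) p i - p.1 i = s k * zz (s k) p i := by
            rw [J_eq_zz (s k) hsk p]; simp
          rw [e2, mul_sub, mul_max_of_nonneg _ _ hsk.le, mul_zero]
          congr 1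
          · congr 1; field_simp
          · ring
        rw [e1, abs_mul, abs_of_pos hsk]
        calc 2 / s k ^ 2 * (|v k p.1 - v k (update p.1 i (J (s k) p i))| * (s k * _)) ≤
            2 / s k ^ 2 * ((Kv * (s k * (|p.1 i| + |p.2 i|))) * (s k *
              |max ((W h l p.1 (J (s k) p) - W h l (update p.1 i (J (s k) p i)) (J (s k) p)) /
                s k) 0 - ζ p.1 * zz (s k) p i|)) := by
              apply mul_le_mul_of_nonneg_left _ (by positivity)
              exact mul_le_mul_of_nonneg_right (bv k p) (by positivity)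
          _ = _ := by field_simp
      · rw [abs_zero, mul_zero, mul_zero]
    have hb2 : ∀ k (p : (Fin n → ℝ) × (Fin n → ℝ)),
        |if p.1 i < J (s k) p i then (max ((W h l p.1 (J (s k) p) -
          W h l (update p.1 i (J (s k) p i)) (J (s k) p)) / s k) 0 - ζ p.1 * zz (s k) p i)
          else 0| ≤ 2 * Kh * (|p.1 i| + |p.2 i|) := by
      intro k p
      have hsk := hs0 k
      split_ifs
      · have h1 := bB k p
        have h2 := bζ k p
        have e1 : max ((W h l p.1 (J (s k) p) -
          W h l (update p.1 i (J (s k) p i)) (J (s k) p)) / s k) 0 - ζ p.1 * zz (s k) p i =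
          (max (W h l p.1 (J (s k) p) - W h l (update p.1 i (J (s k) p i)) (J (s k) p)) 0 -
            ζ p.1 * (J (s k) p i - p.1 i)) / s k := by
          have e2 : J (s k) p i - p.1 i = s k * zz (s k) p i := by
            rw [J_eq_zz (s k) hsk p]; simp
          have e3 : max ((W h l p.1 (J (s k) p) -
              W h l (update p.1 i (J (s k) p i)) (J (s k) p)) / s k) 0 =
              max (W h l p.1 (J (s k) p) -
              W h l (update p.1 i (J (s k) p i)) (J (s k) p)) 0 / s k := by
            rw [← max_div_div_right hsk.le, zero_div]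
          rw [e2, e3, sub_div]
          congr 1
          field_simp
        rw [e1, abs_div, abs_of_pos hsk, div_le_iff₀ hsk]
        calc |max (W h l p.1 (J (s k) p) - W h l (update p.1 i (J (s k) p i)) (J (s k) p)) 0 -
            ζ p.1 * (J (s k) p i - p.1 i)| ≤ _ + _ := abs_sub _ _
          _ ≤ Kh * (s k * (|p.1 i| + |p.2 i|)) + Kh * (s k * (|p.1 i| + |p.2 i|)) :=
            add_le_add h1 h2
          _ = _ := by ring
      · rw [abs_zero]; positivity
    apply dct0
      (fun p => 4 * Kv * Kh * (|p.1 i| + |p.2 i|) ^ 2)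
    · intro k
      have : Measurable fun p : (Fin n → ℝ) × (Fin n → ℝ) => (2 / s k ^ 2) *
        (if p.1 i < J (s k) p i then (v k p.1 - v k (update p.1 i (J (s k) p i))) *
        (max (W h l p.1 (J (s k) p) - W h l (update p.1 i (J (s k) p i)) (J (s k) p)) 0 -
        ζ p.1 * (J (s k) p i - p.1 i)) else 0) := by
        apply Measurable.const_mul
        apply Measurable.ite (measurableSet_up (s k) i) _ measurable_const
        exact (mdv k).mul ((mAB k).sub ((mζ.comp measurable_fst).mul ((mJi k).sub mxi)))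
      exact this.aestronglyMeasurable
    · exact (integrable_coord_sq i).const_mul _
    · intro k
      refine Eventually.of_forall fun p => ?_
      refine (hb1 k p).trans ?_
      calc (2 * Kv * (|p.1 i| + |p.2 i|)) * _ ≤ (2 * Kv * (|p.1 i| + |p.2 i|)) *
          (2 * Kh * (|p.1 i| + |p.2 i|)) := mul_le_mul_of_nonneg_left (hb2 k p) (by positivity)
        _ = _ := by ring
    · filter_upwards [ae_fst (ae_diff h Kh hKh hh)] with p hp1
      apply squeeze_zero_norm (fun k => hb1 k p)
      have t1 := (AB_tendsto h s hs0 hs1 hs l hl i hi p hp1).max (tendsto_const_nhds (x := (0 : ℝ)))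
      have hz : Tendsto (fun k => zz (s k) p i) atTop (𝓝 (p.2 i)) :=
        (tendsto_pi_nhds.1 (zz_tendsto s hs0 hs1 hs p)) i
      have t2 := t1.sub (hz.const_mul (ζ p.1))
      have hJz : ∀ k, p.1 i < J (s k) p i ↔ 0 < zz (s k) p i := by
        intro k
        rw [J_eq_zz (s k) (hs0 k) p]
        simp [hs0 k]
      have key : Tendsto (fun k => if p.1 i < J (s k) p i then (max ((W h l p.1 (J (s k) p) -
          W h l (update p.1 i (J (s k) p i)) (J (s k) p)) / s k) 0 - ζ p.1 * zz (s k) p i)
          else 0) atTop (𝓝 0) := by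
        rcases lt_or_ge (p.2 i) 0 with hy | hy
        · refine tendsto_const_nhds.congr' ?_
          filter_upwards [hz.eventually_lt tendsto_const_nhds hy] with k hk
          rw [if_neg (fun h' => (not_lt.2 hk.le) ((hJz k).1 h'))]
        · have e2 : max (-(p.2 i * dd h i p.1)) 0 - ζ p.1 * p.2 i = 0 := by
            have : max (-(p.2 i * dd h i p.1)) 0 = p.2 i * max (-dd h i p.1) 0 := by
              rw [mul_max_of_nonneg _ _ hy, mul_zero]
              congr 1; ring
            rw [this]
            simp only [hζdef]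
            ring
          rw [e2] at t2
          apply squeeze_zero_norm (a := fun k => ‖max ((W h l p.1 (J (s k) p) -
            W h l (update p.1 i (J (s k) p i)) (J (s k) p)) / s k) 0 - ζ p.1 * zz (s k) p i‖)
          · intro k
            split_ifs
            · exact le_rfl
            · rw [norm_zero]; exact norm_nonneg _
          · simpa using t2.norm
      have := key.abs.const_mul (2 * Kv * (|p.1 i| + |p.2 i|))
      simpa using this
  -- identification
  have hident : ∀ k, (2 / s k ^ 2) * ∫ p, v k p.1 * (W h l p.1 (J (s k) p) -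
      W h (i :: l) p.1 (J (s k) p)) ∂(PP n) = (∫ p, (2 / s k ^ 2) * (if p.1 i < J (s k) p i then
      (v k p.1 - v k (update p.1 i (J (s k) p i))) *
      (max (W h l p.1 (J (s k) p) - W h l (update p.1 i (J (s k) p i)) (J (s k) p)) 0 -
        ζ p.1 * (J (s k) p i - p.1 i)) else 0) ∂(PP n)) + UU (s k) (v k) ζ i := by
    intro k
    have hsk := hs0 k
    rw [flux (s k) (hs0 k).le (hs1 k) h mh C hC (v k) (mv k) D (hD k) l i hi, integral_const_mul]
    unfold UU
    rw [← mul_add]
    congr 1
    have i1 : Integrable (fun p : (Fin n → ℝ) × (Fin n → ℝ) => if p.1 i < J (s k) p i then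
      (v k p.1 - v k (update p.1 i (J (s k) p i))) *
      (max (W h l p.1 (J (s k) p) - W h l (update p.1 i (J (s k) p i)) (J (s k) p)) 0 -
        ζ p.1 * (J (s k) p i - p.1 i)) else 0) (PP n) := by
      refine ((integrable_coord_sq i).const_mul (2 * Kv * Kh * s k ^ 2)).mono'
        (Measurable.aestronglyMeasurable ?_) (Eventually.of_forall fun p => ?_)
      · apply Measurable.ite (measurableSet_up (s k) i) _ measurable_const
        exact (mdv k).mul ((mAB k).sub ((mζ.comp measurable_fst).mul ((mJi k).sub mxi)))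
      · split_ifs
        · rw [Real.norm_eq_abs, abs_mul]
          calc |v k p.1 - v k (update p.1 i (J (s k) p i))| * |max (W h l p.1 (J (s k) p) -
              W h l (update p.1 i (J (s k) p i)) (J (s k) p)) 0 - ζ p.1 * (J (s k) p i - p.1 i)| ≤
              (Kv * (s k * (|p.1 i| + |p.2 i|))) * (Kh * (s k * (|p.1 i| + |p.2 i|)) +
                Kh * (s k * (|p.1 i| + |p.2 i|))) := by
                apply mul_le_mul (bv k p) _ (abs_nonneg _) (by positivity)
                exact (abs_sub _ _).trans (add_le_add (bB k p) (bζ k p))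
            _ = _ := by ring
        · rw [norm_zero]; positivity
    have i2 : Integrable (fun p : (Fin n → ℝ) × (Fin n → ℝ) => if p.1 i < J (s k) p i then
      (v k p.1 - v k (update p.1 i (J (s k) p i))) * (ζ p.1 * (J (s k) p i - p.1 i)) else 0)
        (PP n) := by
      refine ((integrable_coord_sq i).const_mul (Kv * Kh * s k ^ 2)).mono'
        (Measurable.aestronglyMeasurable ?_) (Eventually.of_forall fun p => ?_)
      · apply Measurable.ite (measurableSet_up (s k) i) _ measurable_const
        exact (mdv k).mul ((mζ.comp measurable_fst).mul ((mJi k).sub mxi))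
      · split_ifs
        · rw [Real.norm_eq_abs, abs_mul]
          calc |v k p.1 - v k (update p.1 i (J (s k) p i))| * |ζ p.1 * (J (s k) p i - p.1 i)| ≤
              (Kv * (s k * (|p.1 i| + |p.2 i|))) * (Kh * (s k * (|p.1 i| + |p.2 i|))) :=
                mul_le_mul (bv k p) (bζ k p) (abs_nonneg _) (by positivity)
            _ = _ := by ring
        · rw [norm_zero]; positivity
    rw [← integral_add i1 i2]
    apply integral_congr_ae
    refine Eventually.of_forall fun p => ?_
    dsimp only
    split_ifs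
    · ring
    · ring
  -- Steps 2 and 3
  have hUU : Tendsto (fun k => UU (s k) (v k) ζ i) atTop (𝓝 0) := by
    rw [Metric.tendsto_atTop]
    intro ε hε
    obtain ⟨f, Λ, hΛ, hf1, hf2, hf3⟩ := lip_approx_w i ζ mζ Kh hKh hζ (ε / (4 * (Kv + 1)))
      (by positivity)
    have hf4 := UU_lip_tendsto v D mv hD s hs0 hs1 hv0 i f Kh Λ hΛ hf1 hf2
    rw [Metric.tendsto_atTop] at hf4
    obtain ⟨N, hN⟩ := hf4 (ε / 2) (by positivity)
    refine ⟨N, fun k hk => ?_⟩
    have h1 := hN k hk
    rw [Real.dist_eq, sub_zero] at h1 ⊢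
    have h2 := UU_stab v Kv hKv mv hv s hs0 hs1 i ζ f Kh mζ (meas_of_lip f Λ hΛ hf1) hζ hf2 k
    have h3 : 2 * Kv * ∫ p, (|p.1 i| + |p.2 i|) ^ 2 * |ζ p.1 - f p.1| ∂(PP n) ≤ ε / 2 := by
      calc 2 * Kv * ∫ p, (|p.1 i| + |p.2 i|) ^ 2 * |ζ p.1 - f p.1| ∂(PP n) ≤
          2 * Kv * (ε / (4 * (Kv + 1))) := mul_le_mul_of_nonneg_left hf3 (by positivity)
        _ = ε / 2 * (Kv / (Kv + 1)) := by field_simp; ring
        _ ≤ ε / 2 * 1 := by
          apply mul_le_mul_of_nonneg_left _ (by positivity)
          rw [div_le_one (by positivity)]; linarith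
        _ = ε / 2 := mul_one _
    calc |UU (s k) (v k) ζ i| = |(UU (s k) (v k) ζ i - UU (s k) (v k) f i) +
          UU (s k) (v k) f i| := by ring_nf
      _ ≤ |UU (s k) (v k) ζ i - UU (s k) (v k) f i| + |UU (s k) (v k) f i| := abs_add_le _ _
      _ < ε := by linarith
  have := step1.add hUU
  rw [add_zero] at this
  exact this.congr (fun k => (hident k).symm)

end

end MP04ae38
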