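import Pool.Agent.Lib.MP_04ae38_an.Step

/-!
# Exchangeability: flux identity and `L²` contraction
-/

open Set Function MeasureTheory ProbabilityTheory Filter Topology

namespace MP04ae38

variable {n : ℕ}

/-- law of the pair (position, noise) -/
noncomputable def PP (n : ℕ) : Measure ((Fin n → ℝ) × (Fin n → ℝ)) := (γ n).prod (γ n)

instance : IsProbabilityMeasure (PP n) := by unfold PP; infer_instance

/-- proposed jump as a function of the pair -/
noncomputable def J (s : ℝ) (p : (Fin n → ℝ) × (Fin n → ℝ)) : Fin n → ℝ := jump s p.1 p.2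

theorem measurable_J (s : ℝ) : Measurable (J (n := n) s) := measurable_jump s

theorem swp_fst (s : ℝ) (i : Fin n) (p : (Fin n → ℝ) × (Fin n → ℝ)) :
    (swp s i p).1 = update p.1 i (J s p i) := rfl

theorem J_swp (s : ℝ) (hs0 : 0 ≤ s) (hs1 : s ≤ 1) (i : Fin n)
    (p : (Fin n → ℝ) × (Fin n → ℝ)) : J s (swp s i p) = update (J s p) i (p.1 i) := by
  have hc2 : √(1 - s ^ 2) ^ 2 = 1 - s ^ 2 := Real.sq_sqrt (by nlinarith)
  funext j
  by_cases hj : j = i
  · subst hj
    simp only [J, jump, swp, update_self]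
    calc √(1 - s ^ 2) * (√(1 - s ^ 2) * p.1 j + s * p.2 j) +
          s * (s * p.1 j - √(1 - s ^ 2) * p.2 j) = (√(1 - s ^ 2) ^ 2 + s ^ 2) * p.1 j := by ring
      _ = p.1 j := by rw [hc2]; ring
  · simp [J, jump, swp, update_of_ne hj]

theorem swp_mp' (s : ℝ) (hs0 : 0 ≤ s) (hs1 : s ≤ 1) (i : Fin n) :
    MeasurePreserving (swp s i) (PP n) (PP n) :=
  swp_mp s (by linarith) hs1 i

theorem W_swp (s : ℝ) (hs0 : 0 ≤ s) (hs1 : s ≤ 1) (u : (Fin n → ℝ) → ℝ) (l : List (Fin n))
    (i : Fin n) (hi : i ∉ l) (p : (Fin n → ℝ) × (Fin n → ℝ)) :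
    W u l (swp s i p).1 (J s (swp s i p)) = W u l (update p.1 i (J s p i)) (J s p) := by
  rw [J_swp s hs0 hs1, swp_fst]
  apply W_congr
  intro j hj
  have : j ≠ i := fun h => hi (h ▸ hj)
  rw [update_of_ne this]

theorem W_swp' (s : ℝ) (hs0 : 0 ≤ s) (hs1 : s ≤ 1) (u : (Fin n → ℝ) → ℝ) (l : List (Fin n))
    (i : Fin n) (hi : i ∉ l) (p : (Fin n → ℝ) × (Fin n → ℝ)) :
    W u l (update (swp s i p).1 i (J s (swp s i p) i)) (J s (swp s i p)) =
      W u l p.1 (J s p) := by
  rw [J_swp s hs0 hs1, swp_fst, update_self, update_idem, update_eq_self]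
  apply W_congr
  intro j hj
  have : j ≠ i := fun h => hi (h ▸ hj)
  rw [update_of_ne this]

theorem measurable_upd (s : ℝ) (i : Fin n) :
    Measurable fun p : (Fin n → ℝ) × (Fin n → ℝ) => update p.1 i (J s p i) := by
  apply measurable_pi_lambda
  intro j
  by_cases h : j = i
  · subst h
    simp only [update_self]
    exact (measurable_pi_apply j).comp (measurable_J s)
  · simp only [update_of_ne h]
    exact (measurable_pi_apply j).comp measurable_fst

theorem measurable_WA (s : ℝ) (u : (Fin n → ℝ) → ℝ) (hu : Measurable u) (l : List (Fin n)) :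
    Measurable fun p : (Fin n → ℝ) × (Fin n → ℝ) => W u l p.1 (J s p) :=
  measurable_WJ s u hu l

theorem measurable_WB (s : ℝ) (u : (Fin n → ℝ) → ℝ) (hu : Measurable u) (l : List (Fin n))
    (i : Fin n) : Measurable fun p : (Fin n → ℝ) × (Fin n → ℝ) =>
      W u l (update p.1 i (J s p i)) (J s p) :=
  (measurable_W u hu l).comp ((measurable_upd s i).prodMk (measurable_J s))

theorem measurableSet_up (s : ℝ) (i : Fin n) :
    MeasurableSet {p : (Fin n → ℝ) × (Fin n → ℝ) | p.1 i < J s p i} :=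
  measurableSet_lt ((measurable_pi_apply i).comp measurable_fst)
    ((measurable_pi_apply i).comp (measurable_J s))

/-- The flux identity. -/
theorem flux (s : ℝ) (hs0 : 0 ≤ s) (hs1 : s ≤ 1) (u : (Fin n → ℝ) → ℝ) (hu : Measurable u) (C : ℝ)
    (hC : ∀ p, |u p| ≤ C) (ψ : (Fin n → ℝ) → ℝ) (hψ : Measurable ψ) (D : ℝ)
    (hD : ∀ p, |ψ p| ≤ D) (l : List (Fin n)) (i : Fin n) (hi : i ∉ l) :
    ∫ p, ψ p.1 * (W u l p.1 (J s p) - W u (i :: l) p.1 (J s p)) ∂(PP n) =
    ∫ p, (if p.1 i < J s p i then (ψ p.1 - ψ (update p.1 i (J s p i))) *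
      max (W u l p.1 (J s p) - W u l (update p.1 i (J s p i)) (J s p)) 0 else 0) ∂(PP n) := by
  have hD0 : 0 ≤ D := (abs_nonneg _).trans (hD 0)
  have hC0 : 0 ≤ C := (abs_nonneg _).trans (hC 0)
  set A : (Fin n → ℝ) × (Fin n → ℝ) → ℝ := fun p => W u l p.1 (J s p) with hA
  set B : (Fin n → ℝ) × (Fin n → ℝ) → ℝ := fun p => W u l (update p.1 i (J s p i)) (J s p) with hB
  have mA : Measurable A := measurable_WA s u hu l
  have mB : Measurable B := measurable_WB s u hu l i
  have bA : ∀ p, |A p| ≤ C := fun p => abs_W_le u C hC l _ _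
  have bB : ∀ p, |B p| ≤ C := fun p => abs_W_le u C hC l _ _
  -- two pieces
  let Z1 : (Fin n → ℝ) × (Fin n → ℝ) → ℝ := fun p =>
    if p.1 i < J s p i then ψ p.1 * max (A p - B p) 0 else 0
  let Z2 : (Fin n → ℝ) × (Fin n → ℝ) → ℝ := fun p =>
    if p.1 i < J s p i then 0 else ψ p.1 * max (B p - A p) 0
  let Z3 : (Fin n → ℝ) × (Fin n → ℝ) → ℝ := fun p =>
    if p.1 i < J s p i then ψ (update p.1 i (J s p i)) * max (A p - B p) 0 else 0
  have mψ1 : Measurable fun p : (Fin n → ℝ) × (Fin n → ℝ) => ψ p.1 := hψ.comp measurable_fst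
  have mψ2 : Measurable fun p : (Fin n → ℝ) × (Fin n → ℝ) => ψ (update p.1 i (J s p i)) :=
    hψ.comp (measurable_upd s i)
  have mZ1 : Measurable Z1 := Measurable.ite (measurableSet_up s i)
    (mψ1.mul ((mA.sub mB).max measurable_const)) measurable_const
  have mZ2 : Measurable Z2 := Measurable.ite (measurableSet_up s i) measurable_const
    (mψ1.mul ((mB.sub mA).max measurable_const))
  have mZ3 : Measurable Z3 := Measurable.ite (measurableSet_up s i)
    (mψ2.mul ((mA.sub mB).max measurable_const)) measurable_const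
  have bmax : ∀ a b : ℝ, |a| ≤ C → |b| ≤ C → |max (a - b) 0| ≤ 2 * C := by
    intro a b ha hb
    rw [abs_of_nonneg (le_max_right _ _)]
    apply max_le _ (by positivity)
    linarith [(abs_le.1 ha).2, (abs_le.1 hb).1]
  have iZ1 : Integrable Z1 (PP n) := by
    apply Integrable.of_bound mZ1.aestronglyMeasurable (D * (2 * C))
    refine Eventually.of_forall fun p => ?_
    simp only [Z1]
    split_ifs
    · rw [Real.norm_eq_abs, abs_mul]
      exact mul_le_mul (hD _) (bmax _ _ (bA p) (bB p)) (abs_nonneg _) hD0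
    · rw [norm_zero]; positivity
  have iZ2 : Integrable Z2 (PP n) := by
    apply Integrable.of_bound mZ2.aestronglyMeasurable (D * (2 * C))
    refine Eventually.of_forall fun p => ?_
    simp only [Z2]
    split_ifs
    · rw [norm_zero]; positivity
    · rw [Real.norm_eq_abs, abs_mul]
      exact mul_le_mul (hD _) (bmax _ _ (bB p) (bA p)) (abs_nonneg _) hD0
  have iZ3 : Integrable Z3 (PP n) := by
    apply Integrable.of_bound mZ3.aestronglyMeasurable (D * (2 * C))
    refine Eventually.of_forall fun p => ?_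
    simp only [Z3]
    split_ifs
    · rw [Real.norm_eq_abs, abs_mul]
      exact mul_le_mul (hD _) (bmax _ _ (bA p) (bB p)) (abs_nonneg _) hD0
    · rw [norm_zero]; positivity
  have e1 : ∀ p, ψ p.1 * (W u l p.1 (J s p) - W u (i :: l) p.1 (J s p)) = Z1 p - Z2 p := by
    intro p
    simp only [Z1, Z2, W]
    split_ifs with h
    · rw [sub_zero]
      congr 1
      change A p - min (A p) (B p) = max (A p - B p) 0
      rcases le_total (A p) (B p) with h' | h'
      · rw [min_eq_left h', max_eq_right (by linarith)]; ring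
      · rw [min_eq_right h', max_eq_left (by linarith)]
    · rw [zero_sub, ← mul_neg]
      congr 1
      change A p - max (A p) (B p) = -max (B p - A p) 0
      rcases le_total (A p) (B p) with h' | h'
      · rw [max_eq_right h', max_eq_left (by linarith)]; ring
      · rw [max_eq_left h', max_eq_right (by linarith)]; ring
  have e2 : ∫ p, Z2 p ∂(PP n) = ∫ p, Z3 p ∂(PP n) := by
    have hmp := swp_mp' s hs0 hs1 i
    conv_lhs => rw [← hmp.map_eq]
    rw [integral_map hmp.measurable.aemeasurable mZ2.aestronglyMeasurable]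
    apply integral_congr_ae
    refine Eventually.of_forall fun p => ?_
    simp only [Z2, Z3, A, B]
    rw [W_swp s hs0 hs1 u l i hi p, W_swp' s hs0 hs1 u l i hi p, swp_fst, update_self,
      J_swp s hs0 hs1, update_self]
    rcases lt_trichotomy (p.1 i) (J s p i) with h | h | h
    · rw [if_neg (not_lt.2 h.le), if_pos h]
    · rw [h, if_neg (lt_irrefl _), if_neg (lt_irrefl _)]
      have : update p.1 i (J s p i) = p.1 := by rw [← h, update_eq_self]
      rw [this]; simp
    · rw [if_pos h, if_neg (not_lt.2 h.le)]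
  have e3 : ∀ p, (if p.1 i < J s p i then (ψ p.1 - ψ (update p.1 i (J s p i))) *
      max (W u l p.1 (J s p) - W u l (update p.1 i (J s p i)) (J s p)) 0 else 0) = Z1 p - Z3 p := by
    intro p
    simp only [Z1, Z3, A, B]
    split_ifs
    · ring
    · ring
  rw [integral_congr_ae (Eventually.of_forall e1), integral_congr_ae (Eventually.of_forall e3),
    integral_sub iZ1 iZ2, integral_sub iZ1 iZ3, e2]

theorem minmax_sq (a b c d : ℝ) : (min a b - min c d) ^ 2 + (max a b - max c d) ^ 2 ≤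
    (a - c) ^ 2 + (b - d) ^ 2 := by
  rcases le_total a b with h1 | h1 <;> rcases le_total c d with h2 | h2
  · rw [min_eq_left h1, min_eq_left h2, max_eq_right h1, max_eq_right h2]
  · rw [min_eq_left h1, min_eq_right h2, max_eq_right h1, max_eq_left h2]
    nlinarith [mul_nonneg (sub_nonneg.2 h1) (sub_nonneg.2 h2)]
  · rw [min_eq_right h1, min_eq_left h2, max_eq_left h1, max_eq_right h2]
    nlinarith [mul_nonneg (sub_nonneg.2 h1) (sub_nonneg.2 h2)]
  · rw [min_eq_right h1, min_eq_right h2, max_eq_left h1, max_eq_left h2]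
    linarith

theorem W_sq_le (s : ℝ) (hs0 : 0 ≤ s) (hs1 : s ≤ 1) (u v : (Fin n → ℝ) → ℝ) (hu : Measurable u)
    (hv : Measurable v) (C : ℝ) (hCu : ∀ p, |u p| ≤ C) (hCv : ∀ p, |v p| ≤ C) :
    ∀ (l : List (Fin n)), l.Nodup →
    ∫ p, (W u l p.1 (J s p) - W v l p.1 (J s p)) ^ 2 ∂(PP n) ≤
    ∫ p, (u p.1 - v p.1) ^ 2 ∂(PP n) := by
  have hC0 : 0 ≤ C := (abs_nonneg _).trans (hCu 0)
  intro l
  induction l with
  | nil => intro _; exact le_rfl
  | cons i l ih =>
    intro hnd
    have hi : i ∉ l := (List.nodup_cons.1 hnd).1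
    refine le_trans ?_ (ih (List.nodup_cons.1 hnd).2)
    have hmp := swp_mp' s hs0 hs1 i
    have bsq : ∀ a b : ℝ, |a| ≤ C → |b| ≤ C → |(a - b) ^ 2| ≤ (2 * C) ^ 2 := by
      intro a b ha hb
      rw [abs_of_nonneg (sq_nonneg _)]
      apply sq_le_sq'
      · linarith [(abs_le.1 ha).1, (abs_le.1 hb).2]
      · linarith [(abs_le.1 ha).2, (abs_le.1 hb).1]
    let Q : (Fin n → ℝ) × (Fin n → ℝ) → ℝ := fun p =>
      (W u (i :: l) p.1 (J s p) - W v (i :: l) p.1 (J s p)) ^ 2
    let R : (Fin n → ℝ) × (Fin n → ℝ) → ℝ := fun p =>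
      (W u l p.1 (J s p) - W v l p.1 (J s p)) ^ 2
    have mQ : Measurable Q := ((measurable_WA s u hu _).sub (measurable_WA s v hv _)).pow_const 2
    have mR : Measurable R := ((measurable_WA s u hu _).sub (measurable_WA s v hv _)).pow_const 2
    have iQ : Integrable Q (PP n) := Integrable.of_bound mQ.aestronglyMeasurable ((2 * C) ^ 2)
      (Eventually.of_forall fun p => bsq _ _ (abs_W_le u C hCu _ _ _) (abs_W_le v C hCv _ _ _))
    have iR : Integrable R (PP n) := Integrable.of_bound mR.aestronglyMeasurable ((2 * C) ^ 2)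
      (Eventually.of_forall fun p => bsq _ _ (abs_W_le u C hCu _ _ _) (abs_W_le v C hCv _ _ _))
    have iQ' : Integrable (Q ∘ swp s i) (PP n) := hmp.integrable_comp_of_integrable iQ
    have iR' : Integrable (R ∘ swp s i) (PP n) := hmp.integrable_comp_of_integrable iR
    have eQ : ∫ p, (Q ∘ swp s i) p ∂(PP n) = ∫ p, Q p ∂(PP n) := by
      conv_rhs => rw [← hmp.map_eq]
      rw [integral_map hmp.measurable.aemeasurable mQ.aestronglyMeasurable]
      rfl
    have eR : ∫ p, (R ∘ swp s i) p ∂(PP n) = ∫ p, R p ∂(PP n) := by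
      conv_rhs => rw [← hmp.map_eq]
      rw [integral_map hmp.measurable.aemeasurable mR.aestronglyMeasurable]
      rfl
    have hpt : ∀ p, Q p + (Q ∘ swp s i) p ≤ R p + (R ∘ swp s i) p := by
      intro p
      simp only [Q, R, comp_apply, W]
      rw [W_swp s hs0 hs1 u l i hi p, W_swp' s hs0 hs1 u l i hi p,
        W_swp s hs0 hs1 v l i hi p, W_swp' s hs0 hs1 v l i hi p, swp_fst, update_self,
        J_swp s hs0 hs1, update_self]
      rcases lt_trichotomy (p.1 i) (J s p i) with h | h | h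
      · rw [if_pos h, if_pos h, if_neg (not_lt.2 h.le), if_neg (not_lt.2 h.le)]
        rw [max_comm (W u l (update p.1 i (J s p i)) (J s p)),
          max_comm (W v l (update p.1 i (J s p i)) (J s p))]
        exact minmax_sq _ _ _ _
      · have e : update p.1 i (J s p i) = p.1 := by rw [← h, update_eq_self]
        rw [e, h]
        simp
      · rw [if_neg (not_lt.2 h.le), if_neg (not_lt.2 h.le), if_pos h, if_pos h]
        rw [min_comm (W u l (update p.1 i (J s p i)) (J s p)),
          min_comm (W v l (update p.1 i (J s p i)) (J s p)), add_comm]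
        exact minmax_sq _ _ _ _
    have hmono := integral_mono (iQ.add iQ') (iR.add iR') hpt
    have h1 : ∫ p, (Q + Q ∘ swp s i) p ∂(PP n) = ∫ p, Q p ∂(PP n) + ∫ p, (Q ∘ swp s i) p ∂(PP n) :=
      integral_add' iQ iQ'
    have h2 : ∫ p, (R + R ∘ swp s i) p ∂(PP n) = ∫ p, R p ∂(PP n) + ∫ p, (R ∘ swp s i) p ∂(PP n) :=
      integral_add' iR iR'
    rw [h1, h2, eQ, eR] at hmono
    linarith

theorem integral_S_mul (s : ℝ) (u : (Fin n → ℝ) → ℝ) (hu : Measurable u)
    (C : ℝ) (hC : ∀ p, |u p| ≤ C) (w : (Fin n → ℝ) → ℝ) (hw : Measurable w) (D : ℝ)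
    (hD : ∀ p, |w p| ≤ D) :
    ∫ x, w x * S s u x ∂(γ n) = ∫ p, w p.1 * W u (List.finRange n) p.1 (J s p) ∂(PP n) := by
  have hD0 : 0 ≤ D := (abs_nonneg _).trans (hD 0)
  have hint : Integrable (fun p : (Fin n → ℝ) × (Fin n → ℝ) =>
      w p.1 * W u (List.finRange n) p.1 (J s p)) ((γ n).prod (γ n)) := by
    apply Integrable.of_bound ((hw.comp measurable_fst).mul
      (measurable_WA s u hu _)).aestronglyMeasurable (D * C)
    refine Eventually.of_forall fun p => ?_
    rw [Real.norm_eq_abs, Pi.mul_apply, abs_mul]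
    exact mul_le_mul (hD _) (abs_W_le u C hC _ _ _) (abs_nonneg _) hD0
  unfold PP
  rw [integral_prod _ hint]
  apply integral_congr_ae
  refine Eventually.of_forall fun x => ?_
  simp only [S]
  rw [← integral_const_mul]
  rfl

theorem integral_fst (w : (Fin n → ℝ) → ℝ) (hw : Measurable w) :
    ∫ p, w p.1 ∂(PP n) = ∫ x, w x ∂(γ n) := by
  have h : MeasurePreserving (Prod.fst : (Fin n → ℝ) × (Fin n → ℝ) → _) (PP n) (γ n) := by
    unfold PP; exact measurePreserving_fst
  rw [← h.map_eq, integral_map h.measurable.aemeasurable hw.aestronglyMeasurable]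

/-- Monotonicity of `I - S`. -/
theorem mono_S (s : ℝ) (hs0 : 0 ≤ s) (hs1 : s ≤ 1) (u v : (Fin n → ℝ) → ℝ) (hu : Measurable u)
    (hv : Measurable v) (C : ℝ) (hCu : ∀ p, |u p| ≤ C) (hCv : ∀ p, |v p| ≤ C) :
    0 ≤ ∫ x, ((u x - S s u x) - (v x - S s v x)) * (u x - v x) ∂(γ n) := by
  have hC0 : 0 ≤ C := (abs_nonneg _).trans (hCu 0)
  have hw : Measurable fun x => u x - v x := hu.sub hv
  have hwb : ∀ p, |u p - v p| ≤ 2 * C := by
    intro p
    rw [abs_le]
    constructor
    · linarith [(abs_le.1 (hCu p)).1, (abs_le.1 (hCv p)).2]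
    · linarith [(abs_le.1 (hCu p)).2, (abs_le.1 (hCv p)).1]
  have bi : ∀ (f : (Fin n → ℝ) → ℝ) (D : ℝ), Measurable f → (∀ p, |f p| ≤ D) →
      Integrable f (γ n) := fun f D hf hD =>
    Integrable.of_bound hf.aestronglyMeasurable D (Eventually.of_forall hD)
  have mul_b : ∀ (f : (Fin n → ℝ) → ℝ), (∀ p, |f p| ≤ C) →
      ∀ p, |(u p - v p) * f p| ≤ (2 * C) * C := by
    intro f hf p
    rw [abs_mul]
    exact mul_le_mul (hwb p) (hf p) (abs_nonneg _) (by positivity)
  have i1 := bi (fun x => (u x - v x) * S s u x) _ (hw.mul (measurable_S s u hu))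
    (mul_b _ (abs_S_le s u C hCu))
  have i2 := bi (fun x => (u x - v x) * S s v x) _ (hw.mul (measurable_S s v hv))
    (mul_b _ (abs_S_le s v C hCv))
  have i3 : Integrable (fun x => (u x - v x) ^ 2) (γ n) := by
    apply bi _ ((2 * C) ^ 2) (hw.pow_const 2)
    intro p
    rw [abs_pow]
    exact pow_le_pow_left₀ (abs_nonneg _) (hwb p) 2
  have e1 : ∀ x, ((u x - S s u x) - (v x - S s v x)) * (u x - v x) =
      (u x - v x) ^ 2 - ((u x - v x) * S s u x - (u x - v x) * S s v x) := by
    intro x; ring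
  have i4 : Integrable (fun x => (u x - v x) * S s u x - (u x - v x) * S s v x) (γ n) := i1.sub i2
  rw [integral_congr_ae (Eventually.of_forall e1), integral_sub i3 i4, integral_sub i1 i2,
    integral_S_mul s u hu C hCu _ hw _ hwb, integral_S_mul s v hv C hCv _ hw _ hwb]
  have bi' : ∀ (f : (Fin n → ℝ) × (Fin n → ℝ) → ℝ) (D : ℝ), Measurable f → (∀ p, |f p| ≤ D) →
      Integrable f (PP n) := fun f D hf hD =>
    Integrable.of_bound hf.aestronglyMeasurable D (Eventually.of_forall hD)
  have j1 := bi' (fun p => (u p.1 - v p.1) * W u (List.finRange n) p.1 (J s p)) ((2 * C) * C)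
    ((hw.comp measurable_fst).mul (measurable_WA s u hu _)) (by
      intro p; rw [abs_mul]
      exact mul_le_mul (hwb _) (abs_W_le u C hCu _ _ _) (abs_nonneg _) (by positivity))
  have j2 := bi' (fun p => (u p.1 - v p.1) * W v (List.finRange n) p.1 (J s p)) ((2 * C) * C)
    ((hw.comp measurable_fst).mul (measurable_WA s v hv _)) (by
      intro p; rw [abs_mul]
      exact mul_le_mul (hwb _) (abs_W_le v C hCv _ _ _) (abs_nonneg _) (by positivity))
  have j3 : Integrable (fun p : (Fin n → ℝ) × (Fin n → ℝ) => (u p.1 - v p.1) ^ 2) (PP n) := by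
    apply bi' _ ((2 * C) ^ 2) ((hw.comp measurable_fst).pow_const 2)
    intro p
    rw [abs_pow]
    exact pow_le_pow_left₀ (abs_nonneg _) (hwb _) 2
  have j4 : Integrable (fun p => (W u (List.finRange n) p.1 (J s p) -
      W v (List.finRange n) p.1 (J s p)) ^ 2) (PP n) := by
    apply bi' _ ((2 * C) ^ 2) (((measurable_WA s u hu _).sub (measurable_WA s v hv _)).pow_const 2)
    intro p
    rw [abs_pow]
    apply pow_le_pow_left₀ (abs_nonneg _)
    rw [abs_le]
    have a1 := abs_le.1 (abs_W_le u C hCu (List.finRange n) p.1 (J s p))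
    have a2 := abs_le.1 (abs_W_le v C hCv (List.finRange n) p.1 (J s p))
    simp only [Pi.sub_apply]
    constructor
    · linarith [a1.1, a2.2]
    · linarith [a1.2, a2.1]
  rw [← integral_sub j1 j2]
  have hkey := W_sq_le s hs0 hs1 u v hu hv C hCu hCv (List.finRange n) (List.nodup_finRange n)
  have hfst : ∫ x, (u x - v x) ^ 2 ∂(γ n) = ∫ p, (u p.1 - v p.1) ^ 2 ∂(PP n) :=
    (integral_fst _ (hw.pow_const 2)).symm
  rw [hfst]
  have hpt : ∀ p : (Fin n → ℝ) × (Fin n → ℝ), (u p.1 - v p.1) * W u (List.finRange n) p.1 (J s p) -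
      (u p.1 - v p.1) * W v (List.finRange n) p.1 (J s p) ≤
      (1 / 2) * (u p.1 - v p.1) ^ 2 + (1 / 2) * (W u (List.finRange n) p.1 (J s p) -
      W v (List.finRange n) p.1 (J s p)) ^ 2 := by
    intro p
    nlinarith [sq_nonneg ((u p.1 - v p.1) - (W u (List.finRange n) p.1 (J s p) -
      W v (List.finRange n) p.1 (J s p)))]
  have hle := integral_mono (j1.sub j2) ((j3.const_mul (1 / 2)).add (j4.const_mul (1 / 2))) hpt
  have e2 : ∫ p : (Fin n → ℝ) × (Fin n → ℝ), ((1 / 2) * (u p.1 - v p.1) ^ 2 +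
      (1 / 2) * (W u (List.finRange n) p.1 (J s p) -
      W v (List.finRange n) p.1 (J s p)) ^ 2) ∂(PP n) =
      (1 / 2) * ∫ p, (u p.1 - v p.1) ^ 2 ∂(PP n) + (1 / 2) *
        ∫ p, (W u (List.finRange n) p.1 (J s p) - W v (List.finRange n) p.1 (J s p)) ^ 2
          ∂(PP n) := by
    rw [integral_add (j3.const_mul (1 / 2)) (j4.const_mul (1 / 2)), integral_const_mul,
      integral_const_mul]
  replace hle := hle.trans (le_of_eq e2)
  have hle' : ∫ p, ((u p.1 - v p.1) * W u (List.finRange n) p.1 (J s p) -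
      (u p.1 - v p.1) * W v (List.finRange n) p.1 (J s p)) ∂(PP n) ≤ (1 / 2) * ∫ p, (u p.1 - v p.1) ^ 2 ∂(PP n) + (1 / 2) *
        ∫ p, (W u (List.finRange n) p.1 (J s p) - W v (List.finRange n) p.1 (J s p)) ^ 2
          ∂(PP n) := hle
  linarith

end MP04ae38
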