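import Mathlib

/-!
# The coordinate game

`W u l x x'` is the value of the game in which the coordinates of `l` are processed one after the
other; coordinate `i` may jump from `x i` to `x' i`; an upward jump is decided by the minimiser,
a downward one by the maximiser.
-/

open Set Function MeasureTheory Filter Topology

namespace MP04ae38

variable {n : ℕ}

/-- Value of the game. -/
noncomputable def W (u : (Fin n → ℝ) → ℝ) : List (Fin n) → (Fin n → ℝ) → (Fin n → ℝ) → ℝ
  | [], x, _ => u x
  | i :: l, x, x' =>
      if x i < x' i then min (W u l x x') (W u l (update x i (x' i)) x')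
      else max (W u l x x') (W u l (update x i (x' i)) x')

/-- Local condition for the coupling of two games at one coordinate. -/
def LC (R : ℝ → ℝ → Prop) (x x' y y' : ℝ) : Prop :=
  (x < x' → y < y' → ∀ b, (b = y ∨ b = y') → ∃ a, (a = x ∨ a = x') ∧ R a b) ∧
  (x < x' → ¬ y < y' → ∃ a b, (a = x ∨ a = x') ∧ (b = y ∨ b = y') ∧ R a b) ∧
  (¬ x < x' → y < y' → ∀ a b, (a = x ∨ a = x') → (b = y ∨ b = y') → R a b) ∧
  (¬ x < x' → ¬ y < y' → ∀ a, (a = x ∨ a = x') → ∃ b, (b = y ∨ b = y') ∧ R a b)

theorem W_coupling (u v : (Fin n → ℝ) → ℝ) (C : ℝ) (R : Fin n → ℝ → ℝ → Prop)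
    (x' y' : Fin n → ℝ) :
    ∀ (l : List (Fin n)), l.Nodup → ∀ x y : Fin n → ℝ,
    (∀ p q : Fin n → ℝ, (∀ i ∈ l, R i (p i) (q i) ∧ (p i = x i ∨ p i = x' i) ∧
        (q i = y i ∨ q i = y' i)) → (∀ i, i ∉ l → p i = x i ∧ q i = y i) → u p - v q ≤ C) →
    (∀ i ∈ l, LC (R i) (x i) (x' i) (y i) (y' i)) →
    W u l x x' - W v l y y' ≤ C := by
  intro l
  induction l with
  | nil =>
    intro _ x y h _
    exact h x y (by simp) (by simp)
  | cons i l ih =>
    intro hnd x y h hLC
    have hil : i ∉ l := (List.nodup_cons.1 hnd).1
    have hndl : l.Nodup := (List.nodup_cons.1 hnd).2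
    -- the key recursive estimate
    have key : ∀ a b : ℝ, (a = x i ∨ a = x' i) → (b = y i ∨ b = y' i) → R i a b →
        W u l (update x i a) x' - W v l (update y i b) y' ≤ C := by
      intro a b ha hb hR
      apply ih hndl
      · intro p q h1 h2
        apply h
        · intro j hj
          by_cases hji : j = i
          · subst hji
            have := h2 j hil
            simp only [update_self] at this
            rw [this.1, this.2]
            exact ⟨hR, ha, hb⟩
          · have hjl : j ∈ l := by
              rcases List.mem_cons.1 hj with h' | h'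
              · exact absurd h' hji
              · exact h'
            have := h1 j hjl
            simpa [update_of_ne hji] using this
        · intro j hj
          have hji : j ≠ i := fun h' => hj (by simp [h'])
          have hjl : j ∉ l := fun h' => hj (by simp [h'])
          have := h2 j hjl
          simpa [update_of_ne hji] using this
      · intro j hj
        have hji : j ≠ i := fun h' => hil (h' ▸ hj)
        simpa [update_of_ne hji] using hLC j (by simp [hj])
    obtain ⟨h1, h2, h3, h4⟩ := hLC i (by simp)
    have key' : ∀ a b : ℝ, (a = x i ∨ a = x' i) → (b = y i ∨ b = y' i) → R i a b →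
        W u l (update x i a) x' ≤ C + W v l (update y i b) y' := fun a b ha hb hR => by
      linarith [key a b ha hb hR]
    have ex : ∀ a, (a = x i ∨ a = x' i) → min (W u l x x') (W u l (update x i (x' i)) x') ≤
        W u l (update x i a) x' := by
      intro a ha
      rcases ha with rfl | rfl
      · simp
      · exact min_le_right _ _
    have ey : ∀ b, (b = y i ∨ b = y' i) → 
        W v l (update y i b) y' ≤ max (W v l y y') (W v l (update y i (y' i)) y')  := by
      intro a ha
      rcases ha with rfl | rfl
      · simp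
      · exact le_max_right _ _
    by_cases hx : x i < x' i <;> by_cases hy : y i < y' i
    · have : min (W u l x x') (W u l (update x i (x' i)) x') ≤
          min (C + W v l y y') (C + W v l (update y i (y' i)) y') := by
        apply le_min
        · obtain ⟨a, ha, hR⟩ := h1 hx hy (y i) (Or.inl rfl)
          have := key' a (y i) ha (Or.inl rfl) hR
          rw [update_eq_self] at this
          exact (ex a ha).trans this
        · obtain ⟨a, ha, hR⟩ := h1 hx hy (y' i) (Or.inr rfl)
          have := key' a (y' i) ha (Or.inr rfl) hR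
          exact (ex a ha).trans this
      simp only [W, if_pos hx, if_pos hy]
      rw [min_add_add_left] at this
      linarith
    · simp only [W, if_pos hx, if_neg hy]
      obtain ⟨a, b, ha, hb, hR⟩ := h2 hx hy
      have := key' a b ha hb hR
      linarith [ex a ha, ey b hb]
    · simp only [W, if_neg hx, if_pos hy]
      have k11 := key' _ _ (Or.inl rfl) (Or.inl rfl) (h3 hx hy _ _ (Or.inl rfl) (Or.inl rfl))
      have k12 := key' _ _ (Or.inl rfl) (Or.inr rfl) (h3 hx hy _ _ (Or.inl rfl) (Or.inr rfl))
      have k21 := key' _ _ (Or.inr rfl) (Or.inl rfl) (h3 hx hy _ _ (Or.inr rfl) (Or.inl rfl))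
      have k22 := key' _ _ (Or.inr rfl) (Or.inr rfl) (h3 hx hy _ _ (Or.inr rfl) (Or.inr rfl))
      rw [update_eq_self] at k11 k12 
      rw [update_eq_self] at k11 k21
      have : max (W u l x x') (W u l (update x i (x' i)) x') ≤
        C + min (W v l y y') (W v l (update y i (y' i)) y') := by
        rw [← min_add_add_left]
        exact max_le (le_min k11 k12) (le_min k21 k22)
      linarith
    · simp only [W, if_neg hx, if_neg hy]
      have : max (W u l x x') (W u l (update x i (x' i)) x') ≤
        C + max (W v l y y') (W v l (update y i (y' i)) y') := by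
        apply max_le
        · obtain ⟨b, hb, hR⟩ := h4 hx hy (x i) (Or.inl rfl)
          have := key' (x i) b (Or.inl rfl) hb hR
          rw [update_eq_self] at this
          linarith [ey b hb]
        · obtain ⟨b, hb, hR⟩ := h4 hx hy (x' i) (Or.inr rfl)
          have := key' (x' i) b (Or.inr rfl) hb hR
          linarith [ey b hb]
      linarith

/-- Two games with the same jumps at every processed coordinate. -/
theorem W_sync (u v : (Fin n → ℝ) → ℝ) (C : ℝ) (x' : Fin n → ℝ)
    (l : List (Fin n)) (hl : l.Nodup) (x y : Fin n → ℝ) (hxy : ∀ i ∈ l, x i = y i)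
    (h : ∀ p q : Fin n → ℝ, (∀ i ∈ l, p i = q i ∧ (p i = x i ∨ p i = x' i)) →
      (∀ i, i ∉ l → p i = x i ∧ q i = y i) → u p - v q ≤ C) :
    W u l x x' - W v l y x' ≤ C := by
  apply W_coupling u v C (fun _ => Eq) x' x' l hl x y
  · intro p q h1 h2
    exact h p q (fun i hi => ⟨(h1 i hi).1, (h1 i hi).2.1⟩) h2
  · intro i hi
    rw [hxy i hi]
    refine ⟨?_, ?_, ?_, ?_⟩
    · intro _ _ b hb; exact ⟨b, hb, rfl⟩
    · intro h1 h2; exact absurd h1 h2
    · intro h1 h2; exact absurd h2 h1
    · intro _ _ a ha; exact ⟨a, ha, rfl⟩

theorem W_le (u : (Fin n → ℝ) → ℝ) (C : ℝ) (h : ∀ p, u p ≤ C) :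
    ∀ (l : List (Fin n)) (x x' : Fin n → ℝ), W u l x x' ≤ C := by
  intro l
  induction l with
  | nil => intro x x'; exact h x
  | cons i l ih =>
    intro x x'
    simp only [W]
    split_ifs
    · exact (min_le_left _ _).trans (ih _ _)
    · exact max_le (ih _ _) (ih _ _)

theorem le_W (u : (Fin n → ℝ) → ℝ) (C : ℝ) (h : ∀ p, C ≤ u p) :
    ∀ (l : List (Fin n)) (x x' : Fin n → ℝ), C ≤ W u l x x' := by
  intro l
  induction l with
  | nil => intro x x'; exact h x
  | cons i l ih =>
    intro x x'
    simp only [W]
    split_ifs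
    · exact le_min (ih _ _) (ih _ _)
    · exact (ih _ _).trans (le_max_left _ _)

theorem abs_W_le (u : (Fin n → ℝ) → ℝ) (C : ℝ) (h : ∀ p, |u p| ≤ C) 
    (l : List (Fin n)) (x x' : Fin n → ℝ) : |W u l x x'| ≤ C := by
  rw [abs_le]
  exact ⟨le_W u (-C) (fun p => (abs_le.1 (h p)).1) l x x',
    W_le u C (fun p => (abs_le.1 (h p)).2) l x x'⟩

theorem W_nonexp (u v : (Fin n → ℝ) → ℝ) (C : ℝ) (h : ∀ p, |u p - v p| ≤ C)
    (l : List (Fin n)) (x x' : Fin n → ℝ) : |W u l x x' - W v l x x'| ≤ C := by
  have aux : ∀ (u v : (Fin n → ℝ) → ℝ), (∀ p, u p - v p ≤ C) → ∀ (l : List (Fin n))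
      (x : Fin n → ℝ), W u l x x' - W v l x x' ≤ C := by
    intro u v h l
    induction l with
    | nil => intro x; exact h x
    | cons i l ih =>
      intro x
      simp only [W]
      have h1 := ih x
      have h2 := ih (update x i (x' i))
      split_ifs
      · rcases min_cases (W v l x x') (W v l (update x i (x' i)) x') with ⟨e, _⟩ | ⟨e, _⟩
        · rw [e]; linarith [min_le_left (W u l x x') (W u l (update x i (x' i)) x')]
        · rw [e]; linarith [min_le_right (W u l x x') (W u l (update x i (x' i)) x')]
      · rcases max_cases (W u l x x') (W u l (update x i (x' i)) x') with ⟨e, _⟩ | ⟨e, _⟩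
        · rw [e]; linarith [le_max_left (W v l x x') (W v l (update x i (x' i)) x')]
        · rw [e]; linarith [le_max_right (W v l x x') (W v l (update x i (x' i)) x')]
  rw [abs_le]
  constructor
  · have := aux v u (fun p => by linarith [(abs_le.1 (h p)).1]) l x
    linarith
  · exact aux u v (fun p => (abs_le.1 (h p)).2) l x

theorem measurable_W (u : (Fin n → ℝ) → ℝ) (hu : Measurable u) :
    ∀ (l : List (Fin n)), Measurable fun p : (Fin n → ℝ) × (Fin n → ℝ) => W u l p.1 p.2 := by
  intro l
  induction l with
  | nil => exact hu.comp measurable_fst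
  | cons i l ih =>
    have hup : Measurable fun p : (Fin n → ℝ) × (Fin n → ℝ) => update p.1 i (p.2 i) := by
      apply measurable_pi_lambda
      intro j
      by_cases h : j = i
      · subst h
        simp only [update_self]
        exact (measurable_pi_apply j).comp measurable_snd
      · simp only [update_of_ne h]
        exact (measurable_pi_apply j).comp measurable_fst
    have h2 : Measurable fun p : (Fin n → ℝ) × (Fin n → ℝ) =>
        W u l (update p.1 i (p.2 i)) p.2 := ih.comp (hup.prodMk measurable_snd)
    simp only [W]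
    apply Measurable.ite
    · exact measurableSet_lt ((measurable_pi_apply i).comp measurable_fst)
        ((measurable_pi_apply i).comp measurable_snd)
    · exact ih.min h2
    · exact ih.max h2

/-- `W` does not depend on the proposed jumps outside the list. -/
theorem W_congr (u : (Fin n → ℝ) → ℝ) : ∀ (l : List (Fin n)) (x x' x'' : Fin n → ℝ),
    (∀ i ∈ l, x' i = x'' i) → W u l x x' = W u l x x'' := by
  intro l
  induction l with
  | nil => intro x x' x'' _; rfl
  | cons i l ih =>
    intro x x' x'' h
    have h1 : x' i = x'' i := h i (by simp)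
    have h2 : ∀ j ∈ l, x' j = x'' j := fun j hj => h j (by simp [hj])
    simp only [W]
    rw [h1, ih x x' x'' h2, ih (update x i (x'' i)) x' x'' h2]

/-- Continuity of `W` under continuous convergence. -/
theorem W_tendsto {ι : Type*} {F : Filter ι} (hk : ι → (Fin n → ℝ) → ℝ) (h : (Fin n → ℝ) → ℝ)
    (hh : ∀ (wk : ι → (Fin n → ℝ)) (w : Fin n → ℝ), Tendsto wk F (𝓝 w) →
      Tendsto (fun k => hk k (wk k)) F (𝓝 (h w))) (zk : ι → (Fin n → ℝ)) (z : Fin n → ℝ)
    (hz : Tendsto zk F (𝓝 z)) :
    ∀ (l : List (Fin n)) (wk : ι → (Fin n → ℝ)) (w : Fin n → ℝ), Tendsto wk F (𝓝 w) →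
      Tendsto (fun k => W (hk k) l (wk k) (zk k)) F (𝓝 (W h l w z)) := by
  intro l
  induction l with
  | nil => intro wk w hw; exact hh wk w hw
  | cons i l ih =>
    intro wk w hw
    have hzi : Tendsto (fun k => zk k i) F (𝓝 (z i)) := (tendsto_pi_nhds.1 hz) i
    have hwi : Tendsto (fun k => wk k i) F (𝓝 (w i)) := (tendsto_pi_nhds.1 hw) i
    have hA := ih wk w hw
    have hup : Tendsto (fun k => update (wk k) i (zk k i)) F (𝓝 (update w i (z i))) :=
      hw.update i hzi
    have hB := ih _ _ hup
    simp only [W]
    rcases lt_trichotomy (w i) (z i) with hlt | heq | hgt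
    · have hev : ∀ᶠ k in F, wk k i < zk k i := hwi.eventually_lt hzi hlt
      rw [if_pos hlt]
      refine (hA.min hB).congr' ?_
      filter_upwards [hev] with k hk'
      rw [if_pos hk']
    · have e : update w i (z i) = w := by rw [← heq, update_eq_self]
      rw [e] at hB ⊢
      simp only [heq, lt_irrefl, if_false, max_self]
      have hmin := hA.min hB
      have hmax := hA.max hB
      rw [min_self] at hmin
      rw [max_self] at hmax
      refine tendsto_of_tendsto_of_tendsto_of_le_of_le hmin hmax ?_ ?_
      · intro k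
        dsimp only
        split_ifs
        · exact le_rfl
        · exact min_le_max
      · intro k
        dsimp only
        split_ifs
        · exact min_le_max
        · exact le_rfl
    · have hev : ∀ᶠ k in F, ¬ wk k i < zk k i := by
        filter_upwards [hzi.eventually_lt hwi hgt] with k hk'
        exact not_lt.2 hk'.le
      rw [if_neg (not_lt.2 hgt.le)]
      refine (hA.max hB).congr' ?_
      filter_upwards [hev] with k hk'
      rw [if_neg hk']

/-- Affine covariance of `W`. -/
theorem W_affine (h : (Fin n → ℝ) → ℝ) (x : Fin n → ℝ) (s : ℝ) (hs : 0 < s) (b : ℝ) :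
    ∀ (l : List (Fin n)) (w z : Fin n → ℝ),
      W (fun w => (h (x + s • w) - b) / s) l w z = (W h l (x + s • w) (x + s • z) - b) / s := by
  intro l
  induction l with
  | nil => intro w z; rfl
  | cons i l ih =>
    intro w z
    simp only [W]
    have hlt : (x + s • w) i < (x + s • z) i ↔ w i < z i := by
      simp [hs]
    have hup : x + s • update w i (z i) = update (x + s • w) i ((x + s • z) i) := by
      funext j
      by_cases hj : j = i
      · subst hj; simp
      · simp [update_of_ne hj]
    rw [ih, ih, hup]
    by_cases hc : w i < z i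
    · rw [if_pos hc, if_pos (hlt.2 hc), ← min_sub_sub_right, ← min_div_div_right hs.le]
    · rw [if_neg hc, if_neg (fun h' => hc (hlt.1 h')), ← max_sub_sub_right,
        ← max_div_div_right hs.le]

/-- For an additive functional, moving a coordinate outside the list shifts the value. -/
theorem W_linear_shift (L : (Fin n → ℝ) →ₗ[ℝ] ℝ) (l : List (Fin n)) (hl : l.Nodup)
    (j : Fin n) (hj : j ∉ l) (z : Fin n → ℝ) (a : ℝ) :
    W L l 0 z - W L l (update 0 j a) z = - (a * L (Pi.single j 1)) := by
  have hL : ∀ p q : Fin n → ℝ, (∀ i ∈ l, p i = q i) → (∀ i, i ∉ l → p i = 0 ∧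
      q i = (update (0 : Fin n → ℝ) j a) i) → L q - L p = a * L (Pi.single j 1) := by
    intro p q h1 h2
    have : q = p + a • Pi.single j 1 := by
      funext i
      by_cases hi : i ∈ l
      · have hij : i ≠ j := fun h => hj (h ▸ hi)
        simp [h1 i hi, Pi.single_eq_of_ne hij]
      · rw [(h2 i hi).2]
        simp only [Pi.add_apply, Pi.smul_apply, (h2 i hi).1, zero_add, smul_eq_mul]
        by_cases hij : i = j
        · subst hij; simp
        · simp [update_of_ne hij, Pi.single_eq_of_ne hij]
    rw [this, map_add, map_smul, smul_eq_mul]; ring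
  have e : ∀ i ∈ l, (0 : Fin n → ℝ) i = (update (0 : Fin n → ℝ) j a) i := by
    intro i hi
    have hij : i ≠ j := fun h => hj (h ▸ hi)
    simp [update_of_ne hij]
  apply le_antisymm
  · apply W_sync L L _ z l hl _ _ e
    intro p q h1 h2
    have := hL p q (fun i hi => (h1 i hi).1) h2
    linarith
  · have := W_sync L L (a * L (Pi.single j 1)) z l hl (update 0 j a) 0
      (fun i hi => (e i hi).symm) (by
        intro p q h1 h2
        have := hL q p (fun i hi => (h1 i hi).1.symm) (fun i hi => ⟨(h2 i hi).2, (h2 i hi).1⟩)
        linarith)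
    linarith

end MP04ae38
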