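import Mathlib

/-!
# Standard Gaussian facts
-/

open Set Function MeasureTheory Filter Topology ProbabilityTheory

namespace MP04ae38

variable {n : ℕ}

/-- Standard Gaussian measure on `ℝⁿ`. -/
noncomputable def γ (n : ℕ) : Measure (Fin n → ℝ) := Measure.pi (fun _ => gaussianReal 0 1)

instance : IsProbabilityMeasure (γ n) := by unfold γ; infer_instance

theorem map_toLp : (γ n).map (WithLp.toLp 2) = stdGaussian (EuclideanSpace ℝ (Fin n)) :=
  map_pi_eq_stdGaussian

theorem γ_eq_map : γ n = (stdGaussian (EuclideanSpace ℝ (Fin n))).map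
    (EuclideanSpace.equiv (Fin n) ℝ) := by
  rw [← map_toLp, Measure.map_map (by fun_prop) (by fun_prop)]
  have : (⇑(EuclideanSpace.equiv (Fin n) ℝ) ∘ WithLp.toLp 2) = id := by
    funext x; rfl
  rw [this, Measure.map_id]

instance : IsGaussian (γ n) := by
  rw [γ_eq_map]; infer_instance

theorem memLp_norm (p : ENNReal) (hp : p ≠ ⊤) : MemLp (fun y : Fin n → ℝ => ‖y‖) p (γ n) :=
  (IsGaussian.memLp_id (γ n) p hp).norm

theorem integrable_norm_pow (p : ℕ) : Integrable (fun y : Fin n → ℝ => ‖y‖ ^ p) (γ n) := by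
  have := (memLp_norm (n := n) (p : ENNReal) (by simp)).integrable_norm_pow'
  simpa using this

theorem gauss_prod_rot (s : ℝ) (hs0 : -1 ≤ s) (hs1 : s ≤ 1) :
    MeasurePreserving (fun p : ℝ × ℝ => (√(1 - s ^ 2) * p.1 + s * p.2,
      s * p.1 - √(1 - s ^ 2) * p.2)) ((gaussianReal 0 1).prod (gaussianReal 0 1))
      ((gaussianReal 0 1).prod (gaussianReal 0 1)) := by
  have h1 : MeasurePreserving (ContinuousLinearMap.rotation (Real.arcsin s) : ℝ × ℝ → ℝ × ℝ)
      ((gaussianReal 0 1).prod (gaussianReal 0 1)) ((gaussianReal 0 1).prod (gaussianReal 0 1)) := by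
    refine ⟨by fun_prop, ?_⟩
    apply IsGaussian.map_rotation_eq_self
    simp
  have h2 : MeasurePreserving (fun x : ℝ => -x) (gaussianReal 0 1) (gaussianReal 0 1) := by
    refine ⟨by fun_prop, ?_⟩
    rw [gaussianReal_map_neg]; simp
  have h3 : MeasurePreserving (Prod.map (id : ℝ → ℝ) (fun x : ℝ => -x))
      ((gaussianReal 0 1).prod (gaussianReal 0 1)) ((gaussianReal 0 1).prod (gaussianReal 0 1)) :=
    (MeasurePreserving.id _).prod h2
  have h4 := h3.comp h1
  convert! h4 using 1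
  funext p
  simp only [comp_apply, ContinuousLinearMap.rotation_apply, Prod.map_apply, id_eq, smul_eq_mul,
    Real.cos_arcsin, Real.sin_arcsin hs0 hs1]
  ext
  · simp
  · simp; ring

/-- Swap of coordinate `i` in the pair `(x, √(1-s²) x + s y)`, in terms of `(x, y)`. -/
noncomputable def swp (s : ℝ) (i : Fin n) (p : (Fin n → ℝ) × (Fin n → ℝ)) :
    (Fin n → ℝ) × (Fin n → ℝ) :=
  (update p.1 i (√(1 - s ^ 2) * p.1 i + s * p.2 i),
    update p.2 i (s * p.1 i - √(1 - s ^ 2) * p.2 i))

theorem swp_mp (s : ℝ) (hs0 : -1 ≤ s) (hs1 : s ≤ 1) (i : Fin n) :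
    MeasurePreserving (swp s i) ((γ n).prod (γ n)) ((γ n).prod (γ n)) := by
  have h1 := measurePreserving_arrowProdEquivProdArrow ℝ ℝ (Fin n)
    (fun _ => gaussianReal 0 1) (fun _ => gaussianReal 0 1)
  let f : Fin n → ℝ × ℝ → ℝ × ℝ := fun j => if j = i then
    (fun p : ℝ × ℝ => (√(1 - s ^ 2) * p.1 + s * p.2, s * p.1 - √(1 - s ^ 2) * p.2)) else id
  have h2 : MeasurePreserving (fun (a : Fin n → ℝ × ℝ) j => f j (a j))
      (Measure.pi fun _ => (gaussianReal 0 1).prod (gaussianReal 0 1))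
      (Measure.pi fun _ => (gaussianReal 0 1).prod (gaussianReal 0 1)) := by
    apply measurePreserving_pi
    intro j
    by_cases hj : j = i
    · simp only [f, if_pos hj]; exact gauss_prod_rot s hs0 hs1
    · simp only [f, if_neg hj]; exact MeasurePreserving.id _
  have h3 := h1.comp (h2.comp h1.symm)
  convert! h3 using 1
  funext p
  simp only [swp, comp_apply]
  ext j
  · by_cases hj : j = i
    · subst hj
      simp [f, MeasurableEquiv.arrowProdEquivProdArrow, Equiv.arrowProdEquivProdArrow]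
    · simp [f, hj, MeasurableEquiv.arrowProdEquivProdArrow, Equiv.arrowProdEquivProdArrow]
  · by_cases hj : j = i
    · subst hj
      simp [f, MeasurableEquiv.arrowProdEquivProdArrow, Equiv.arrowProdEquivProdArrow]
    · simp [f, hj, MeasurableEquiv.arrowProdEquivProdArrow, Equiv.arrowProdEquivProdArrow]

/-- Reflection of the noise. -/
noncomputable def refl (k y : Fin n → ℝ) : Fin n → ℝ :=
  fun i => y i - 2 * (∑ j, k j * y j) * k i

theorem refl_mp (k : Fin n → ℝ) (hk : ∑ j, k j ^ 2 = 1) :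
    MeasurePreserving (refl k) (γ n) (γ n) := by
  let u : EuclideanSpace ℝ (Fin n) := WithLp.toLp 2 k
  have hu : ‖u‖ = 1 := by
    rw [EuclideanSpace.norm_eq]; simp [u, hk]
  let e : EuclideanSpace ℝ (Fin n) ≃ₗᵢ[ℝ] EuclideanSpace ℝ (Fin n) :=
    ((ℝ ∙ u).reflection).trans (LinearIsometryEquiv.neg ℝ)
  have h1 : MeasurePreserving e (stdGaussian (EuclideanSpace ℝ (Fin n)))
      (stdGaussian (EuclideanSpace ℝ (Fin n))) :=
    ⟨by fun_prop, stdGaussian_map e⟩
  have h2 : MeasurePreserving (WithLp.toLp 2 : (Fin n → ℝ) → EuclideanSpace ℝ (Fin n)) (γ n)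
      (stdGaussian (EuclideanSpace ℝ (Fin n))) := ⟨by fun_prop, map_toLp⟩
  have h3 : MeasurePreserving (EuclideanSpace.equiv (Fin n) ℝ)
      (stdGaussian (EuclideanSpace ℝ (Fin n))) (γ n) := ⟨by fun_prop, γ_eq_map.symm⟩
  have h4 := h3.comp (h1.comp h2)
  convert! h4 using 1
  funext y i
  simp only [refl, comp_apply, e, LinearIsometryEquiv.trans_apply, LinearIsometryEquiv.coe_neg]
  rw [Submodule.reflection_singleton_apply]
  simp [hu, u, PiLp.inner_apply]
  have : ∑ j, k j * y j = ∑ j, y j * k j := Finset.sum_congr rfl (fun j _ => mul_comm _ _)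
  rw [this]; ring

theorem refl_law (k : Fin n → ℝ) (hk : ∑ j, k j ^ 2 = 1) :
    MeasurePreserving (fun y : Fin n → ℝ => ∑ j, k j * y j) (γ n) (gaussianReal 0 1) := by
  refine ⟨by fun_prop, ?_⟩
  let u : EuclideanSpace ℝ (Fin n) := WithLp.toLp 2 k
  have hu : ‖u‖ = 1 := by
    rw [EuclideanSpace.norm_eq]; simp [u, hk]
  have h2 : MeasurePreserving (WithLp.toLp 2 : (Fin n → ℝ) → EuclideanSpace ℝ (Fin n)) (γ n)
      (stdGaussian (EuclideanSpace ℝ (Fin n))) := ⟨by fun_prop, map_toLp⟩
  have h3 : (stdGaussian (EuclideanSpace ℝ (Fin n))).map (innerSL ℝ u) = gaussianReal 0 1 := by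
    rw [IsGaussian.map_eq_gaussianReal, variance_dual_stdGaussian,
      integral_strongDual_stdGaussian]
    simp [hu]
  rw [← h3, ← map_toLp, Measure.map_map (by fun_prop) (by fun_prop)]
  congr 1
  funext y
  simp [u, PiLp.inner_apply, mul_comm]

theorem γ_ac : ∀ n : ℕ, γ n ≪ volume := by
  intro n
  induction n with
  | zero =>
    unfold γ
    rw [volume_pi, Measure.pi_of_empty, Measure.pi_of_empty]
  | succ n ih =>
    have h1 := measurePreserving_piFinSuccAbove (n := n) (α := fun _ => ℝ)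
      (fun _ => gaussianReal 0 1) 0
    have h2 := measurePreserving_piFinSuccAbove (n := n) (α := fun _ => ℝ)
      (fun _ => (volume : Measure ℝ)) 0
    have e1 : γ (n + 1) = ((gaussianReal 0 1).prod (γ n)).map
        (MeasurableEquiv.piFinSuccAbove (fun _ => ℝ) 0).symm := h1.symm.map_eq.symm
    have e2 : (volume : Measure (Fin (n + 1) → ℝ)) = ((volume : Measure ℝ).prod volume).map
        (MeasurableEquiv.piFinSuccAbove (fun _ => ℝ) 0).symm := h2.symm.map_eq.symm
    rw [e1, e2]
    exact ((gaussianReal_absolutelyContinuous 0 one_ne_zero).prod ih).map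
      (MeasurableEquiv.measurable _)

end MP04ae38
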