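import Pool.Agent.Lib.MP_04ae38_an.Resolvent2
import Pool.Agent.Lib.MP_04ae38_an.Dual

/-!
# The directed Poincaré inequality in Gauss space
-/

open Set Function MeasureTheory ProbabilityTheory Filter Topology

namespace MP04ae38

variable {n : ℕ}

theorem sqrt_sq2_le_sum (k : Fin n → ℝ) (hk : ∀ i, 0 ≤ k i) : √(sq2 k) ≤ ∑ i, k i := by
  rw [Real.sqrt_le_iff]
  refine ⟨Finset.sum_nonneg (fun i _ => hk i), ?_⟩
  unfold sq2
  exact Finset.sum_sq_le_sq_sum_of_nonneg (fun i _ => hk i)

/-- Pairing with an element of the polar cone. -/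
theorem gauss_pairing (g0 : (Fin n → ℝ) → ℝ) (mg0 : Measurable g0) (hg0 : ∀ x, |g0 x| ≤ 1)
    (hcone : ∀ H : (Fin n → ℝ) → ℝ, Measurable H → (∀ p q : Fin n → ℝ, (∀ i, p i ≤ q i) → H p ≤ H q) →
      MemLp H 2 (γ n) → ∫ x, g0 x * H x ∂(γ n) ≤ 0)
    (F : (Fin n → ℝ) → ℝ) (CF KF : ℝ) (hKF : 0 ≤ KF) (hCF : ∀ p, |F p| ≤ CF)
    (hF : ∀ p q, |F p - F q| ≤ KF * ‖p - q‖) :
    ∫ x, g0 x * F x ∂(γ n) ≤ 5 / 2 * ∫ x, ngrad F x ∂(γ n) := by
  have hCF0 : 0 ≤ CF := (abs_nonneg _).trans (hCF 0)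
  have mF := meas_of_lip F KF hKF hF
  -- the linear monotone function
  set A : ℝ := 5 / 2 * ∫ x, |∑ i, x i| ∂(γ n) with hA
  have hA0 : 0 ≤ A := by
    have : 0 ≤ ∫ x : Fin n → ℝ, |∑ i, x i| ∂(γ n) := integral_nonneg (fun _ => abs_nonneg _)
    positivity
  have hcoord : ∀ i : Fin n, MemLp (fun x : Fin n → ℝ => x i) 2 (γ n) := by
    intro i
    have h1 : MemLp (fun y : Fin n → ℝ => ‖y‖) 2 (γ n) := memLp_norm 2 (by norm_num)
    exact h1.mono (measurable_pi_apply i).aestronglyMeasurable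
      (Eventually.of_forall fun y => by rw [norm_norm]; exact norm_le_pi_norm y i)
  have hlin2 : MemLp (fun x : Fin n → ℝ => ∑ i, x i) 2 (γ n) :=
    memLp_finsetSum _ (fun i _ => hcoord i)
  have hlin1 : Integrable (fun x : Fin n → ℝ => ∑ i, x i) (γ n) := hlin2.integrable one_le_two
  have key : ∀ θ : ℝ, 0 < θ → θ ≤ 1 → ∫ x, g0 x * F x ∂(γ n) ≤ 5 / 2 * ∫ x, ngrad F x ∂(γ n) +
      θ * (CF * (1 / 2 + (A + 1) / 2 + 1)) := by
    intro θ hθ hθ1
    obtain ⟨g, Λ, hΛ, hgl, hgb, hgd⟩ := lip_approx (γ n) g0 mg0 1 zero_le_one hg0 (θ ^ 2)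
      (by positivity)
    have mg := meas_of_lip g Λ hΛ hgl
    set lam := θ ^ 2 with hlamdef
    have hlam : 0 < lam := by positivity
    obtain ⟨ub, mub, hubC, hdir, hen, hres⟩ := resolvent g hgb Λ hΛ hgl lam hlam
    have hres' := hres F CF KF hKF hCF hF
    -- integrability facts
    have iub : Integrable ub (γ n) := bint _ _ mub hubC
    have iub2 : Integrable (fun x => ub x ^ 2) (γ n) := bint _ ((1 / lam) ^ 2) (mub.pow_const 2)
      (fun p => by rw [abs_pow]; exact pow_le_pow_left₀ (abs_nonneg _) (hubC p) 2)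
    have igub : Integrable (fun x => g x * ub x) (γ n) := bint _ (1 * (1 / lam)) (mg.mul mub)
      (fun p => by
        rw [abs_mul]; exact mul_le_mul (hgb p) (hubC p) (abs_nonneg _) zero_le_one)
    have ig0ub : Integrable (fun x => g0 x * ub x) (γ n) := bint _ (1 * (1 / lam)) (mg0.mul mub)
      (fun p => by
        rw [abs_mul]; exact mul_le_mul (hg0 p) (hubC p) (abs_nonneg _) zero_le_one)
    have idiff : Integrable (fun x => |g0 x - g x|) (γ n) :=
      ((bint _ 1 mg0 hg0).sub (bint _ 1 mg hgb)).abs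
    -- ∫ g0 ub ≤ A
    have h1 : ∫ x, g0 x * ub x ∂(γ n) ≤ A := by
      have hH := hcone (fun x => ub x + 5 / 2 * ∑ i, x i)
        (mub.add ((Finset.measurable_sum _ (fun i _ => measurable_pi_apply i)).const_mul _)) (by
          intro p q hpq
          have h2 := (hdir p q hpq).trans (Fn_le _ (sq2_nonneg _))
          have h3 := sqrt_sq2_le_sum (q - p) (fun i => by
            simp only [Pi.sub_apply]; linarith [hpq i])
          have h4 : ∑ i, (q - p) i = ∑ i, q i - ∑ i, p i := by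
            simp [Finset.sum_sub_distrib]
          rw [h4] at h3
          linarith) ((MemLp.of_bound mub.aestronglyMeasurable _
            (Eventually.of_forall hubC)).add (hlin2.const_mul _))
      have i2 : Integrable (fun x : Fin n → ℝ => g0 x * (5 / 2 * ∑ i, x i)) (γ n) := by
        refine (hlin1.abs.const_mul (5 / 2)).mono' (mg0.mul ((Finset.measurable_sum _
          (fun i _ => measurable_pi_apply i)).const_mul _)).aestronglyMeasurable
          (Eventually.of_forall fun x => ?_)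
        rw [Real.norm_eq_abs, abs_mul, abs_mul, abs_of_pos (show (0 : ℝ) < 5 / 2 by norm_num)]
        calc |g0 x| * (5 / 2 * |∑ i, x i|) ≤ 1 * (5 / 2 * |∑ i, x i|) :=
              mul_le_mul_of_nonneg_right (hg0 x) (by positivity)
          _ = _ := one_mul _
      have e1 : ∫ x, g0 x * (ub x + 5 / 2 * ∑ i, x i) ∂(γ n) =
          ∫ x, g0 x * ub x ∂(γ n) + ∫ x : Fin n → ℝ, g0 x * (5 / 2 * ∑ i, x i) ∂(γ n) := by
        rw [← integral_add ig0ub i2]
        apply integral_congr_ae
        refine Eventually.of_forall fun x => ?_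
        dsimp only; ring
      rw [e1] at hH
      have h3 : -A ≤ ∫ x : Fin n → ℝ, g0 x * (5 / 2 * ∑ i, x i) ∂(γ n) := by
        rw [hA, ← integral_const_mul, ← integral_neg]
        apply integral_mono (hlin1.abs.const_mul (5 / 2)).neg i2
        intro x
        simp only [Pi.neg_apply]
        have h4 : |g0 x * (5 / 2 * ∑ i, x i)| ≤ 5 / 2 * |∑ i, x i| := by
          rw [abs_mul, abs_mul, abs_of_pos (show (0 : ℝ) < 5 / 2 by norm_num)]
          calc |g0 x| * (5 / 2 * |∑ i, x i|) ≤ 1 * (5 / 2 * |∑ i, x i|) :=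
                mul_le_mul_of_nonneg_right (hg0 x) (by positivity)
            _ = _ := one_mul _
        linarith [(abs_le.1 h4).1]
      linarith
    -- λ² ∫ ub² ≤ λ A + η
    have h2 : lam * ∫ x, ub x ^ 2 ∂(γ n) ≤ A + lam * (1 / lam) := by
      have e1 : ∫ x, (g x - lam * ub x) * ub x ∂(γ n) = ∫ x, g x * ub x ∂(γ n) -
          lam * ∫ x, ub x ^ 2 ∂(γ n) := by
        rw [← integral_const_mul, ← integral_sub igub (iub2.const_mul _)]
        apply integral_congr_ae
        refine Eventually.of_forall fun x => ?_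
        dsimp only; ring
      rw [e1] at hen
      have h3 : ∫ x, g x * ub x ∂(γ n) ≤ ∫ x, g0 x * ub x ∂(γ n) + (1 / lam) *
          ∫ x, |g0 x - g x| ∂(γ n) := by
        rw [← integral_const_mul, ← integral_add ig0ub (idiff.const_mul _)]
        apply integral_mono igub (ig0ub.add (idiff.const_mul _))
        intro x
        simp only [Pi.add_apply]
        have h4 : (g x - g0 x) * ub x ≤ (1 / lam) * |g0 x - g x| := by
          calc (g x - g0 x) * ub x ≤ |(g x - g0 x) * ub x| := le_abs_self _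
            _ = |g0 x - g x| * |ub x| := by rw [abs_mul, abs_sub_comm]
            _ ≤ |g0 x - g x| * (1 / lam) := mul_le_mul_of_nonneg_left (hubC x) (abs_nonneg _)
            _ = _ := mul_comm _ _
        have h5 : g x * ub x = g0 x * ub x + (g x - g0 x) * ub x := by ring
        rw [h5]
        linarith
      have h4 : (1 / lam) * ∫ x, |g0 x - g x| ∂(γ n) ≤ (1 / lam) * lam :=
        mul_le_mul_of_nonneg_left hgd (by positivity)
      linarith
    have h2' : lam ^ 2 * ∫ x, ub x ^ 2 ∂(γ n) ≤ lam * (A + 1) := by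
      have h3 := mul_le_mul_of_nonneg_left h2 hlam.le
      have h4 : lam * (1 / lam) = 1 := by field_simp
      rw [h4] at h3
      calc lam ^ 2 * ∫ x, ub x ^ 2 ∂(γ n) = lam * (lam * ∫ x, ub x ^ 2 ∂(γ n)) := by ring
        _ ≤ _ := h3
    -- λ ∫ |ub| small
    have h3 : lam * ∫ x, |ub x| ∂(γ n) ≤ θ / 2 + θ * (A + 1) / 2 := by
      have h4 : ∫ x, lam * |ub x| ∂(γ n) ≤ ∫ x, (θ / 2 + 1 / (2 * θ) * (lam ^ 2 * ub x ^ 2))
          ∂(γ n) := by
        apply integral_mono (iub.abs.const_mul _)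
          ((integrable_const _).add ((iub2.const_mul _).const_mul _))
        intro x
        simp only [Pi.add_apply]
        have h5 : 0 ≤ 1 / (2 * θ) * (θ - lam * |ub x|) ^ 2 := by positivity
        have h6 : 1 / (2 * θ) * (θ - lam * |ub x|) ^ 2 = θ / 2 - lam * |ub x| +
            1 / (2 * θ) * (lam ^ 2 * |ub x| ^ 2) := by
          field_simp
          ring
        rw [sq_abs] at h6
        linarith
      rw [integral_const_mul, integral_add (integrable_const _)
        ((iub2.const_mul _).const_mul _), integral_const_mul, integral_const_mul] at h4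
      have h7 : 1 / (2 * θ) * (lam ^ 2 * ∫ x, ub x ^ 2 ∂(γ n)) ≤ 1 / (2 * θ) * (lam * (A + 1)) :=
        mul_le_mul_of_nonneg_left h2' (by positivity)
      have h8 : 1 / (2 * θ) * (lam * (A + 1)) = θ * (A + 1) / 2 := by
        rw [hlamdef]; field_simp
      simp only [integral_const, probReal_univ, one_smul] at h4
      linarith
    -- conclusion
    have igF : Integrable (fun x => g x * F x) (γ n) := bint _ (1 * CF) (mg.mul mF)
      (fun p => by
        rw [abs_mul]; exact mul_le_mul (hgb p) (hCF p) (abs_nonneg _) zero_le_one)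
    have ig0F : Integrable (fun x => g0 x * F x) (γ n) := bint _ (1 * CF) (mg0.mul mF)
      (fun p => by
        rw [abs_mul]; exact mul_le_mul (hg0 p) (hCF p) (abs_nonneg _) zero_le_one)
    have iubF : Integrable (fun x => ub x * F x) (γ n) := bint _ ((1 / lam) * CF) (mub.mul mF)
      (fun p => by
        rw [abs_mul]; exact mul_le_mul (hubC p) (hCF p) (abs_nonneg _) (by positivity))
    have h4 : ∫ x, g0 x * F x ∂(γ n) ≤ ∫ x, (g x - lam * ub x) * F x ∂(γ n) +
        (CF * ∫ x, |g0 x - g x| ∂(γ n) + CF * (lam * ∫ x, |ub x| ∂(γ n))) := by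
      have i3 : Integrable (fun x => (g x - lam * ub x) * F x) (γ n) := by
        have := igF.sub (iubF.const_mul lam)
        refine this.congr (Eventually.of_forall fun x => ?_)
        simp only [Pi.sub_apply]; ring
      have i4 : Integrable (fun x => CF * |g0 x - g x| + CF * (lam * |ub x|)) (γ n) :=
        (idiff.const_mul _).add ((iub.abs.const_mul _).const_mul _)
      have e1 : CF * ∫ x, |g0 x - g x| ∂(γ n) + CF * (lam * ∫ x, |ub x| ∂(γ n)) =
          ∫ x, (CF * |g0 x - g x| + CF * (lam * |ub x|)) ∂(γ n) := by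
        rw [integral_add (idiff.const_mul _) ((iub.abs.const_mul _).const_mul _),
          integral_const_mul, integral_const_mul, integral_const_mul]
      rw [e1, ← integral_add i3 i4]
      apply integral_mono ig0F (i3.add i4)
      intro x
      simp only [Pi.add_apply]
      have h5 : (g0 x - g x) * F x ≤ CF * |g0 x - g x| := by
        calc (g0 x - g x) * F x ≤ |(g0 x - g x) * F x| := le_abs_self _
          _ = |g0 x - g x| * |F x| := abs_mul _ _
          _ ≤ |g0 x - g x| * CF := mul_le_mul_of_nonneg_left (hCF x) (abs_nonneg _)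
          _ = _ := mul_comm _ _
      have h6 : (lam * ub x) * F x ≤ CF * (lam * |ub x|) := by
        calc (lam * ub x) * F x ≤ |(lam * ub x) * F x| := le_abs_self _
          _ = (lam * |ub x|) * |F x| := by rw [abs_mul, abs_mul, abs_of_pos hlam]
          _ ≤ (lam * |ub x|) * CF := mul_le_mul_of_nonneg_left (hCF x) (by positivity)
          _ = _ := mul_comm _ _
      have h7 : g0 x * F x = (g x - lam * ub x) * F x + ((g0 x - g x) * F x + (lam * ub x) * F x) := by
        ring
      rw [h7]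
      linarith
    have h5 : CF * ∫ x, |g0 x - g x| ∂(γ n) ≤ CF * θ := by
      apply mul_le_mul_of_nonneg_left _ hCF0
      exact hgd.trans (by rw [hlamdef]; nlinarith)
    have h6 : CF * (lam * ∫ x, |ub x| ∂(γ n)) ≤ CF * (θ / 2 + θ * (A + 1) / 2) :=
      mul_le_mul_of_nonneg_left h3 hCF0
    linarith
  have hlim : Tendsto (fun θ : ℝ => 5 / 2 * ∫ x, ngrad F x ∂(γ n) +
      θ * (CF * (1 / 2 + (A + 1) / 2 + 1))) (𝓝[>] 0) (𝓝 (5 / 2 * ∫ x, ngrad F x ∂(γ n))) := by
    have h1 : Tendsto (fun t : ℝ => t) (𝓝[>] 0) (𝓝 0) := tendsto_id.mono_left nhdsWithin_le_nhds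
    have := (h1.mul_const (CF * (1 / 2 + (A + 1) / 2 + 1))).const_add
      (5 / 2 * ∫ x, ngrad F x ∂(γ n))
    simpa using this
  apply ge_of_tendsto hlim
  filter_upwards [self_mem_nhdsWithin, (Ioc_mem_nhdsGT (show (0 : ℝ) < 1 by norm_num))]
    with θ _ hθ
  exact key θ hθ.1 hθ.2

/-- The directed Poincaré inequality in Gauss space. -/
theorem gauss_directed (F : (Fin n → ℝ) → ℝ) (CF KF : ℝ) (hKF : 0 ≤ KF) (hCF : ∀ p, |F p| ≤ CF)
    (hF : ∀ p q, |F p - F q| ≤ KF * ‖p - q‖) (ε : ℝ) (hε : 0 < ε) :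
    ∃ H : (Fin n → ℝ) → ℝ, Measurable H ∧ (∀ p q : Fin n → ℝ, (∀ i, p i ≤ q i) → H p ≤ H q) ∧
      MemLp H 2 (γ n) ∧ ∫ x, |F x - H x| ∂(γ n) ≤ 5 / 2 * ∫ x, ngrad F x ∂(γ n) + ε := by
  by_contra hcon
  push Not at hcon
  have hn0 : 0 ≤ ∫ x, ngrad F x ∂(γ n) := integral_nonneg (fun x => ngrad_nonneg F x)
  have mF := meas_of_lip F KF hKF hF
  obtain ⟨g, mg, hg1, hgM, hgF⟩ := duality (γ n)
    {H | Measurable H ∧ (∀ p q : Fin n → ℝ, (∀ i, p i ≤ q i) → H p ≤ H q) ∧ MemLp H 2 (γ n)}
    (fun H hH => hH.2.2)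
    ⟨measurable_const, fun _ _ _ => le_rfl, memLp_const _⟩
    (fun H hH H' hH' => ⟨hH.1.add hH'.1, fun p q hpq => add_le_add (hH.2.1 p q hpq)
      (hH'.2.1 p q hpq), hH.2.2.add hH'.2.2⟩)
    (fun c hc H hH => ⟨hH.1.const_mul c, fun p q hpq =>
      mul_le_mul_of_nonneg_left (hH.2.1 p q hpq) hc, hH.2.2.const_mul c⟩)
    F (MemLp.of_bound mF.aestronglyMeasurable CF (Eventually.of_forall hCF))
    (5 / 2 * ∫ x, ngrad F x ∂(γ n) + ε) (by positivity)
    (fun H hH => (hcon H hH.1 hH.2.1 hH.2.2).le)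
  have h1 := gauss_pairing g mg hg1 (fun H h1 h2 h3 => hgM H ⟨h1, h2, h3⟩) F CF KF hKF hCF hF
  linarith

end MP04ae38
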