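import Pool.Agent.Lib.MP_04ae38_an.Directed

/-!
# Approximate solutions of the resolvent equation
-/

open Set Function MeasureTheory ProbabilityTheory Filter Topology

namespace MP04ae38

variable {n : ℕ}

/-- resolvent iteration -/
noncomputable def iter (s lam : ℝ) (g : (Fin n → ℝ) → ℝ) : ℕ → (Fin n → ℝ) → ℝ
  | 0 => fun _ => 0
  | k + 1 => fun x => (S s (iter s lam g k) x + s ^ 2 / 2 * g x) / (1 + lam * (s ^ 2 / 2))

section

variable (s lam : ℝ) (hs : 0 < s) (hlam : 0 < lam) (g : (Fin n → ℝ) → ℝ) (hmg : Measurable g)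
  (hg : ∀ p, |g p| ≤ 1)

include hmg in
theorem iter_meas (k : ℕ) : Measurable (iter s lam g k) := by
  induction k with
  | zero => exact measurable_const
  | succ k ih =>
    simp only [iter]
    exact ((measurable_S s _ ih).add (hmg.const_mul _)).div_const _

include hs hlam hg in
theorem iter_bound (k : ℕ) : ∀ p, |iter s lam g k p| ≤ 1 / lam := by
  induction k with
  | zero => intro p; simp only [iter, abs_zero]; positivity
  | succ k ih =>
    intro p
    simp only [iter]
    have h1 := abs_S_le s _ _ ih p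
    rw [abs_div, abs_of_pos (show 0 < 1 + lam * (s ^ 2 / 2) by positivity),
      div_le_iff₀ (by positivity)]
    calc |S s (iter s lam g k) p + s ^ 2 / 2 * g p| ≤ |S s (iter s lam g k) p| +
          |s ^ 2 / 2 * g p| := abs_add_le _ _
      _ ≤ 1 / lam + s ^ 2 / 2 * 1 := by
        rw [abs_mul, abs_of_pos (show 0 < s ^ 2 / 2 by positivity)]
        gcongr
        exact hg p
      _ = _ := by field_simp

include hs hlam hg hmg in
theorem iter_lip (Λ : ℝ) (hΛ : 0 ≤ Λ) (hgl : ∀ p q, g p - g q ≤ Λ * ‖p - q‖) (k : ℕ) :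
    ∀ p q, iter s lam g k p - iter s lam g k q ≤ Λ / lam * ‖p - q‖ := by
  induction k with
  | zero => intro p q; simp only [iter, sub_self]; positivity
  | succ k ih =>
    intro p q
    simp only [iter]
    have h1 := S_lip _ (iter_meas s lam g hmg k) _ (iter_bound s lam hs hlam g hg k) (Λ / lam)
      (by positivity) ih s p q
    rw [← sub_div, div_le_iff₀ (by positivity)]
    have h2 := mul_le_mul_of_nonneg_left (hgl p q) (show 0 ≤ s ^ 2 / 2 by positivity)
    have h3 : Λ / lam * ‖p - q‖ * (1 + lam * (s ^ 2 / 2)) = Λ / lam * ‖p - q‖ +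
      s ^ 2 / 2 * (Λ * ‖p - q‖) := by field_simp
    rw [h3]
    linarith

include hs hlam hg hmg in
theorem iter_diff (k : ℕ) : ∀ p, |iter s lam g (k + 1) p - iter s lam g k p| ≤
    (1 / (1 + lam * (s ^ 2 / 2))) ^ (k + 1) * (s ^ 2 / 2) := by
  induction k with
  | zero =>
    intro p
    have hS0 : S s (fun _ => (0 : ℝ)) p = 0 := by
      have := abs_S_le s (fun _ => (0 : ℝ)) 0 (fun _ => by simp) p
      exact abs_eq_zero.1 (le_antisymm this (abs_nonneg _))
    simp only [iter, hS0, zero_add, sub_zero, pow_one]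
    rw [abs_div, abs_of_pos (show 0 < 1 + lam * (s ^ 2 / 2) by positivity), abs_mul,
      abs_of_pos (show 0 < s ^ 2 / 2 by positivity), div_le_iff₀ (by positivity)]
    calc s ^ 2 / 2 * |g p| ≤ s ^ 2 / 2 * 1 := by gcongr; exact hg p
      _ = _ := by field_simp
  | succ k ih =>
    intro p
    have h1 := S_nonexp s _ _ (iter_meas s lam g hmg (k + 1)) (iter_meas s lam g hmg k) _
      (iter_bound s lam hs hlam g hg (k + 1)) (iter_bound s lam hs hlam g hg k) _ ih p
    have e1 : iter s lam g (k + 1 + 1) p = (S s (iter s lam g (k + 1)) p + s ^ 2 / 2 * g p) /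
      (1 + lam * (s ^ 2 / 2)) := rfl
    have e2 : iter s lam g (k + 1) p = (S s (iter s lam g k) p + s ^ 2 / 2 * g p) /
      (1 + lam * (s ^ 2 / 2)) := rfl
    rw [e1, e2, ← sub_div, add_sub_add_right_eq_sub, abs_div,
      abs_of_pos (show 0 < 1 + lam * (s ^ 2 / 2) by positivity), div_le_iff₀ (by positivity)]
    refine h1.trans (le_of_eq ?_)
    rw [pow_succ (1 / (1 + lam * (s ^ 2 / 2))) (k + 1)]
    field_simp

include hs hlam hg hmg in
theorem iter_resid (k : ℕ) (p : Fin n → ℝ) :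
    |iter s lam g (k + 1) p - S s (iter s lam g (k + 1)) p -
      s ^ 2 / 2 * (g p - lam * iter s lam g (k + 1) p)| ≤
    (1 / (1 + lam * (s ^ 2 / 2))) ^ (k + 1) * (s ^ 2 / 2) := by
  have h1 := S_nonexp s _ _ (iter_meas s lam g hmg (k + 1)) (iter_meas s lam g hmg k) _
      (iter_bound s lam hs hlam g hg (k + 1)) (iter_bound s lam hs hlam g hg k) _
      (iter_diff s lam hs hlam g hmg hg k) p
  have e2 : iter s lam g (k + 1) p * (1 + lam * (s ^ 2 / 2)) =
    (S s (iter s lam g k) p + s ^ 2 / 2 * g p) := by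
    simp only [iter]
    rw [div_mul_cancel₀]
    positivity
  have e3 : iter s lam g (k + 1) p - S s (iter s lam g (k + 1)) p -
      s ^ 2 / 2 * (g p - lam * iter s lam g (k + 1) p) =
      -(S s (iter s lam g (k + 1)) p - S s (iter s lam g k) p) := by linarith
  rw [e3, abs_neg]
  exact h1

end

theorem norm_le_sqrt_sq2 (k : Fin n → ℝ) (r : ℝ) (hr : 0 ≤ r) (h : sq2 k ≤ r ^ 2) : ‖k‖ ≤ r := by
  rw [pi_norm_le_iff_of_nonneg hr]
  intro i
  have h1 : k i ^ 2 ≤ sq2 k := Finset.single_le_sum (f := fun i => k i ^ 2)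
    (fun j _ => sq_nonneg _) (Finset.mem_univ i)
  exact abs_le_of_sq_le_sq (h1.trans h) hr

theorem sq2_nonneg (k : Fin n → ℝ) : 0 ≤ sq2 k := Finset.sum_nonneg (fun _ _ => sq_nonneg _)

theorem approx_sol (g : (Fin n → ℝ) → ℝ) (hmg : Measurable g) (hg : ∀ p, |g p| ≤ 1) (Λ : ℝ)
    (hΛ : 0 ≤ Λ) (hgl : ∀ p q, g p - g q ≤ Λ * ‖p - q‖) (lam : ℝ) (hlam : 0 < lam)
    (r0 : ℝ) (hr0 : 0 < r0) (hr1 : r0 ≤ 1) (δ : ℝ) (hδ : 0 < δ) :
    ∃ s : ℝ, 0 < s ∧ s ≤ δ ∧ s ≤ 1 ∧ ∃ u : (Fin n → ℝ) → ℝ, Measurable u ∧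
      (∀ p, |u p| ≤ 1 / lam) ∧ (∀ p q, u p - u q ≤ Λ / lam * ‖p - q‖) ∧
      (∀ p q : Fin n → ℝ, (∀ i, p i ≤ q i) →
        u p - u q ≤ Fn (sq2 (q - p)) + Λ / lam * r0 + δ * (‖p‖ + ‖q‖)) ∧
      (∀ p, |u p - S s u p - s ^ 2 / 2 * (g p - lam * u p)| ≤ s ^ 2 / 2 * δ) := by
  obtain ⟨s0, hs0, hs01, hS⟩ := S_directed (n := n) r0 hr0 hr1 (1 / lam) (by positivity)
  have hκ := kap_pos n
  set s := min s0 (min δ (δ / kap n)) with hsdef
  have hs : 0 < s := by positivity
  have hss0 : s ≤ s0 := min_le_left _ _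
  have hsδ : s ≤ δ := (min_le_right _ _).trans (min_le_left _ _)
  have hsκ : kap n * s ≤ δ := by
    have : s ≤ δ / kap n := (min_le_right _ _).trans (min_le_right _ _)
    rw [le_div_iff₀ hκ] at this
    linarith
  -- choose the number of steps
  set q := 1 / (1 + lam * (s ^ 2 / 2)) with hq
  have hq0 : 0 < q := by positivity
  have hq1 : q < 1 := by
    rw [hq, div_lt_one (by positivity)]
    have : 0 < lam * (s ^ 2 / 2) := by positivity
    linarith
  obtain ⟨N, hN⟩ := exists_pow_lt_of_lt_one hδ hq1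
  have hdir : ∀ k, ∀ p r : Fin n → ℝ, (∀ i, p i ≤ r i) →
      iter s lam g k p - iter s lam g k r ≤
        Fn (sq2 (r - p)) + Λ / lam * r0 + kap n * s * (‖p‖ + ‖r‖) := by
    intro k
    induction k with
    | zero =>
      intro p r _
      simp only [iter, sub_self]
      have h1 := Fn_nonneg _ (sq2_nonneg (r - p))
      positivity
    | succ k ih =>
      intro x y hxy
      have hF := Fn_nonneg _ (sq2_nonneg (y - x))
      have hrr : 0 ≤ Λ / lam * r0 := by positivity
      have hkk : 0 ≤ kap n * s * (‖x‖ + ‖y‖) := by positivity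
      by_cases h1 : r0 ^ 2 ≤ sq2 (y - x)
      swap
      · push Not at h1
        have h2 := iter_lip s lam hs hlam g hmg hg Λ hΛ hgl (k + 1) x y
        have h3 := norm_le_sqrt_sq2 (y - x) r0 hr0.le h1.le
        rw [norm_sub_rev] at h3
        have h4 := mul_le_mul_of_nonneg_left h3 (show 0 ≤ Λ / lam by positivity)
        linarith
      by_cases h2 : kap n * s * (‖x‖ + ‖y‖) ≤ 2 * (1 / lam)
      swap
      · push Not at h2
        have h3 := abs_le.1 (iter_bound s lam hs hlam g hg (k + 1) x)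
        have h4 := abs_le.1 (iter_bound s lam hs hlam g hg (k + 1) y)
        linarith [h3.2, h4.1]
      have h3 := hS s hs hss0 _ (iter_meas s lam g hmg k) (iter_bound s lam hs hlam g hg k)
        (Λ / lam * r0) hrr ih x y hxy h1 h2
      simp only [iter]
      rw [← sub_div, div_le_iff₀ (by positivity)]
      have h4 := abs_le.1 (hg x)
      have h5 := abs_le.1 (hg y)
      have h6 : s ^ 2 / 2 * (g x - g y) ≤ s ^ 2 / 2 * 2 := by
        apply mul_le_mul_of_nonneg_left _ (by positivity)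
        linarith [h4.2, h5.1]
      have h7 : 0 ≤ (Fn (sq2 (y - x)) + Λ / lam * r0 + kap n * s * (‖x‖ + ‖y‖)) *
        (lam * (s ^ 2 / 2)) := by positivity
      linarith
  refine ⟨s, hs, hsδ, hss0.trans hs01, iter s lam g (N + 1), iter_meas s lam g hmg _,
    iter_bound s lam hs hlam g hg _, iter_lip s lam hs hlam g hmg hg Λ hΛ hgl _, ?_, ?_⟩
  · intro p r hpr
    refine (hdir _ p r hpr).trans ?_
    have : kap n * s * (‖p‖ + ‖r‖) ≤ δ * (‖p‖ + ‖r‖) :=
      mul_le_mul_of_nonneg_right hsκ (by positivity)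
    linarith
  · intro p
    refine (iter_resid s lam hs hlam g hmg hg N p).trans ?_
    rw [← hq, mul_comm]
    apply mul_le_mul_of_nonneg_left _ (by positivity)
    refine (pow_le_pow_of_le_one hq0.le hq1.le (Nat.le_succ N)).trans hN.le

end MP04ae38
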