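import Pool.Agent.Lib.MP_04ae38_an.ExpandD
import Pool.Agent.Lib.MP_04ae38_an.Iter

/-!
# Passing to the limit by monotonicity
-/

open Set Function MeasureTheory ProbabilityTheory Filter Topology

namespace MP04ae38

variable {n : ℕ}

theorem bint (f : (Fin n → ℝ) → ℝ) (D : ℝ) (hf : Measurable f) (hD : ∀ p, |f p| ≤ D) :
    Integrable f (γ n) :=
  Integrable.of_bound hf.aestronglyMeasurable D (Eventually.of_forall hD)

theorem bint' (f : (Fin n → ℝ) × (Fin n → ℝ) → ℝ) (D : ℝ) (hf : Measurable f)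
    (hD : ∀ p, |f p| ≤ D) : Integrable f (PP n) :=
  Integrable.of_bound hf.aestronglyMeasurable D (Eventually.of_forall hD)

theorem flux_telescope (s : ℝ) (h ψ : (Fin n → ℝ) → ℝ) (C D : ℝ)
    (mh : Measurable h) (mψ : Measurable ψ) (hC : ∀ p, |h p| ≤ C) (hD : ∀ p, |ψ p| ≤ D)
    (i : Fin n) (l : List (Fin n)) :
    ∫ p, ψ p.1 * (h p.1 - W h (i :: l) p.1 (J s p)) ∂(PP n) =
    ∫ p, ψ p.1 * (h p.1 - W h l p.1 (J s p)) ∂(PP n) +
    ∫ p, ψ p.1 * (W h l p.1 (J s p) - W h (i :: l) p.1 (J s p)) ∂(PP n) := by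
  have hD0 : 0 ≤ D := (abs_nonneg _).trans (hD 0)
  have hC0 : 0 ≤ C := (abs_nonneg _).trans (hC 0)
  have bsub : ∀ a b c : ℝ, |a| ≤ D → |b| ≤ C → |c| ≤ C → |a * (b - c)| ≤ D * (2 * C) := by
    intro a b c ha hb hc
    rw [abs_mul]
    apply mul_le_mul ha _ (abs_nonneg _) hD0
    rw [abs_le] at hb hc ⊢
    constructor
    · linarith [hb.1, hc.2]
    · linarith [hb.2, hc.1]
  have i1 : Integrable (fun p : (Fin n → ℝ) × (Fin n → ℝ) =>
      ψ p.1 * (h p.1 - W h l p.1 (J s p))) (PP n) :=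
    bint' _ (D * (2 * C)) ((mψ.comp measurable_fst).mul ((mh.comp measurable_fst).sub
      (measurable_WA s h mh l))) (fun p => bsub _ _ _ (hD _) (hC _) (abs_W_le h C hC _ _ _))
  have i2 : Integrable (fun p : (Fin n → ℝ) × (Fin n → ℝ) =>
      ψ p.1 * (W h l p.1 (J s p) - W h (i :: l) p.1 (J s p))) (PP n) :=
    bint' _ (D * (2 * C)) ((mψ.comp measurable_fst).mul ((measurable_WA s h mh l).sub
      (measurable_WA s h mh (i :: l)))) (fun p => bsub _ _ _ (hD _) (abs_W_le h C hC _ _ _)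
        (abs_W_le h C hC _ _ _))
  rw [← integral_add i1 i2]
  apply integral_congr_ae
  refine Eventually.of_forall fun p => ?_
  dsimp only
  ring

theorem expand_B_list (h ψ : (Fin n → ℝ) → ℝ) (C D Kh Kψ : ℝ) (hKh : 0 ≤ Kh) (hKψ : 0 ≤ Kψ)
    (mh : Measurable h) (mψ : Measurable ψ) (hC : ∀ p, |h p| ≤ C) (hD : ∀ p, |ψ p| ≤ D)
    (hh : ∀ p q, |h p - h q| ≤ Kh * ‖p - q‖) (hψ : ∀ p q, |ψ p - ψ q| ≤ Kψ * ‖p - q‖)
    (s : ℕ → ℝ) (hs0 : ∀ k, 0 < s k) (hs1 : ∀ k, s k ≤ 1)
    (hs : Tendsto s atTop (𝓝 0)) : ∀ (l : List (Fin n)), l.Nodup →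
    Tendsto (fun k => (2 / s k ^ 2) * ∫ p, ψ p.1 * (h p.1 -
      W h l p.1 (J (s k) p)) ∂(PP n)) atTop
      (𝓝 (l.map fun i => ∫ x, (-dd ψ i x) * max (-dd h i x) 0 ∂(γ n)).sum) := by
  intro l
  induction l with
  | nil =>
    intro _
    simp [W]
  | cons i l ih =>
    intro hnd
    have h1 := ih (List.nodup_cons.1 hnd).2
    have h2 := expand_B h ψ C D Kh Kψ hKh hKψ mh mψ hC hD hh hψ s hs0 hs1 hs l
      (List.nodup_cons.1 hnd).2 i (List.nodup_cons.1 hnd).1
    have h3 := h1.add h2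
    rw [List.map_cons, List.sum_cons, add_comm]
    refine h3.congr (fun k => ?_)
    rw [flux_telescope (s k) h ψ C D mh mψ hC hD i l]
    ring

theorem expand_C_list (v : ℕ → (Fin n → ℝ) → ℝ) (D Kv : ℝ) (hKv : 0 ≤ Kv)
    (mv : ∀ k, Measurable (v k)) (hD : ∀ k p, |v k p| ≤ D)
    (hv : ∀ k p q, |v k p - v k q| ≤ Kv * ‖p - q‖)
    (s : ℕ → ℝ) (hs0 : ∀ k, 0 < s k) (hs1 : ∀ k, s k ≤ 1)
    (hs : Tendsto s atTop (𝓝 0)) (hv0 : ∀ x, Tendsto (fun k => v k x) atTop (𝓝 0))
    (h : (Fin n → ℝ) → ℝ) (C Kh : ℝ) (hKh : 0 ≤ Kh)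
    (mh : Measurable h) (hC : ∀ p, |h p| ≤ C) (hh : ∀ p q, |h p - h q| ≤ Kh * ‖p - q‖) :
    ∀ (l : List (Fin n)), l.Nodup →
    Tendsto (fun k => (2 / s k ^ 2) * ∫ p, v k p.1 * (h p.1 -
      W h l p.1 (J (s k) p)) ∂(PP n)) atTop (𝓝 0) := by
  intro l
  induction l with
  | nil =>
    intro _
    simp [W]
  | cons i l ih =>
    intro hnd
    have h1 := ih (List.nodup_cons.1 hnd).2
    have h2 := expand_C v D Kv hKv mv hD hv s hs0 hs1 hs hv0 i h C Kh hKh mh hC hh l
      (List.nodup_cons.1 hnd).2 (List.nodup_cons.1 hnd).1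
    have h3 := h1.add h2
    rw [add_zero] at h3
    refine h3.congr (fun k => ?_)
    rw [flux_telescope (s k) h (v k) C D mh (mv k) hC (hD k) i l]
    ring

theorem integral_sub_S (s : ℝ) (h ψ : (Fin n → ℝ) → ℝ) (C D : ℝ)
    (mh : Measurable h) (mψ : Measurable ψ) (hC : ∀ p, |h p| ≤ C) (hD : ∀ p, |ψ p| ≤ D) :
    ∫ x, ψ x * (h x - S s h x) ∂(γ n) =
      ∫ p, ψ p.1 * (h p.1 - W h (List.finRange n) p.1 (J s p)) ∂(PP n) := by
  have hD0 : 0 ≤ D := (abs_nonneg _).trans (hD 0)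
  have hC0 : 0 ≤ C := (abs_nonneg _).trans (hC 0)
  have bm : ∀ a b : ℝ, |a| ≤ D → |b| ≤ C → |a * b| ≤ D * C := by
    intro a b ha hb
    rw [abs_mul]; exact mul_le_mul ha hb (abs_nonneg _) hD0
  have i1 := bint (fun x => ψ x * h x) (D * C) (mψ.mul mh) (fun x => bm _ _ (hD _) (hC _))
  have i2 := bint (fun x => ψ x * S s h x) (D * C) (mψ.mul (measurable_S s h mh))
    (fun x => bm _ _ (hD _) (abs_S_le s h C hC _))
  have i3 := bint' (fun p => ψ p.1 * h p.1) (D * C) ((mψ.mul mh).comp measurable_fst)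
    (fun x => bm _ _ (hD _) (hC _))
  have i4 := bint' (fun p => ψ p.1 * W h (List.finRange n) p.1 (J s p)) (D * C)
    ((mψ.comp measurable_fst).mul (measurable_WA s h mh _))
    (fun x => bm _ _ (hD _) (abs_W_le h C hC _ _ _))
  simp_rw [mul_sub]
  rw [integral_sub i1 i2, integral_sub i3 i4, integral_S_mul s h mh C hC ψ mψ D hD,
    integral_fst (fun x => ψ x * h x) (mψ.mul mh)]

/-- Minty's trick. -/
theorem minty (g : (Fin n → ℝ) → ℝ) (mg : Measurable g) (hg : ∀ p, |g p| ≤ 1) (lam C K : ℝ)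
    (hK : 0 ≤ K) (u : ℕ → (Fin n → ℝ) → ℝ) (mu : ∀ k, Measurable (u k)) (hu : ∀ k p, |u k p| ≤ C)
    (hul : ∀ k p q, |u k p - u k q| ≤ K * ‖p - q‖) (s : ℕ → ℝ) (hs0 : ∀ k, 0 < s k)
    (hs1 : ∀ k, s k ≤ 1) (hs : Tendsto s atTop (𝓝 0)) (δ : ℕ → ℝ) (hδ : Tendsto δ atTop (𝓝 0))
    (hres : ∀ k p, |u k p - S (s k) (u k) p - s k ^ 2 / 2 * (g p - lam * u k p)| ≤
      s k ^ 2 / 2 * δ k) (ub : (Fin n → ℝ) → ℝ)
    (hub : ∀ x, Tendsto (fun k => u k x) atTop (𝓝 (ub x)))
    (F : (Fin n → ℝ) → ℝ) (CF KF : ℝ) (hKF : 0 ≤ KF) (hCF : ∀ p, |F p| ≤ CF)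
    (hF : ∀ p q, |F p - F q| ≤ KF * ‖p - q‖) (t : ℝ) (ht : 0 < t) :
    ∫ x, (g x - lam * ub x) * F x ∂(γ n) ≤
      ((List.finRange n).map fun i => ∫ x, (-dd F i x) *
        max (-dd (fun y => ub y + t * F y) i x) 0 ∂(γ n)).sum := by
  have hC0 : 0 ≤ C := (abs_nonneg _).trans (hu 0 0)
  have hCF0 : 0 ≤ CF := (abs_nonneg _).trans (hCF 0)
  have hubC : ∀ x, |ub x| ≤ C := fun x =>
    le_of_tendsto (hub x).abs (Eventually.of_forall fun k => hu k x)
  have hubK : ∀ p q, |ub p - ub q| ≤ K * ‖p - q‖ := fun p q =>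
    le_of_tendsto ((hub p).sub (hub q)).abs (Eventually.of_forall fun k => hul k p q)
  have mub := meas_of_lip ub K hK hubK
  have mF := meas_of_lip F KF hKF hF
  set h : (Fin n → ℝ) → ℝ := fun y => ub y + t * F y with hh
  have mh : Measurable h := mub.add (mF.const_mul t)
  have hhC : ∀ p, |h p| ≤ C + t * CF := by
    intro p
    calc |ub p + t * F p| ≤ |ub p| + |t * F p| := abs_add_le _ _
      _ = |ub p| + t * |F p| := by rw [abs_mul, abs_of_pos ht]
      _ ≤ _ := add_le_add (hubC p) (mul_le_mul_of_nonneg_left (hCF p) ht.le)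
  have hhK : ∀ p q, |h p - h q| ≤ (K + t * KF) * ‖p - q‖ := by
    intro p q
    calc |h p - h q| = |(ub p - ub q) + t * (F p - F q)| := by simp only [hh]; ring_nf
      _ ≤ |ub p - ub q| + |t * (F p - F q)| := abs_add_le _ _
      _ = |ub p - ub q| + t * |F p - F q| := by rw [abs_mul, abs_of_pos ht]
      _ ≤ K * ‖p - q‖ + t * (KF * ‖p - q‖) :=
        add_le_add (hubK p q) (mul_le_mul_of_nonneg_left (hF p q) ht.le)
      _ = _ := by ring
  set v : ℕ → (Fin n → ℝ) → ℝ := fun k x => u k x - ub x with hv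
  have mv : ∀ k, Measurable (v k) := fun k => (mu k).sub mub
  have hvD : ∀ k p, |v k p| ≤ 2 * C := by
    intro k p
    have h1 := abs_le.1 (hu k p)
    have h2 := abs_le.1 (hubC p)
    rw [abs_le]; constructor
    · linarith [h1.1, h2.2]
    · linarith [h1.2, h2.1]
  have hvK : ∀ k p q, |v k p - v k q| ≤ (2 * K) * ‖p - q‖ := by
    intro k p q
    calc |v k p - v k q| = |(u k p - u k q) - (ub p - ub q)| := by simp only [hv]; ring_nf
      _ ≤ |u k p - u k q| + |ub p - ub q| := abs_sub _ _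
      _ ≤ K * ‖p - q‖ + K * ‖p - q‖ := add_le_add (hul k p q) (hubK p q)
      _ = _ := by ring
  have hv0 : ∀ x, Tendsto (fun k => v k x) atTop (𝓝 0) := by
    intro x
    have := (hub x).sub_const (ub x)
    simpa using this
  -- the two limits of the right-hand side
  have L1 := expand_B_list h F (C + t * CF) CF (K + t * KF) KF (by positivity) hKF mh mF hhC hCF
    hhK hF s hs0 hs1 hs (List.finRange n) (List.nodup_finRange n)
  have L2 := expand_C_list v (2 * C) (2 * K) (by positivity) mv hvD hvK s hs0 hs1 hs hv0 h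
    (C + t * CF) (K + t * KF) (by positivity) mh hhC hhK (List.finRange n) (List.nodup_finRange n)
  -- left-hand side limit
  have L3 : Tendsto (fun k => ∫ x, ((2 / s k ^ 2) * (u k x - S (s k) (u k) x)) *
      (u k x - h x) ∂(γ n)) atTop (𝓝 (∫ x, (g x - lam * ub x) * (ub x - h x) ∂(γ n))) := by
    have hδb : ∃ B, ∀ k, δ k ≤ B := by
      obtain ⟨B, hB⟩ := hδ.bddAbove_range
      exact ⟨B, fun k => hB ⟨k, rfl⟩⟩
    obtain ⟨B, hB⟩ := hδb
    have hr : ∀ k p, |(2 / s k ^ 2) * (u k p - S (s k) (u k) p) - (g p - lam * u k p)| ≤ δ k := by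
      intro k p
      have hsk := hs0 k
      have h1 := mul_le_mul_of_nonneg_left (hres k p) (show 0 ≤ 2 / s k ^ 2 by positivity)
      have h2 : 2 / s k ^ 2 * (s k ^ 2 / 2 * δ k) = δ k := by field_simp
      have h3 : (2 / s k ^ 2) * (u k p - S (s k) (u k) p) - (g p - lam * u k p) =
        2 / s k ^ 2 * (u k p - S (s k) (u k) p - s k ^ 2 / 2 * (g p - lam * u k p)) := by
        field_simp
      rw [h3, abs_mul, abs_of_pos (show 0 < 2 / s k ^ 2 by positivity)]
      linarith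
    have hδ0 : ∀ k, 0 ≤ δ k := fun k => (abs_nonneg _).trans (hr k 0)
    apply tendsto_integral_of_dominated_convergence
      (fun _ => (1 + |lam| * C + B) * (C + (C + t * CF)))
    · intro k
      exact ((((mu k).sub (measurable_S (s k) (u k) (mu k))).const_mul _).mul
        ((mu k).sub mh)).aestronglyMeasurable
    · exact integrable_const _
    · intro k
      refine Eventually.of_forall fun p => ?_
      rw [Real.norm_eq_abs, abs_mul]
      have hB0 : 0 ≤ B := (hδ0 k).trans (hB k)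
      apply mul_le_mul _ _ (abs_nonneg _) (by positivity)
      · have h1 := hr k p
        have h2 : |g p - lam * u k p| ≤ 1 + |lam| * C := by
          calc |g p - lam * u k p| ≤ |g p| + |lam * u k p| := abs_sub _ _
            _ = |g p| + |lam| * |u k p| := by rw [abs_mul]
            _ ≤ _ := add_le_add (hg p) (mul_le_mul_of_nonneg_left (hu k p) (abs_nonneg _))
        calc |(2 / s k ^ 2) * (u k p - S (s k) (u k) p)| =
            |((2 / s k ^ 2) * (u k p - S (s k) (u k) p) - (g p - lam * u k p)) +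
              (g p - lam * u k p)| := by ring_nf
          _ ≤ _ + _ := abs_add_le _ _
          _ ≤ δ k + (1 + |lam| * C) := add_le_add h1 h2
          _ ≤ _ := by linarith [hB k]
      · calc |u k p - h p| ≤ |u k p| + |h p| := abs_sub _ _
          _ ≤ _ := add_le_add (hu k p) (hhC p)
    · refine Eventually.of_forall fun x => ?_
      apply Tendsto.mul _ ((hub x).sub_const _)
      have h1 : Tendsto (fun k => g x - lam * u k x) atTop (𝓝 (g x - lam * ub x)) :=
        tendsto_const_nhds.sub ((hub x).const_mul lam)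
      have h2 : Tendsto (fun k => (2 / s k ^ 2) * (u k x - S (s k) (u k) x) -
        (g x - lam * u k x)) atTop (𝓝 0) := squeeze_zero_norm (fun k => hr k x) hδ
      have h3 := h2.add h1
      rw [zero_add] at h3
      refine h3.congr (fun k => by ring)
  -- monotonicity at each step
  have key : ∀ k, 0 ≤ (∫ x, ((2 / s k ^ 2) * (u k x - S (s k) (u k) x)) *
      (u k x - h x) ∂(γ n)) - ((2 / s k ^ 2) * ∫ p, v k p.1 * (h p.1 -
      W h (List.finRange n) p.1 (J (s k) p)) ∂(PP n) - t * ((2 / s k ^ 2) * ∫ p, F p.1 * (h p.1 -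
      W h (List.finRange n) p.1 (J (s k) p)) ∂(PP n))) := by
    intro k
    have hsk := hs0 k
    have hmax : ∀ p, |u k p| ≤ C + t * CF := fun p => (hu k p).trans (by
      have : 0 ≤ t * CF := by positivity
      linarith)
    have h1 := mono_S (s k) hsk.le (hs1 k) (u k) h (mu k) mh (C + t * CF) hmax hhC
    have hB2 : 0 ≤ C + t * CF := by positivity
    have bS : ∀ w : (Fin n → ℝ) → ℝ, (∀ p, |w p| ≤ C + t * CF) → ∀ p,
        |w p - S (s k) w p| ≤ 2 * (C + t * CF) := by
      intro w hw p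
      have a1 := abs_le.1 (hw p)
      have a2 := abs_le.1 (abs_S_le (s k) w _ hw p)
      rw [abs_le]; constructor
      · linarith [a1.1, a2.2]
      · linarith [a1.2, a2.1]
    have buh : ∀ p, |u k p - h p| ≤ 2 * (C + t * CF) := by
      intro p
      have a1 := abs_le.1 (hmax p)
      have a2 := abs_le.1 (hhC p)
      rw [abs_le]; constructor
      · linarith [a1.1, a2.2]
      · linarith [a1.2, a2.1]
    have i1 : Integrable (fun x => (u k x - S (s k) (u k) x) * (u k x - h x)) (γ n) :=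
      bint _ ((2 * (C + t * CF)) * (2 * (C + t * CF)))
        (((mu k).sub (measurable_S _ _ (mu k))).mul ((mu k).sub mh)) (fun p => by
          rw [abs_mul]; exact mul_le_mul (bS _ hmax p) (buh p) (abs_nonneg _) (by positivity))
    have mhS : Measurable fun x => h x - S (s k) h x := mh.sub (measurable_S _ _ mh)
    have i2 : Integrable (fun x => v k x * (h x - S (s k) h x)) (γ n) :=
      bint _ ((2 * C) * (2 * (C + t * CF))) ((mv k).mul mhS) (fun p => by
          rw [abs_mul]; exact mul_le_mul (hvD k p) (bS _ hhC p) (abs_nonneg _) (by positivity))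
    have i3 : Integrable (fun x => F x * (h x - S (s k) h x)) (γ n) :=
      bint _ (CF * (2 * (C + t * CF))) (mF.mul mhS) (fun p => by
          rw [abs_mul]; exact mul_le_mul (hCF p) (bS _ hhC p) (abs_nonneg _) hCF0)
    have e1 : ∀ x, ((u k x - S (s k) (u k) x) - (h x - S (s k) h x)) * (u k x - h x) =
        (u k x - S (s k) (u k) x) * (u k x - h x) -
        (v k x * (h x - S (s k) h x) - t * (F x * (h x - S (s k) h x))) := by
      intro x
      simp only [hv, hh]
      ring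
    have i4 : Integrable (fun x => v k x * (h x - S (s k) h x) -
      t * (F x * (h x - S (s k) h x))) (γ n) := i2.sub (i3.const_mul t)
    rw [integral_congr_ae (Eventually.of_forall e1), integral_sub i1 i4,
      integral_sub i2 (i3.const_mul t), integral_const_mul] at h1
    rw [← integral_sub_S (s k) h (v k) _ _ mh (mv k) hhC (hvD k),
      ← integral_sub_S (s k) h F _ _ mh mF hhC hCF]
    have e2 : ∫ x, ((2 / s k ^ 2) * (u k x - S (s k) (u k) x)) * (u k x - h x) ∂(γ n) =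
        (2 / s k ^ 2) * ∫ x, (u k x - S (s k) (u k) x) * (u k x - h x) ∂(γ n) := by
      rw [← integral_const_mul]
      apply integral_congr_ae
      refine Eventually.of_forall fun x => ?_
      dsimp only
      ring
    rw [e2]
    have h2 := mul_nonneg (show 0 ≤ 2 / s k ^ 2 by positivity) h1
    linarith
  have Lall := L3.sub (L2.sub (L1.const_mul t))
  have hlim := ge_of_tendsto Lall (Eventually.of_forall key)
  have e3 : ∫ x, (g x - lam * ub x) * (ub x - h x) ∂(γ n) =
      -t * ∫ x, (g x - lam * ub x) * F x ∂(γ n) := by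
    rw [← integral_const_mul]
    apply integral_congr_ae
    refine Eventually.of_forall fun x => ?_
    simp only [hh]
    ring
  rw [e3] at hlim
  have : 0 ≤ t * (((List.finRange n).map fun i => ∫ x, (-dd F i x) *
        max (-dd h i x) 0 ∂(γ n)).sum - ∫ x, (g x - lam * ub x) * F x ∂(γ n)) := by linarith
  have h5 := nonneg_of_mul_nonneg_right this ht
  linarith

end MP04ae38
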