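import Pool.Agent.Lib.MP_04ae38_an.Gauss
import Pool.Agent.Lib.MP_04ae38_an.Analytic

/-!
# One-step estimate in expectation
-/

open MeasureTheory ProbabilityTheory

namespace MP04ae38

theorem int_pow (k : ℕ) : Integrable (fun g : ℝ => g ^ k) (gaussianReal 0 1) := by
  have h := (memLp_id_gaussianReal' (μ := 0) (v := 1) (k : ENNReal) (by simp)).integrable_norm_pow'
  simp only [id_eq, Real.norm_eq_abs] at h
  have h2 : Integrable (fun g : ℝ => |g ^ k|) (gaussianReal 0 1) := by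
    simpa [abs_pow] using h
  exact (integrable_norm_iff (by fun_prop)).1 h2

theorem mom1 : ∫ g : ℝ, g ∂(gaussianReal 0 1) = 0 := integral_id_gaussianReal

theorem mom2 : ∫ g : ℝ, g ^ 2 ∂(gaussianReal 0 1) = 1 := by
  have h := variance_id_gaussianReal (μ := 0) (v := 1)
  rw [variance_eq_sub (memLp_id_gaussianReal 2)] at h
  simpa using h

theorem mom3 : ∫ g : ℝ, g ^ 3 ∂(gaussianReal 0 1) = 0 := by
  have h2 : MeasurePreserving (fun x : ℝ => -x) (gaussianReal 0 1) (gaussianReal 0 1) := by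
    refine ⟨by fun_prop, ?_⟩
    rw [gaussianReal_map_neg]; simp
  have h3 : ∫ g : ℝ, (-g) ^ 3 ∂(gaussianReal 0 1) = ∫ g : ℝ, g ^ 3 ∂(gaussianReal 0 1) :=
    h2.integral_comp (Homeomorph.neg ℝ).measurableEmbedding (fun g => g ^ 3)
  have h4 : ∫ g : ℝ, (-g) ^ 3 ∂(gaussianReal 0 1) = - ∫ g : ℝ, g ^ 3 ∂(gaussianReal 0 1) := by
    rw [← integral_neg]; congr 1; funext g; ring
  linarith

theorem int_abs3 : Integrable (fun g : ℝ => |g| ^ 3) (gaussianReal 0 1) := by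
  simpa [abs_pow] using (int_pow 3).abs

theorem poly_int (c0 c1 c2 c3 c4 c5 c6 : ℝ) :
    Integrable (fun g : ℝ => c0 + c1 * g + c2 * g ^ 2 + c3 * g ^ 3 + c4 * g ^ 4 + c5 * |g| ^ 3 +
      c6 * g ^ 6) (gaussianReal 0 1) ∧
    ∫ g : ℝ, (c0 + c1 * g + c2 * g ^ 2 + c3 * g ^ 3 + c4 * g ^ 4 + c5 * |g| ^ 3 +
      c6 * g ^ 6) ∂(gaussianReal 0 1) = c0 + c2 + c4 * (∫ g : ℝ, g ^ 4 ∂(gaussianReal 0 1)) +
      c5 * (∫ g : ℝ, |g| ^ 3 ∂(gaussianReal 0 1)) + c6 * (∫ g : ℝ, g ^ 6 ∂(gaussianReal 0 1)) := by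
  have j0 := integrable_const (μ := gaussianReal 0 1) c0
  have j1 : Integrable (fun g : ℝ => c1 * g) (gaussianReal 0 1) := by
    simpa using (int_pow 1).const_mul c1
  have j2 := (int_pow 2).const_mul c2
  have j3 := (int_pow 3).const_mul c3
  have j4 := (int_pow 4).const_mul c4
  have j5 := int_abs3.const_mul c5
  have j6 := (int_pow 6).const_mul c6
  have k1 : Integrable (fun g : ℝ => c0 + c1 * g) (gaussianReal 0 1) := j0.add j1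
  have k2 : Integrable (fun g : ℝ => c0 + c1 * g + c2 * g ^ 2) (gaussianReal 0 1) := k1.add j2
  have k3 : Integrable (fun g : ℝ => c0 + c1 * g + c2 * g ^ 2 + c3 * g ^ 3)
    (gaussianReal 0 1) := k2.add j3
  have k4 : Integrable (fun g : ℝ => c0 + c1 * g + c2 * g ^ 2 + c3 * g ^ 3 + c4 * g ^ 4)
    (gaussianReal 0 1) := k3.add j4
  have k5 : Integrable (fun g : ℝ => c0 + c1 * g + c2 * g ^ 2 + c3 * g ^ 3 + c4 * g ^ 4 +
    c5 * |g| ^ 3) (gaussianReal 0 1) := k4.add j5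
  refine ⟨k5.add j6, ?_⟩
  rw [integral_add k5 j6, integral_add k4 j5, integral_add k3 j4, integral_add k2 j3,
    integral_add k1 j2, integral_add j0 j1]
  have e1 : ∫ g : ℝ, c1 * g ∂(gaussianReal 0 1) = 0 := by
    rw [integral_const_mul c1 (fun g : ℝ => g), mom1, mul_zero]
  simp only [integral_const_mul, e1, mom2, mom3]
  simp

theorem Fn_bound (τ : ℝ) (hτ : 0 ≤ τ) : |Fn τ| ≤ 5 / 2 * (1 + τ) := by
  rw [abs_of_nonneg (Fn_nonneg τ hτ)]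
  refine (Fn_le τ hτ).trans ?_
  have : √τ ≤ 1 + τ := by
    rw [Real.sqrt_le_iff]; constructor <;> nlinarith
  linarith

theorem measurable_Fn : Measurable Fn := by
  unfold Fn; fun_prop

theorem step_radial (r0 : ℝ) (hr0 : 0 < r0) : ∃ s0 : ℝ, 0 < s0 ∧ s0 ≤ 1 ∧
    ∀ s a2 b : ℝ, 0 < s → s ≤ s0 → 0 ≤ a2 → 0 ≤ b → r0 ^ 2 ≤ a2 + b ^ 2 →
      a2 * (5 / (4 * r0) + 5 / r0 ^ 3) ≤ 1 / 100 →
      Integrable (fun g : ℝ => Fn (a2 + (√(1 - s ^ 2) * b - 2 * s * g) ^ 2)) (gaussianReal 0 1) ∧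
      ∫ g, Fn (a2 + (√(1 - s ^ 2) * b - 2 * s * g) ^ 2) ∂(gaussianReal 0 1) ≤
        Fn (a2 + b ^ 2) - 11 / 10 * s ^ 2 := by
  obtain ⟨C, hC0, hC⟩ := det_est r0 (∫ g : ℝ, |g| ^ 3 ∂(gaussianReal 0 1))
    (∫ g : ℝ, g ^ 4 ∂(gaussianReal 0 1)) (∫ g : ℝ, g ^ 6 ∂(gaussianReal 0 1)) hr0
    (integral_nonneg (fun g => by positivity)) (integral_nonneg (fun g => by positivity))
    (integral_nonneg (fun g => by positivity))
  refine ⟨min 1 (1 / (100 * C)), by positivity, min_le_left _ _, ?_⟩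
  intro s a2 b hs0 hs ha2 hb hρ ha
  have hs1 : s ≤ 1 := hs.trans (min_le_left _ _)
  have hsC : s * C ≤ 1 / 100 := by
    have := hs.trans (min_le_right _ _)
    rw [le_div_iff₀ (by positivity)] at this
    linarith
  set c := √(1 - s ^ 2) with hc
  have hc0 : 0 ≤ c := Real.sqrt_nonneg _
  have hc2 : c ^ 2 = 1 - s ^ 2 := Real.sq_sqrt (by nlinarith)
  have hc1 : c ≤ 1 := by nlinarith
  set ρ := √(a2 + b ^ 2) with hρdef
  have hρ2 : ρ ^ 2 = a2 + b ^ 2 := Real.sq_sqrt (by positivity)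
  have hρr : r0 ≤ ρ := Real.le_sqrt_of_sq_le hρ
  have hρ0 : 0 < ρ := hr0.trans_le hρr
  have hbρ : b ≤ ρ := Real.le_sqrt_of_sq_le (by linarith)
  -- integrability
  have hint : Integrable (fun g : ℝ => Fn (a2 + (c * b - 2 * s * g) ^ 2)) (gaussianReal 0 1) := by
    have hI : Integrable (fun g : ℝ => 5 / 2 * (1 + (a2 + (c * b) ^ 2)) + (5 / 2 * (4 * s ^ 2)) * g ^ 2
        - (5 / 2 * (4 * s * c * b)) * g ^ 1) (gaussianReal 0 1) :=
      ((integrable_const _).add ((int_pow 2).const_mul _)).sub ((int_pow 1).const_mul _)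
    refine hI.mono' ((measurable_Fn.comp (by fun_prop)).aestronglyMeasurable)
      (Filter.Eventually.of_forall fun g => ?_)
    rw [Real.norm_eq_abs]
    refine (Fn_bound _ (by positivity)).trans (le_of_eq ?_)
    ring
  refine ⟨hint, ?_⟩
  set A1 := (5 / (4 * ρ) - 24 / 5 / (4 + ρ ^ 2) ^ 2) with hA1
  set A2 := (5 / (16 * ρ ^ 3) - 24 / 5 / (4 + ρ ^ 2) ^ 3) with hA2
  set A3 := (5 / (32 * ρ ^ 5) + 6 / 5 / (4 + ρ ^ 2) ^ 3) with hA3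
  have hA30 : 0 ≤ A3 := by positivity
  have hpt : ∀ g : ℝ, Fn (a2 + (c * b - 2 * s * g) ^ 2) ≤
      (Fn (ρ ^ 2) - A1 * (s ^ 2 * b ^ 2) - A2 * (s ^ 4 * b ^ 4) + 9 * A3 * (s ^ 6 * b ^ 6))
      + (- A1 * (4 * s * c * b) - A2 * (8 * s ^ 3 * c * b ^ 3)) * g ^ 1
      + (A1 * (4 * s ^ 2) - A2 * (16 * s ^ 2 * c ^ 2 * b ^ 2 - 8 * s ^ 4 * b ^ 2)) * g ^ 2
      + (A2 * (32 * s ^ 3 * c * b)) * g ^ 3
      + (- A2 * (16 * s ^ 4)) * g ^ 4
      + (9 * A3 * (64 * s ^ 3 * b ^ 3)) * |g| ^ 3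
      + (9 * A3 * (64 * s ^ 6)) * g ^ 6 := by
    intro g
    have hD : (c * b - 2 * s * g) ^ 2 = b ^ 2 + (-(s ^ 2 * b ^ 2) - 4 * s * c * b * g
        + 4 * s ^ 2 * g ^ 2) := by
      calc (c * b - 2 * s * g) ^ 2 = c ^ 2 * b ^ 2 - 4 * s * c * b * g + 4 * s ^ 2 * g ^ 2 := by ring
        _ = _ := by rw [hc2]; ring
    set D := (-(s ^ 2 * b ^ 2) - 4 * s * c * b * g + 4 * s ^ 2 * g ^ 2) with hDdef
    have e1 : a2 + (c * b - 2 * s * g) ^ 2 = ρ ^ 2 + D := by rw [hD, hρ2]; ring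
    have hD' : -ρ ^ 2 ≤ D := by
      have : 0 ≤ a2 + (c * b - 2 * s * g) ^ 2 := by positivity
      linarith
    rw [e1]
    refine (Fn_taylor ρ D hρ0 hD').trans ?_
    rw [← hA1, ← hA2, ← hA3]
    have h3 : |D| ^ 3 ≤ 9 * (s ^ 6 * b ^ 6 + 64 * s ^ 3 * b ^ 3 * |g| ^ 3 + 64 * s ^ 6 * g ^ 6) := by
      have k1 : |D| ≤ s ^ 2 * b ^ 2 + 4 * s * b * |g| + 4 * s ^ 2 * |g| ^ 2 := by
        have t1 : |4 * s * c * b * g| ≤ 4 * s * b * |g| := by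
          rw [abs_mul, abs_of_nonneg (show 0 ≤ 4 * s * c * b by positivity)]
          apply mul_le_mul_of_nonneg_right _ (abs_nonneg _)
          have : 4 * s * c * b = c * (4 * s * b) := by ring
          rw [this]
          exact mul_le_of_le_one_left (by positivity) hc1
        have t2 : |4 * s ^ 2 * g ^ 2| = 4 * s ^ 2 * |g| ^ 2 := by
          rw [abs_mul, abs_of_nonneg (show 0 ≤ 4 * s ^ 2 by positivity), abs_pow]
        have t3 : |-(s ^ 2 * b ^ 2)| = s ^ 2 * b ^ 2 := by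
          rw [abs_neg, abs_of_nonneg (by positivity)]
        calc |D| ≤ |-(s ^ 2 * b ^ 2) - 4 * s * c * b * g| + |4 * s ^ 2 * g ^ 2| := abs_add_le _ _
          _ ≤ |-(s ^ 2 * b ^ 2)| + |4 * s * c * b * g| + |4 * s ^ 2 * g ^ 2| := by
            gcongr; exact abs_sub _ _
          _ ≤ _ := by rw [t2, t3]; linarith
      have k2 : |D| ^ 3 ≤ (s ^ 2 * b ^ 2 + 4 * s * b * |g| + 4 * s ^ 2 * |g| ^ 2) ^ 3 :=
        pow_le_pow_left₀ (abs_nonneg _) k1 3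
      have k3 : ∀ x y z : ℝ, 0 ≤ x → 0 ≤ y → 0 ≤ z → (x + y + z) ^ 3 ≤
          9 * (x ^ 3 + y ^ 3 + z ^ 3) := by
        intro x y z hx hy hz
        nlinarith [mul_nonneg (add_nonneg hx hy) (sq_nonneg (x - y)),
          mul_nonneg (add_nonneg hx hz) (sq_nonneg (x - z)),
          mul_nonneg (add_nonneg hy hz) (sq_nonneg (y - z)),
          mul_nonneg hx (sq_nonneg (y - z)), mul_nonneg hy (sq_nonneg (x - z)),
          mul_nonneg hz (sq_nonneg (x - y))]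
      refine k2.trans ((k3 _ _ _ (by positivity) (by positivity) (by positivity)).trans ?_)
      have e6 : |g| ^ 6 = g ^ 6 := by
        rw [show (6 : ℕ) = 2 * 3 by norm_num, pow_mul, pow_mul, sq_abs]
      have : (s ^ 2 * b ^ 2) ^ 3 + (4 * s * b * |g|) ^ 3 + (4 * s ^ 2 * |g| ^ 2) ^ 3 =
        s ^ 6 * b ^ 6 + 64 * s ^ 3 * b ^ 3 * |g| ^ 3 + 64 * s ^ 6 * |g| ^ 6 := by ring
      rw [this, e6]
    have h4 := mul_le_mul_of_nonneg_left h3 hA30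
    have h5 : A2 * D ^ 2 = A2 * (s ^ 4 * b ^ 4) + A2 * (8 * s ^ 3 * c * b ^ 3) * g +
      A2 * (16 * s ^ 2 * c ^ 2 * b ^ 2 - 8 * s ^ 4 * b ^ 2) * g ^ 2 -
      A2 * (32 * s ^ 3 * c * b) * g ^ 3 + A2 * (16 * s ^ 4) * g ^ 4 := by
      rw [hDdef]; ring
    have h6 : A1 * D = -A1 * (s ^ 2 * b ^ 2) - A1 * (4 * s * c * b) * g + A1 * (4 * s ^ 2) * g ^ 2 := by
      rw [hDdef]; ring
    rw [h6, h5]
    linarith
  have hpt' : ∀ g : ℝ, Fn (a2 + (c * b - 2 * s * g) ^ 2) ≤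
      (Fn (ρ ^ 2) - A1 * (s ^ 2 * b ^ 2) - A2 * (s ^ 4 * b ^ 4) + 9 * A3 * (s ^ 6 * b ^ 6))
      + (- A1 * (4 * s * c * b) - A2 * (8 * s ^ 3 * c * b ^ 3)) * g
      + (A1 * (4 * s ^ 2) - A2 * (16 * s ^ 2 * c ^ 2 * b ^ 2 - 8 * s ^ 4 * b ^ 2)) * g ^ 2
      + (A2 * (32 * s ^ 3 * c * b)) * g ^ 3
      + (- A2 * (16 * s ^ 4)) * g ^ 4
      + (9 * A3 * (64 * s ^ 3 * b ^ 3)) * |g| ^ 3
      + (9 * A3 * (64 * s ^ 6)) * g ^ 6 := fun g => by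
    have := hpt g
    rw [pow_one] at this
    exact this
  obtain ⟨hi, he⟩ := poly_int
    (Fn (ρ ^ 2) - A1 * (s ^ 2 * b ^ 2) - A2 * (s ^ 4 * b ^ 4) + 9 * A3 * (s ^ 6 * b ^ 6))
    (- A1 * (4 * s * c * b) - A2 * (8 * s ^ 3 * c * b ^ 3))
    (A1 * (4 * s ^ 2) - A2 * (16 * s ^ 2 * c ^ 2 * b ^ 2 - 8 * s ^ 4 * b ^ 2))
    (A2 * (32 * s ^ 3 * c * b)) (- A2 * (16 * s ^ 4)) (9 * A3 * (64 * s ^ 3 * b ^ 3))
    (9 * A3 * (64 * s ^ 6))
  refine (integral_mono hint hi hpt').trans ?_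
  rw [he]
  have hfin := hC ρ b s hρr hb hbρ hs0 hs1
    (by rw [hρ2, add_sub_cancel_right]; exact ha) hsC
  rw [← hA1, ← hA2, ← hA3] at hfin
  have hfin2 := mul_le_mul_of_nonneg_left hfin (sq_nonneg s)
  rw [hc2, ← hρ2]
  generalize (∫ g : ℝ, g ^ 4 ∂(gaussianReal 0 1)) = M4 at *
  generalize (∫ g : ℝ, g ^ 6 ∂(gaussianReal 0 1)) = M6 at *
  generalize (∫ g : ℝ, |g| ^ 3 ∂(gaussianReal 0 1)) = M3 at *
  clear_value A1 A2 A3
  linarith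

end MP04ae38
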