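import Mathlib

/-!
# The Gaussian distribution function
-/

open Set Function MeasureTheory ProbabilityTheory Filter Topology

namespace MP04ae38

/-- Gaussian distribution function -/
noncomputable def Phi (x : ℝ) : ℝ := cdf (gaussianReal 0 1) x

theorem Phi_eq_integral (x : ℝ) : Phi x = ∫ t in Iic x, gaussianPDFReal 0 1 t := by
  unfold Phi
  rw [cdf_eq_real, measureReal_def, gaussianReal_apply_eq_integral _ one_ne_zero,
    ENNReal.toReal_ofReal]
  exact setIntegral_nonneg measurableSet_Iic (fun t _ => gaussianPDFReal_nonneg _ _ _)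

theorem continuous_pdf : Continuous (gaussianPDFReal 0 1) := by
  unfold gaussianPDFReal
  fun_prop

theorem hasDerivAt_Phi (x : ℝ) : HasDerivAt Phi (gaussianPDFReal 0 1 x) x := by
  have hi := integrable_gaussianPDFReal 0 1
  have e : Phi = fun x => (∫ t in Iic (0 : ℝ), gaussianPDFReal 0 1 t) +
      ∫ t in (0 : ℝ)..x, gaussianPDFReal 0 1 t := by
    funext x
    rw [Phi_eq_integral, ← intervalIntegral.integral_Iic_sub_Iic hi.integrableOn hi.integrableOn]
    ring
  rw [e]
  have h := (continuous_pdf.integral_hasStrictDerivAt 0 x).hasDerivAt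
  exact h.const_add _

theorem Phi_strictMono : StrictMono Phi := by
  apply strictMono_of_deriv_pos
  intro x
  rw [(hasDerivAt_Phi x).deriv]
  exact gaussianPDFReal_pos _ _ _ one_ne_zero

theorem Phi_continuous : Continuous Phi :=
  continuous_iff_continuousAt.2 fun x => (hasDerivAt_Phi x).continuousAt

theorem pdf_le (x : ℝ) : gaussianPDFReal 0 1 x ≤ (√(2 * Real.pi))⁻¹ := by
  unfold gaussianPDFReal
  simp only [NNReal.coe_one, mul_one, sub_zero]
  have : Real.exp (-x ^ 2 / 2) ≤ 1 := Real.exp_le_one_iff.2 (by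
    have := sq_nonneg x; linarith)
  calc (√(2 * Real.pi))⁻¹ * Real.exp (-x ^ 2 / 2) ≤ (√(2 * Real.pi))⁻¹ * 1 :=
        mul_le_mul_of_nonneg_left this (by positivity)
    _ = _ := mul_one _

theorem const_le : 5 / 2 * (√(2 * Real.pi))⁻¹ ≤ 1 := by
  rw [← div_eq_mul_inv, div_le_one (by positivity)]
  apply Real.le_sqrt_of_sq_le
  have := Real.pi_gt_d2
  norm_num at this ⊢
  linarith

theorem Phi_lip (x y : ℝ) : |Phi x - Phi y| ≤ |x - y| := by
  have h : ∀ x ∈ (univ : Set ℝ), ‖deriv Phi x‖ ≤ 1 := by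
    intro x _
    rw [(hasDerivAt_Phi x).deriv, Real.norm_eq_abs, abs_of_nonneg (gaussianPDFReal_nonneg _ _ _)]
    refine (pdf_le x).trans ?_
    have h1 := const_le
    have h2 : 0 ≤ (√(2 * Real.pi))⁻¹ := by positivity
    linarith
  have := convex_univ.norm_image_sub_le_of_norm_deriv_le
    (fun x _ => (hasDerivAt_Phi x).differentiableAt) h (mem_univ y) (mem_univ x)
  simpa using this

theorem Phi_pos (x : ℝ) : 0 < Phi x :=
  lt_of_le_of_lt (cdf_nonneg _ (x - 1)) (Phi_strictMono (by linarith : x - 1 < x))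

theorem Phi_lt_one (x : ℝ) : Phi x < 1 :=
  lt_of_lt_of_le (Phi_strictMono (by linarith : x < x + 1)) (cdf_le_one _ (x + 1))

theorem Phi_surj (t : ℝ) (h0 : 0 < t) (h1 : t < 1) : ∃ x, Phi x = t := by
  have hb : Tendsto Phi atBot (𝓝 0) := tendsto_cdf_atBot _
  have ht : Tendsto Phi atTop (𝓝 1) := tendsto_cdf_atTop _
  obtain ⟨a, ha⟩ := (hb.eventually (gt_mem_nhds h0)).exists
  obtain ⟨b, hb'⟩ := (ht.eventually (lt_mem_nhds h1)).exists
  exact mem_range_of_exists_le_of_exists_ge Phi_continuous ⟨a, ha.le⟩ ⟨b, hb'.le⟩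

theorem Phi_mp : MeasurePreserving Phi (gaussianReal 0 1) (volume.restrict (Icc (0 : ℝ) 1)) := by
  refine ⟨Phi_continuous.measurable, ?_⟩
  have : IsProbabilityMeasure ((gaussianReal 0 1).map Phi) :=
    Measure.isProbabilityMeasure_map Phi_continuous.measurable.aemeasurable
  apply Measure.ext_of_Iic
  intro t
  rw [Measure.map_apply Phi_continuous.measurable measurableSet_Iic,
    Measure.restrict_apply measurableSet_Iic]
  rcases le_or_gt t 0 with h | h
  · have e1 : Phi ⁻¹' Iic t = ∅ := by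
      ext x
      simp only [mem_preimage, mem_Iic, mem_empty_iff_false, iff_false, not_le]
      exact h.trans_lt (Phi_pos x)
    have e2 : Iic t ∩ Icc (0 : ℝ) 1 ⊆ {0} := by
      rintro x ⟨hx1, hx2⟩
      exact le_antisymm (hx1.trans h) hx2.1
    rw [e1, measure_empty]
    exact (measure_mono_null e2 (by simp)).symm
  rcases lt_or_ge t 1 with h1 | h1
  · obtain ⟨x, hx⟩ := Phi_surj t h h1
    have e1 : Phi ⁻¹' Iic t = Iic x := by
      ext y
      simp only [mem_preimage, mem_Iic, ← hx]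
      exact Phi_strictMono.le_iff_le
    have e2 : Iic t ∩ Icc (0 : ℝ) 1 = Icc 0 t := by
      ext y
      simp only [mem_inter_iff, mem_Iic, mem_Icc]
      constructor
      · rintro ⟨a, b, c⟩; exact ⟨b, a⟩
      · rintro ⟨a, b⟩; exact ⟨b, a, by linarith⟩
    rw [e1, e2, Real.volume_Icc, sub_zero, ← ofReal_cdf]
    congr 1
  · have e1 : Phi ⁻¹' Iic t = univ := by
      ext x
      simp only [mem_preimage, mem_Iic, mem_univ, iff_true]
      exact (Phi_lt_one x).le.trans h1
    have e2 : Iic t ∩ Icc (0 : ℝ) 1 = Icc 0 1 := by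
      ext y
      simp only [mem_inter_iff, mem_Iic, mem_Icc]
      constructor
      · rintro ⟨a, b, c⟩; exact ⟨b, c⟩
      · rintro ⟨a, b⟩; exact ⟨by linarith, a, b⟩
    rw [e1, e2, measure_univ, Real.volume_Icc, sub_zero, ENNReal.ofReal_one]

end MP04ae38
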