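import Pool.Agent.Lib.MP_04ae38_an.Minty

/-!
# The limiting resolvent solution
-/

open Set Function MeasureTheory ProbabilityTheory Filter Topology

namespace MP04ae38

variable {n : ℕ}

/-- Euclidean norm of the negative part of the gradient. -/
noncomputable def ngrad (h : (Fin n → ℝ) → ℝ) (x : Fin n → ℝ) : ℝ :=
  √(∑ i, (max (-dd h i x) 0) ^ 2)

theorem fderiv_eq_sum (h : (Fin n → ℝ) → ℝ) (x k : Fin n → ℝ) :
    fderiv ℝ h x k = ∑ i, k i * dd h i x := by
  have hk : k = ∑ i, k i • (Pi.single i (1 : ℝ) : Fin n → ℝ) := by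
    funext j
    simp [Finset.sum_apply, Pi.single_apply]
  conv_lhs => rw [hk]
  rw [map_sum]
  simp [dd]

theorem ngrad_le (ub : (Fin n → ℝ) → ℝ)
    (hdir : ∀ p q : Fin n → ℝ, (∀ i, p i ≤ q i) → ub p - ub q ≤ Fn (sq2 (q - p)))
    (x : Fin n → ℝ) (hx : DifferentiableAt ℝ ub x) : ngrad ub x ≤ 5 / 2 := by
  set k : Fin n → ℝ := fun i => max (-dd ub i x) 0 with hk
  have hk0 : ∀ i, 0 ≤ k i := fun i => le_max_right _ _
  have h1 : Tendsto (fun m : ℕ => ((m : ℝ) + 1) * (ub (x + ((m : ℝ) + 1)⁻¹ • k) - ub x)) atTop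
      (𝓝 (fderiv ℝ ub x k)) := by
    have hc : Tendsto (fun m : ℕ => ‖((m : ℝ) + 1)‖) atTop atTop := by
      have : Tendsto (fun m : ℕ => (m : ℝ) + 1) atTop atTop :=
        tendsto_atTop_add_const_right _ _ tendsto_natCast_atTop_atTop
      refine this.congr (fun m => ?_)
      rw [Real.norm_eq_abs, abs_of_nonneg (by positivity)]
    exact hx.hasFDerivAt.lim k hc
  have h2 : ∀ m : ℕ, -(5 / 2 * √(sq2 k)) ≤
      ((m : ℝ) + 1) * (ub (x + ((m : ℝ) + 1)⁻¹ • k) - ub x) := by
    intro m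
    have hm : (0 : ℝ) < (m : ℝ) + 1 := by positivity
    have h3 := hdir x (x + ((m : ℝ) + 1)⁻¹ • k) (fun i => by
      simp only [Pi.add_apply, Pi.smul_apply, smul_eq_mul]
      have : 0 ≤ ((m : ℝ) + 1)⁻¹ * k i := mul_nonneg (by positivity) (hk0 i)
      linarith)
    have e1 : sq2 (x + ((m : ℝ) + 1)⁻¹ • k - x) = (((m : ℝ) + 1)⁻¹) ^ 2 * sq2 k := by
      simp only [sq2, add_sub_cancel_left, Pi.smul_apply, smul_eq_mul, Finset.mul_sum]
      apply Finset.sum_congr rfl
      intro i _
      ring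
    rw [e1] at h3
    have h4 := h3.trans (Fn_le _ (mul_nonneg (sq_nonneg _) (sq2_nonneg k)))
    rw [Real.sqrt_mul (sq_nonneg _), Real.sqrt_sq (by positivity)] at h4
    have h5 := mul_le_mul_of_nonneg_left h4 hm.le
    have h6 : ((m : ℝ) + 1) * (5 / 2 * (((m : ℝ) + 1)⁻¹ * √(sq2 k))) = 5 / 2 * √(sq2 k) := by
      field_simp
    rw [h6] at h5
    linarith
  have h3 := ge_of_tendsto h1 (Eventually.of_forall h2)
  rw [fderiv_eq_sum] at h3
  have h4 : ∑ i, k i * dd ub i x = - sq2 k := by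
    simp only [sq2, ← Finset.sum_neg_distrib]
    apply Finset.sum_congr rfl
    intro i _
    simp only [hk]
    rcases le_total (-dd ub i x) 0 with h | h
    · rw [max_eq_right h]; ring
    · rw [max_eq_left h]; ring
  rw [h4] at h3
  have h5 : sq2 k ≤ 5 / 2 * √(sq2 k) := by linarith
  have h6 : ngrad ub x = √(sq2 k) := rfl
  rw [h6]
  have h7 : √(sq2 k) * √(sq2 k) = sq2 k := Real.mul_self_sqrt (sq2_nonneg k)
  by_contra hcon
  push Not at hcon
  nlinarith [Real.sqrt_nonneg (sq2 k)]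

theorem cs_ineq (a b : Fin n → ℝ) : ∑ i, a i * b i ≤ √(∑ i, a i ^ 2) * √(∑ i, b i ^ 2) :=
  Real.sum_mul_le_sqrt_mul_sqrt _ _ _

theorem measurable_ngrad (h : (Fin n → ℝ) → ℝ) : Measurable (ngrad h) := by
  unfold ngrad
  apply Measurable.sqrt
  apply Finset.measurable_sum
  intro i _
  exact (((measurable_dd h i).neg).max measurable_const).pow_const 2

theorem ngrad_nonneg (h : (Fin n → ℝ) → ℝ) (x : Fin n → ℝ) : 0 ≤ ngrad h x := Real.sqrt_nonneg _

theorem ngrad_bound (h : (Fin n → ℝ) → ℝ) (K : ℝ) (hK : 0 ≤ K)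
    (hh : ∀ p q, |h p - h q| ≤ K * ‖p - q‖) (x : Fin n → ℝ) : ngrad h x ≤ √(n * K ^ 2) := by
  unfold ngrad
  apply Real.sqrt_le_sqrt
  calc ∑ i, (max (-dd h i x) 0) ^ 2 ≤ ∑ i : Fin n, K ^ 2 := by
        apply Finset.sum_le_sum
        intro i _
        apply pow_le_pow_left₀ (le_max_right _ _)
        apply max_le _ hK
        have := abs_dd_le h K hK hh i x
        linarith [(abs_le.1 this).1]
    _ = n * K ^ 2 := by simp

/-- From the Minty inequality to the gradient bound. -/
theorem minty_bound (ub F w : (Fin n → ℝ) → ℝ) (K KF : ℝ) (hK : 0 ≤ K) (hKF : 0 ≤ KF)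
    (hubK : ∀ p q, |ub p - ub q| ≤ K * ‖p - q‖)
    (hdir : ∀ p q : Fin n → ℝ, (∀ i, p i ≤ q i) → ub p - ub q ≤ Fn (sq2 (q - p)))
    (hF : ∀ p q, |F p - F q| ≤ KF * ‖p - q‖)
    (hM : ∀ t : ℝ, 0 < t → ∫ x, w x * F x ∂(γ n) ≤
      ((List.finRange n).map fun i => ∫ x, (-dd F i x) *
        max (-dd (fun y => ub y + t * F y) i x) 0 ∂(γ n)).sum) :
    ∫ x, w x * F x ∂(γ n) ≤ 5 / 2 * ∫ x, ngrad F x ∂(γ n) := by
  set B := √(n * KF ^ 2) with hB
  have hB0 : 0 ≤ B := Real.sqrt_nonneg _
  have ing : Integrable (ngrad F) (γ n) := bint _ B (measurable_ngrad F) (fun p => by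
    rw [abs_of_nonneg (ngrad_nonneg _ _)]; exact ngrad_bound F KF hKF hF p)
  have key : ∀ t : ℝ, 0 < t → ∫ x, w x * F x ∂(γ n) ≤
      5 / 2 * ∫ x, ngrad F x ∂(γ n) + t * (B * ∫ x, ngrad F x ∂(γ n)) := by
    intro t ht
    refine (hM t ht).trans ?_
    have hsum : ((List.finRange n).map fun i => ∫ x, (-dd F i x) *
        max (-dd (fun y => ub y + t * F y) i x) 0 ∂(γ n)).sum =
        ∑ i, ∫ x, (-dd F i x) * max (-dd (fun y => ub y + t * F y) i x) 0 ∂(γ n) := by
      rw [Fin.sum_univ_def]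
    rw [hsum]
    have hhK : ∀ p q, |(ub p + t * F p) - (ub q + t * F q)| ≤ (K + t * KF) * ‖p - q‖ := by
      intro p q
      calc |(ub p + t * F p) - (ub q + t * F q)| = |(ub p - ub q) + t * (F p - F q)| := by ring_nf
        _ ≤ |ub p - ub q| + |t * (F p - F q)| := abs_add_le _ _
        _ = |ub p - ub q| + t * |F p - F q| := by rw [abs_mul, abs_of_pos ht]
        _ ≤ K * ‖p - q‖ + t * (KF * ‖p - q‖) :=
          add_le_add (hubK p q) (mul_le_mul_of_nonneg_left (hF p q) ht.le)
        _ = _ := by ring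
    have hint : ∀ i, Integrable (fun x => (-dd F i x) *
        max (-dd (fun y => ub y + t * F y) i x) 0) (γ n) := by
      intro i
      apply bint _ (KF * (K + t * KF)) ((measurable_dd F i).neg.mul
        ((measurable_dd _ i).neg.max measurable_const))
      intro p
      simp only [Pi.mul_apply]
      rw [abs_mul, Pi.neg_apply, abs_neg]
      apply mul_le_mul (abs_dd_le F KF hKF hF i p) _ (abs_nonneg _) hKF
      rw [abs_of_nonneg (le_max_right _ _)]
      apply max_le _ (by positivity)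
      have := abs_dd_le _ (K + t * KF) (by positivity) hhK i p
      simp only [Pi.neg_apply]
      linarith [(abs_le.1 this).1]
    rw [← integral_finsetSum _ (fun i _ => hint i)]
    have hle : ∫ x, ∑ i, (-dd F i x) * max (-dd (fun y => ub y + t * F y) i x) 0 ∂(γ n) ≤
        ∫ x, (5 / 2 + t * B) * ngrad F x ∂(γ n) := by
      apply integral_mono_ae (integrable_finsetSum _ (fun i _ => hint i)) (ing.const_mul _)
      filter_upwards [ae_diff ub K hK hubK, ae_diff F KF hKF hF] with x hx1 hx2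
      have hdd : ∀ i, dd (fun y => ub y + t * F y) i x = dd ub i x + t * dd F i x := by
        intro i
        unfold dd
        have h1 : HasFDerivAt (fun y => ub y + t * F y) (fderiv ℝ ub x + t • fderiv ℝ F x) x :=
          hx1.hasFDerivAt.add (hx2.hasFDerivAt.const_mul t)
        rw [h1.fderiv]
        simp
      have hterm : ∀ i ∈ Finset.univ, (-dd F i x) * max (-dd (fun y => ub y + t * F y) i x) 0 ≤
          max (-dd F i x) 0 * max (-dd ub i x) 0 + t * (max (-dd F i x) 0) ^ 2 := by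
        intro i _
        rw [hdd i]
        have h1 : max (-(dd ub i x + t * dd F i x)) 0 ≤ max (-dd ub i x) 0 +
          t * max (-dd F i x) 0 := by
          apply max_le
          · have a1 := le_max_left (-dd ub i x) 0
            have a2 := mul_le_mul_of_nonneg_left (le_max_left (-dd F i x) 0) ht.le
            linarith
          · have a1 := le_max_right (-dd ub i x) 0
            have a2 := mul_nonneg ht.le (le_max_right (-dd F i x) 0)
            linarith
        calc (-dd F i x) * max (-(dd ub i x + t * dd F i x)) 0 ≤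
            max (-dd F i x) 0 * max (-(dd ub i x + t * dd F i x)) 0 :=
              mul_le_mul_of_nonneg_right (le_max_left _ _) (le_max_right _ _)
          _ ≤ max (-dd F i x) 0 * (max (-dd ub i x) 0 + t * max (-dd F i x) 0) :=
              mul_le_mul_of_nonneg_left h1 (le_max_right _ _)
          _ = _ := by ring
      refine (Finset.sum_le_sum hterm).trans ?_
      rw [Finset.sum_add_distrib, ← Finset.mul_sum]
      have h1 := cs_ineq (fun i => max (-dd F i x) 0) (fun i => max (-dd ub i x) 0)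
      have h2 : ∑ i, (max (-dd F i x) 0) ^ 2 = ngrad F x * ngrad F x := by
        unfold ngrad
        rw [Real.mul_self_sqrt]
        exact Finset.sum_nonneg (fun i _ => sq_nonneg _)
      have h3 := ngrad_le ub hdir x hx1
      have h4 := ngrad_bound F KF hKF hF x
      have h5 := ngrad_nonneg F x
      have h6 : ∑ i, max (-dd F i x) 0 * max (-dd ub i x) 0 ≤ ngrad F x * (5 / 2) :=
        h1.trans (mul_le_mul_of_nonneg_left h3 h5)
      rw [h2]
      have h7 : t * (ngrad F x * ngrad F x) ≤ t * (B * ngrad F x) :=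
        mul_le_mul_of_nonneg_left (mul_le_mul_of_nonneg_right h4 h5) ht.le
      linarith
    refine hle.trans (le_of_eq ?_)
    rw [integral_const_mul]
    ring
  -- let `t → 0`
  have hlim : Tendsto (fun t : ℝ => 5 / 2 * ∫ x, ngrad F x ∂(γ n) +
      t * (B * ∫ x, ngrad F x ∂(γ n))) (𝓝[>] 0) (𝓝 (5 / 2 * ∫ x, ngrad F x ∂(γ n))) := by
    have h1 : Tendsto (fun t : ℝ => t) (𝓝[>] 0) (𝓝 0) := tendsto_id.mono_left nhdsWithin_le_nhds
    have := (h1.mul_const (B * ∫ x, ngrad F x ∂(γ n))).const_add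
      (5 / 2 * ∫ x, ngrad F x ∂(γ n))
    simpa using this
  apply ge_of_tendsto hlim
  filter_upwards [self_mem_nhdsWithin] with t ht
  exact key t ht

end MP04ae38
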