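import Pool.Agent.Lib.MP_04ae38_an.Resolvent

/-!
# Existence of the limiting resolvent solution
-/

open Set Function MeasureTheory ProbabilityTheory Filter Topology

namespace MP04ae38

variable {n : ℕ}

theorem subseq_lemma (u : ℕ → (Fin n → ℝ) → ℝ) (C K : ℝ) (hK : 0 ≤ K) (hu : ∀ k p, |u k p| ≤ C)
    (hul : ∀ k p q, |u k p - u k q| ≤ K * ‖p - q‖) :
    ∃ φ : ℕ → ℕ, StrictMono φ ∧ ∃ ub : (Fin n → ℝ) → ℝ,
      ∀ x, Tendsto (fun k => u (φ k) x) atTop (𝓝 (ub x)) := by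
  let a : ℕ → ℕ → ℝ := fun k j => u k (TopologicalSpace.denseSeq (Fin n → ℝ) j)
  have hcomp : IsCompact (Set.pi univ (fun _ : ℕ => Icc (-C) C)) :=
    isCompact_univ_pi (fun _ => isCompact_Icc)
  obtain ⟨b, _, φ, hφ, hlim⟩ := hcomp.tendsto_subseq (x := a) (fun k => by
    intro j _
    exact abs_le.1 (hu k _))
  refine ⟨φ, hφ, ?_⟩
  have hC : ∀ x, ∃ y, Tendsto (fun k => u (φ k) x) atTop (𝓝 y) := by
    intro x
    apply cauchySeq_tendsto_of_complete
    rw [Metric.cauchySeq_iff']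
    intro ε hε
    obtain ⟨j, hj⟩ : ∃ j, dist x (TopologicalSpace.denseSeq (Fin n → ℝ) j) < ε / (4 * (K + 1)) :=
      (TopologicalSpace.denseRange_denseSeq (Fin n → ℝ)).exists_dist_lt x (by positivity)
    set d := TopologicalSpace.denseSeq (Fin n → ℝ) j with hd
    have h1 : Tendsto (fun k => u (φ k) d) atTop (𝓝 (b j)) := (tendsto_pi_nhds.1 hlim) j
    obtain ⟨N, hN⟩ := (Metric.cauchySeq_iff'.1 h1.cauchySeq) (ε / 4) (by positivity)
    refine ⟨N, fun k hk => ?_⟩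
    have h2 := hN k hk
    rw [Real.dist_eq] at h2 ⊢
    have h3 : K * ‖x - d‖ ≤ ε / 4 := by
      rw [dist_eq_norm] at hj
      calc K * ‖x - d‖ ≤ (K + 1) * (ε / (4 * (K + 1))) :=
            mul_le_mul (by linarith) hj.le (norm_nonneg _) (by positivity)
        _ = ε / 4 := by field_simp
    have h4 := (hul (φ k) x d).trans h3
    have h5 := (hul (φ N) x d).trans h3
    have h6 : u (φ k) x - u (φ N) x = (u (φ k) x - u (φ k) d) + (u (φ k) d - u (φ N) d) -
      (u (φ N) x - u (φ N) d) := by ring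
    rw [h6]
    calc |(u (φ k) x - u (φ k) d) + (u (φ k) d - u (φ N) d) - (u (φ N) x - u (φ N) d)| ≤
        |(u (φ k) x - u (φ k) d) + (u (φ k) d - u (φ N) d)| + |u (φ N) x - u (φ N) d| := abs_sub _ _
      _ ≤ |u (φ k) x - u (φ k) d| + |u (φ k) d - u (φ N) d| + |u (φ N) x - u (φ N) d| := by
        gcongr; exact abs_add_le _ _
      _ < ε := by linarith
  choose ub hub using hC
  exact ⟨ub, hub⟩

/-- energy inequality in the limit. -/
theorem energy (g : (Fin n → ℝ) → ℝ) (hg : ∀ p, |g p| ≤ 1) (lam C : ℝ)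
    (u : ℕ → (Fin n → ℝ) → ℝ) (mu : ∀ k, Measurable (u k)) (hu : ∀ k p, |u k p| ≤ C)
    (s : ℕ → ℝ) (hs0 : ∀ k, 0 < s k)
    (hs1 : ∀ k, s k ≤ 1) (δ : ℕ → ℝ) (hδ : Tendsto δ atTop (𝓝 0))
    (hres : ∀ k p, |u k p - S (s k) (u k) p - s k ^ 2 / 2 * (g p - lam * u k p)| ≤
      s k ^ 2 / 2 * δ k) (ub : (Fin n → ℝ) → ℝ)
    (hub : ∀ x, Tendsto (fun k => u k x) atTop (𝓝 (ub x))) :
    0 ≤ ∫ x, (g x - lam * ub x) * ub x ∂(γ n) := by
  have hC0 : 0 ≤ C := (abs_nonneg _).trans (hu 0 0)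
  have L3 : Tendsto (fun k => ∫ x, ((2 / s k ^ 2) * (u k x - S (s k) (u k) x)) *
      u k x ∂(γ n)) atTop (𝓝 (∫ x, (g x - lam * ub x) * ub x ∂(γ n))) := by
    have hδb : ∃ B, ∀ k, δ k ≤ B := by
      obtain ⟨B, hB⟩ := hδ.bddAbove_range
      exact ⟨B, fun k => hB ⟨k, rfl⟩⟩
    obtain ⟨B, hB⟩ := hδb
    have hr : ∀ k p, |(2 / s k ^ 2) * (u k p - S (s k) (u k) p) - (g p - lam * u k p)| ≤ δ k := by
      intro k p
      have hsk := hs0 k
      have h1 := mul_le_mul_of_nonneg_left (hres k p) (show 0 ≤ 2 / s k ^ 2 by positivity)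
      have h2 : 2 / s k ^ 2 * (s k ^ 2 / 2 * δ k) = δ k := by field_simp
      have h3 : (2 / s k ^ 2) * (u k p - S (s k) (u k) p) - (g p - lam * u k p) =
        2 / s k ^ 2 * (u k p - S (s k) (u k) p - s k ^ 2 / 2 * (g p - lam * u k p)) := by
        field_simp
      rw [h3, abs_mul, abs_of_pos (show 0 < 2 / s k ^ 2 by positivity)]
      linarith
    have hδ0 : ∀ k, 0 ≤ δ k := fun k => (abs_nonneg _).trans (hr k 0)
    apply tendsto_integral_of_dominated_convergence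
      (fun _ => (1 + |lam| * C + B) * C)
    · intro k
      exact ((((mu k).sub (measurable_S (s k) (u k) (mu k))).const_mul _).mul
        (mu k)).aestronglyMeasurable
    · exact integrable_const _
    · intro k
      refine Eventually.of_forall fun p => ?_
      rw [Real.norm_eq_abs, abs_mul]
      have hB0 : 0 ≤ B := (hδ0 k).trans (hB k)
      apply mul_le_mul _ (hu k p) (abs_nonneg _) (by positivity)
      have h1 := hr k p
      have h2 : |g p - lam * u k p| ≤ 1 + |lam| * C := by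
        calc |g p - lam * u k p| ≤ |g p| + |lam * u k p| := abs_sub _ _
          _ = |g p| + |lam| * |u k p| := by rw [abs_mul]
          _ ≤ _ := add_le_add (hg p) (mul_le_mul_of_nonneg_left (hu k p) (abs_nonneg _))
      calc |(2 / s k ^ 2) * (u k p - S (s k) (u k) p)| =
          |((2 / s k ^ 2) * (u k p - S (s k) (u k) p) - (g p - lam * u k p)) +
            (g p - lam * u k p)| := by ring_nf
        _ ≤ _ + _ := abs_add_le _ _
        _ ≤ δ k + (1 + |lam| * C) := add_le_add h1 h2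
        _ ≤ _ := by linarith [hB k]
    · refine Eventually.of_forall fun x => ?_
      apply Tendsto.mul _ (hub x)
      have h1 : Tendsto (fun k => g x - lam * u k x) atTop (𝓝 (g x - lam * ub x)) :=
        tendsto_const_nhds.sub ((hub x).const_mul lam)
      have h2 : Tendsto (fun k => (2 / s k ^ 2) * (u k x - S (s k) (u k) x) -
        (g x - lam * u k x)) atTop (𝓝 0) := squeeze_zero_norm (fun k => hr k x) hδ
      have h3 := h2.add h1
      rw [zero_add] at h3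
      refine h3.congr (fun k => by ring)
  apply ge_of_tendsto L3
  refine Eventually.of_forall fun k => ?_
  have hsk := hs0 k
  have h1 := mono_S (s k) hsk.le (hs1 k) (u k) (fun _ => 0) (mu k) measurable_const C (hu k)
    (fun _ => by rw [abs_zero]; exact hC0)
  have hS0 : ∀ p : Fin n → ℝ, S (s k) (fun _ => (0 : ℝ)) p = 0 := by
    intro p
    have := abs_S_le (n := n) (s k) (fun _ => (0 : ℝ)) 0 (fun _ => by simp) p
    exact abs_eq_zero.1 (le_antisymm this (abs_nonneg _))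
  have h2 : ∫ x, ((2 / s k ^ 2) * (u k x - S (s k) (u k) x)) * u k x ∂(γ n) =
      (2 / s k ^ 2) * ∫ x, ((u k x - S (s k) (u k) x) - (0 - S (s k) (fun _ => (0 : ℝ)) x)) *
        (u k x - 0) ∂(γ n) := by
    rw [← integral_const_mul]
    apply integral_congr_ae
    refine Eventually.of_forall fun x => ?_
    dsimp only
    rw [hS0 x]
    ring
  rw [h2]
  exact mul_nonneg (by positivity) h1

theorem resolvent (g : (Fin n → ℝ) → ℝ) (hg : ∀ p, |g p| ≤ 1) (Λ : ℝ)
    (hΛ : 0 ≤ Λ) (hgl : ∀ p q, |g p - g q| ≤ Λ * ‖p - q‖) (lam : ℝ) (hlam : 0 < lam) :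
    ∃ ub : (Fin n → ℝ) → ℝ, Measurable ub ∧ (∀ x, |ub x| ≤ 1 / lam) ∧
      (∀ p q : Fin n → ℝ, (∀ i, p i ≤ q i) → ub p - ub q ≤ Fn (sq2 (q - p))) ∧
      (0 ≤ ∫ x, (g x - lam * ub x) * ub x ∂(γ n)) ∧
      ∀ (F : (Fin n → ℝ) → ℝ) (CF KF : ℝ), 0 ≤ KF → (∀ p, |F p| ≤ CF) →
        (∀ p q, |F p - F q| ≤ KF * ‖p - q‖) →
        ∫ x, (g x - lam * ub x) * F x ∂(γ n) ≤ 5 / 2 * ∫ x, ngrad F x ∂(γ n) := by
  have mg := meas_of_lip g Λ hΛ hgl
  have hgl' : ∀ p q, g p - g q ≤ Λ * ‖p - q‖ := fun p q => (le_abs_self _).trans (hgl p q)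
  have hex : ∀ k : ℕ, ∃ s : ℝ, 0 < s ∧ s ≤ 1 / ((k : ℝ) + 1) ∧ s ≤ 1 ∧
      ∃ u : (Fin n → ℝ) → ℝ, Measurable u ∧
      (∀ p, |u p| ≤ 1 / lam) ∧ (∀ p q, u p - u q ≤ Λ / lam * ‖p - q‖) ∧
      (∀ p q : Fin n → ℝ, (∀ i, p i ≤ q i) →
        u p - u q ≤ Fn (sq2 (q - p)) + Λ / lam * (1 / ((k : ℝ) + 1)) +
          1 / ((k : ℝ) + 1) * (‖p‖ + ‖q‖)) ∧
      (∀ p, |u p - S s u p - s ^ 2 / 2 * (g p - lam * u p)| ≤ s ^ 2 / 2 * (1 / ((k : ℝ) + 1))) := by
    intro k
    apply approx_sol g mg hg Λ hΛ hgl' lam hlam (1 / ((k : ℝ) + 1)) (by positivity) _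
      (1 / ((k : ℝ) + 1)) (by positivity)
    rw [div_le_one (by positivity)]
    have : (0 : ℝ) ≤ k := Nat.cast_nonneg k
    linarith
  choose s hs0 hsk hs1 u mu hu hul hdir hres using hex
  have hinv : Tendsto (fun k : ℕ => 1 / ((k : ℝ) + 1)) atTop (𝓝 0) :=
    tendsto_one_div_add_atTop_nhds_zero_nat
  have hs : Tendsto s atTop (𝓝 0) :=
    squeeze_zero (fun k => (hs0 k).le) hsk hinv
  have hul' : ∀ k p q, |u k p - u k q| ≤ Λ / lam * ‖p - q‖ := by
    intro k p q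
    rw [abs_le]
    constructor
    · have := hul k q p
      rw [norm_sub_rev] at this
      linarith
    · exact hul k p q
  obtain ⟨φ, hφ, ub, hub⟩ := subseq_lemma u (1 / lam) (Λ / lam) (by positivity) hu hul'
  have hφt := hφ.tendsto_atTop
  have hubC : ∀ x, |ub x| ≤ 1 / lam := fun x =>
    le_of_tendsto (hub x).abs (Eventually.of_forall fun k => hu (φ k) x)
  have hubK : ∀ p q, |ub p - ub q| ≤ Λ / lam * ‖p - q‖ := fun p q =>
    le_of_tendsto ((hub p).sub (hub q)).abs (Eventually.of_forall fun k => hul' (φ k) p q)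
  have mub := meas_of_lip ub (Λ / lam) (by positivity) hubK
  have hinv' := hinv.comp hφt
  have hdir' : ∀ p q : Fin n → ℝ, (∀ i, p i ≤ q i) → ub p - ub q ≤ Fn (sq2 (q - p)) := by
    intro p q hpq
    have h1 : Tendsto (fun k => Fn (sq2 (q - p)) + Λ / lam * (1 / (((φ k : ℕ) : ℝ) + 1)) +
          1 / (((φ k : ℕ) : ℝ) + 1) * (‖p‖ + ‖q‖)) atTop (𝓝 (Fn (sq2 (q - p)))) := by
      have := ((hinv'.const_mul (Λ / lam)).const_add (Fn (sq2 (q - p)))).add
        (hinv'.mul_const (‖p‖ + ‖q‖))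
      simpa using this
    exact le_of_tendsto_of_tendsto ((hub p).sub (hub q)) h1
      (Eventually.of_forall fun k => hdir (φ k) p q hpq)
  refine ⟨ub, mub, hubC, hdir', ?_, ?_⟩
  · exact energy g hg lam (1 / lam) (fun k => u (φ k)) (fun k => mu _) (fun k p => hu _ p)
      (fun k => s (φ k)) (fun k => hs0 _) (fun k => hs1 _) _ hinv' (fun k p => hres (φ k) p) ub hub
  · intro F CF KF hKF hCF hF
    apply minty_bound ub F (fun x => g x - lam * ub x) (Λ / lam) KF (by positivity) hKF hubK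
      hdir' hF
    intro t ht
    exact minty g mg hg lam (1 / lam) (Λ / lam) (by positivity) (fun k => u (φ k))
      (fun k => mu _) (fun k p => hu _ p) (fun k => hul' _)
      (fun k => s (φ k)) (fun k => hs0 _) (fun k => hs1 _) (hs.comp hφt) _ hinv'
      (fun k p => hres (φ k) p) ub hub F CF KF hKF hCF hF t ht

end MP04ae38
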