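import Pool.Agent.Lib.MP_04ae38_an.Game
import Pool.Agent.Lib.MP_04ae38_an.OneStep

/-!
# The averaged game operator and its Lipschitz bounds
-/

open Set Function MeasureTheory ProbabilityTheory Filter Topology

namespace MP04ae38

variable {n : ℕ}

/-- proposed jump. -/
noncomputable def jump (s : ℝ) (x y : Fin n → ℝ) : Fin n → ℝ :=
  fun i => √(1 - s ^ 2) * x i + s * y i

/-- Averaged game operator. -/
noncomputable def S (s : ℝ) (u : (Fin n → ℝ) → ℝ) (x : Fin n → ℝ) : ℝ :=
  ∫ y, W u (List.finRange n) x (jump s x y) ∂(γ n)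

theorem measurable_jump (s : ℝ) : Measurable fun p : (Fin n → ℝ) × (Fin n → ℝ) =>
    jump s p.1 p.2 := by
  unfold jump; fun_prop

theorem measurable_jump' (s : ℝ) (x : Fin n → ℝ) : Measurable fun y : Fin n → ℝ =>
    jump s x y := by
  unfold jump; fun_prop

theorem measurable_WJ (s : ℝ) (u : (Fin n → ℝ) → ℝ) (hu : Measurable u) (l : List (Fin n)) :
    Measurable fun p : (Fin n → ℝ) × (Fin n → ℝ) => W u l p.1 (jump s p.1 p.2) :=
  (measurable_W u hu l).comp (measurable_fst.prodMk (measurable_jump s))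

theorem measurable_WJ' (s : ℝ) (u : (Fin n → ℝ) → ℝ) (hu : Measurable u) (l : List (Fin n))
    (x : Fin n → ℝ) : Measurable fun y : Fin n → ℝ => W u l x (jump s x y) :=
  (measurable_WJ s u hu l).comp (measurable_const.prodMk measurable_id)

theorem integrable_WJ (s : ℝ) (u : (Fin n → ℝ) → ℝ) (hu : Measurable u) (C : ℝ)
    (hC : ∀ p, |u p| ≤ C) (l : List (Fin n)) (x : Fin n → ℝ) :
    Integrable (fun y : Fin n → ℝ => W u l x (jump s x y)) (γ n) :=
  Integrable.of_bound (measurable_WJ' s u hu l x).aestronglyMeasurable C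
    (Eventually.of_forall fun _ => abs_W_le u C hC l x _)

theorem measurable_S (s : ℝ) (u : (Fin n → ℝ) → ℝ) (hu : Measurable u) : Measurable (S s u) :=
  ((measurable_WJ s u hu (List.finRange n)).stronglyMeasurable.integral_prod_right').measurable

theorem abs_S_le (s : ℝ) (u : (Fin n → ℝ) → ℝ) (C : ℝ)
    (hC : ∀ p, |u p| ≤ C) (x : Fin n → ℝ) : |S s u x| ≤ C := by
  unfold S
  have := norm_integral_le_of_norm_le_const (μ := γ n)
    (f := fun y => W u (List.finRange n) x (jump s x y)) (C := C)
    (Eventually.of_forall fun y => abs_W_le u C hC _ x _)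
  simpa using this

theorem S_nonexp (s : ℝ) (u v : (Fin n → ℝ) → ℝ) (hu : Measurable u) (hv : Measurable v) (C : ℝ)
    (hCu : ∀ p, |u p| ≤ C) (hCv : ∀ p, |v p| ≤ C) (D : ℝ) (h : ∀ p, |u p - v p| ≤ D)
    (x : Fin n → ℝ) : |S s u x - S s v x| ≤ D := by
  unfold S
  rw [← integral_sub (integrable_WJ s u hu C hCu _ x) (integrable_WJ s v hv C hCv _ x)]
  have := norm_integral_le_of_norm_le_const (μ := γ n)
    (f := fun y => W u (List.finRange n) x (jump s x y) - W v (List.finRange n) x (jump s x y))
    (C := D) (Eventually.of_forall fun y => W_nonexp u v D h _ x _)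
  simpa using this

theorem W_lip (u : (Fin n → ℝ) → ℝ) (K : ℝ) (hK : 0 ≤ K) (hu : ∀ p q, u p - u q ≤ K * ‖p - q‖)
    (s : ℝ) (x y z : Fin n → ℝ) :
    W u (List.finRange n) x (jump s x z) - W u (List.finRange n) y (jump s y z) ≤
      K * ‖x - y‖ := by
  have hc0 : 0 ≤ √(1 - s ^ 2) := Real.sqrt_nonneg _
  have hc1 : √(1 - s ^ 2) ≤ 1 := by
    rw [Real.sqrt_le_iff]; constructor <;> nlinarith [sq_nonneg s]
  apply W_coupling u u _ (fun i a b => |a - b| ≤ |x i - y i|) _ _ _ (List.nodup_finRange n)
  · intro p q h1 _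
    refine (hu p q).trans (mul_le_mul_of_nonneg_left ?_ hK)
    rw [pi_norm_le_iff_of_nonneg (norm_nonneg _)]
    intro i
    have := (h1 i (List.mem_finRange i)).1
    calc ‖(p - q) i‖ = |p i - q i| := rfl
      _ ≤ |x i - y i| := this
      _ = ‖(x - y) i‖ := rfl
      _ ≤ _ := norm_le_pi_norm _ i
  · intro i _
    simp only [jump]
    set c := √(1 - s ^ 2) with hc
    have e : (c * x i + s * z i) - (c * y i + s * z i) = c * (x i - y i) := by ring
    have e' : |(c * x i + s * z i) - (c * y i + s * z i)| ≤ |x i - y i| := by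
      rw [e, abs_mul, abs_of_nonneg hc0]
      exact mul_le_of_le_one_left (abs_nonneg _) hc1
    refine ⟨?_, ?_, ?_, ?_⟩
    · intro _ _ b hb
      rcases hb with rfl | rfl
      · exact ⟨_, Or.inl rfl, le_rfl⟩
      · exact ⟨_, Or.inr rfl, e'⟩
    · intro _ _
      exact ⟨_, _, Or.inl rfl, Or.inl rfl, le_rfl⟩
    · intro h1 h2 a b ha hb
      push Not at h1
      -- x' ≤ x, y < y'
      have h3 : c * (x i - y i) < x i - y i := by linarith
      have h4 : 0 ≤ x i - y i := by
        by_contra hneg
        push Not at hneg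
        have : x i - y i ≤ c * (x i - y i) := by nlinarith
        linarith
      have h5 : 0 ≤ c * (x i - y i) := mul_nonneg hc0 h4
      rw [abs_of_nonneg h4]
      rcases ha with rfl | rfl <;> rcases hb with rfl | rfl
      · rw [abs_of_nonneg h4]
      · rw [abs_le]; constructor <;> linarith
      · rw [abs_le]; constructor <;> linarith
      · rw [e, abs_of_nonneg h5]; linarith
    · intro _ _ a ha
      rcases ha with rfl | rfl
      · exact ⟨_, Or.inl rfl, le_rfl⟩
      · exact ⟨_, Or.inr rfl, e'⟩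

theorem S_lip (u : (Fin n → ℝ) → ℝ) (hmu : Measurable u) (C : ℝ) (hC : ∀ p, |u p| ≤ C)
    (K : ℝ) (hK : 0 ≤ K) (hu : ∀ p q, u p - u q ≤ K * ‖p - q‖) (s : ℝ) (x y : Fin n → ℝ) :
    S s u x - S s u y ≤ K * ‖x - y‖ := by
  unfold S
  rw [← integral_sub (integrable_WJ s u hmu C hC _ x) (integrable_WJ s u hmu C hC _ y)]
  have := integral_mono ((integrable_WJ s u hmu C hC (List.finRange n) x).sub
    (integrable_WJ s u hmu C hC (List.finRange n) y))
    (integrable_const (μ := γ n) (K * ‖x - y‖)) (fun z => W_lip u K hK hu s x y z)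
  simpa using this

/-- squared euclidean norm -/
def sq2 (k : Fin n → ℝ) : ℝ := ∑ i, k i ^ 2

/-- The reflection coupling estimate, pathwise. -/
theorem W_directed (u : (Fin n → ℝ) → ℝ) (C : ℝ) (hC : ∀ p, |u p| ≤ C)
    (rr κ : ℝ) (hrr : 0 ≤ rr) (hκ : 0 ≤ κ)
    (hu : ∀ p q : Fin n → ℝ, (∀ i, p i ≤ q i) → u p - u q ≤ Fn (sq2 (q - p)) + rr + κ * (‖p‖ + ‖q‖))
    (s : ℝ) (hs0 : 0 < s) (hs1 : s ≤ 1) (θ : ℝ) (x y : Fin n → ℝ)
    (hxy : ∀ i, x i ≤ y i) (b : ℝ) (hb : 0 < b) 
    (hb2 : b ^ 2 = ∑ i, if θ ≤ y i - x i then (y i - x i) ^ 2 else 0)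
    (hθ : (1 - √(1 - s ^ 2)) * (‖x‖ + ‖y‖) + (1 + 2 * n) * √s ≤ θ / 2) (z : Fin n → ℝ) :
    let k : Fin n → ℝ := fun i => if θ ≤ y i - x i then (y i - x i) / b else 0
    W u (List.finRange n) x (jump s x z) - W u (List.finRange n) y (jump s y (refl k z)) ≤
      Fn ((∑ i, if θ ≤ y i - x i then 0 else (y i - x i) ^ 2) +
        (√(1 - s ^ 2) * b - 2 * s * ∑ j, k j * z j) ^ 2)
      + rr + κ * (‖x‖ + ‖y‖) + 2 * κ * s * (1 + 2 * n) * ‖z‖ + 2 * C * s ^ 3 * ‖z‖ ^ 6 := by
  intro k
  set c := √(1 - s ^ 2) with hc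
  set g := ∑ j, k j * z j with hg
  have hc0 : 0 ≤ c := Real.sqrt_nonneg _
  have hc1 : c ≤ 1 := by
    rw [hc, Real.sqrt_le_iff]; constructor <;> nlinarith [sq_nonneg s]
  have hC0 : 0 ≤ C := (abs_nonneg _).trans (hC 0)
  have hk0 : ∀ i, 0 ≤ k i := by
    intro i; simp only [k]; split_ifs
    · exact div_nonneg (by linarith [hxy i]) hb.le
    · exact le_rfl
  have hterm : ∀ i, 0 ≤ (if θ ≤ y i - x i then (y i - x i) ^ 2 else 0) := by
    intro i; split_ifs
    · positivity
    · exact le_rfl
  have hk1 : ∀ i, k i ≤ 1 := by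
    intro i; simp only [k]
    split_ifs with h
    · rw [div_le_one hb]
      have : (y i - x i) ^ 2 ≤ b ^ 2 := by
        rw [hb2]
        have := Finset.single_le_sum (fun j _ => hterm j) (Finset.mem_univ i)
        rwa [if_pos h] at this
      exact le_of_sq_le_sq this hb.le |>.trans le_rfl
    · exact zero_le_one
  have hzabs : ∀ i, |z i| ≤ ‖z‖ := fun i => norm_le_pi_norm z i
  have hgabs : |g| ≤ n * ‖z‖ := by
    calc |g| ≤ ∑ j, |k j * z j| := Finset.abs_sum_le_sum_abs _ _
      _ ≤ ∑ j : Fin n, ‖z‖ := by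
        apply Finset.sum_le_sum
        intro j _
        rw [abs_mul, abs_of_nonneg (hk0 j)]
        calc k j * |z j| ≤ 1 * ‖z‖ := mul_le_mul (hk1 j) (hzabs j) (abs_nonneg _) zero_le_one
          _ = ‖z‖ := one_mul _
      _ = n * ‖z‖ := by simp
  have hrefl : ∀ i, |refl k z i| ≤ (1 + 2 * n) * ‖z‖ := by
    intro i
    simp only [refl]
    rw [← hg]
    calc |z i - 2 * g * k i| ≤ |z i| + |2 * g * k i| := abs_sub _ _
      _ = |z i| + 2 * |g| * k i := by rw [abs_mul, abs_mul, abs_two, abs_of_nonneg (hk0 i)]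
      _ ≤ ‖z‖ + 2 * (n * ‖z‖) * 1 := by
        apply add_le_add (hzabs i)
        apply mul_le_mul (by linarith) (hk1 i) (hk0 i) (by positivity)
      _ = _ := by ring
  have hFn0 : 0 ≤ Fn ((∑ i, if θ ≤ y i - x i then 0 else (y i - x i) ^ 2) +
        (c * b - 2 * s * g) ^ 2) := by
    apply Fn_nonneg
    apply add_nonneg
    · apply Finset.sum_nonneg
      intro i _
      split_ifs
      · exact le_rfl
      · positivity
    · positivity
  by_cases hgood : ‖z‖ ≤ 1 / √s
  swap
  · -- bad event: trivial bound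
    push Not at hgood
    have h1 : 1 ≤ s ^ 3 * ‖z‖ ^ 6 := by
      have hss : 0 < √s := Real.sqrt_pos.2 hs0
      have h2 : 1 ≤ √s * ‖z‖ := by
        rw [div_lt_iff₀ hss] at hgood; linarith
      have h3 : s ^ 3 * ‖z‖ ^ 6 = (√s * ‖z‖) ^ 6 := by
        rw [mul_pow]
        congr 1
        calc s ^ 3 = (√s ^ 2) ^ 3 := by rw [Real.sq_sqrt hs0.le]
          _ = √s ^ 6 := by ring
      rw [h3]
      exact one_le_pow₀ h2
    have h2 : 2 * C ≤ 2 * C * s ^ 3 * ‖z‖ ^ 6 := by
      have := mul_le_mul_of_nonneg_left h1 (show 0 ≤ 2 * C by positivity)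
      linarith
    have h3 := abs_le.1 (abs_W_le u C hC (List.finRange n) x (jump s x z))
    have h4 := abs_le.1 (abs_W_le u C hC (List.finRange n) y (jump s y (refl k z)))
    have h5 : 0 ≤ κ * (‖x‖ + ‖y‖) := by positivity
    have h6 : 0 ≤ 2 * κ * s * (1 + 2 * n) * ‖z‖ := by positivity
    linarith [h3.2, h4.1]
  · -- good event
    have hss : 0 < √s := Real.sqrt_pos.2 hs0
    have hsz : s * ‖z‖ ≤ √s := by
      calc s * ‖z‖ ≤ s * (1 / √s) := mul_le_mul_of_nonneg_left hgood hs0.le
        _ = √s := by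
          rw [mul_one_div]; exact Real.div_sqrt
    have hn0 : (0 : ℝ) ≤ n := Nat.cast_nonneg n
    have hxj : ∀ i, |jump s x z i - x i| ≤ θ / 2 := by
      intro i
      have h1 : jump s x z i - x i = -(1 - c) * x i + s * z i := by simp only [jump]; ring
      rw [h1]
      calc |-(1 - c) * x i + s * z i| ≤ |-(1 - c) * x i| + |s * z i| := abs_add_le _ _
        _ = (1 - c) * |x i| + s * |z i| := by
          rw [abs_mul, abs_neg, abs_of_nonneg (by linarith : (0 : ℝ) ≤ 1 - c), abs_mul,
            abs_of_pos hs0]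
        _ ≤ (1 - c) * ‖x‖ + s * ‖z‖ := by
          gcongr
          · exact norm_le_pi_norm x i
          · exact hzabs i
        _ ≤ (1 - c) * (‖x‖ + ‖y‖) + (1 + 2 * n) * √s := by
          have t1 : 0 ≤ (1 - c) * ‖y‖ := mul_nonneg (by linarith) (norm_nonneg _)
          have t2 : 0 ≤ 2 * n * √s := by positivity
          linarith
        _ ≤ θ / 2 := hθ
    have hyj : ∀ i, |jump s y (refl k z) i - y i| ≤ θ / 2 := by
      intro i
      have h1 : jump s y (refl k z) i - y i = -(1 - c) * y i + s * refl k z i := by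
        simp only [jump]; ring
      rw [h1]
      calc |-(1 - c) * y i + s * refl k z i| ≤ |-(1 - c) * y i| + |s * refl k z i| :=
            abs_add_le _ _
        _ = (1 - c) * |y i| + s * |refl k z i| := by
          rw [abs_mul, abs_neg, abs_of_nonneg (by linarith : (0 : ℝ) ≤ 1 - c), abs_mul,
            abs_of_pos hs0]
        _ ≤ (1 - c) * ‖y‖ + s * ((1 + 2 * n) * ‖z‖) := by
          gcongr
          · exact norm_le_pi_norm y i
          · exact hrefl i
        _ ≤ (1 - c) * (‖x‖ + ‖y‖) + (1 + 2 * n) * √s := by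
          have t1 : 0 ≤ (1 - c) * ‖x‖ := mul_nonneg (by linarith) (norm_nonneg _)
          have t2 : s * ((1 + 2 * n) * ‖z‖) ≤ (1 + 2 * n) * √s := by
            calc s * ((1 + 2 * n) * ‖z‖) = (1 + 2 * n) * (s * ‖z‖) := by ring
              _ ≤ _ := mul_le_mul_of_nonneg_left hsz (by positivity)
          linarith
        _ ≤ θ / 2 := hθ
    let m : Fin n → ℝ := fun i => if θ ≤ y i - x i then
      jump s y (refl k z) i - jump s x z i else y i - x i
    have hm : ∑ i, m i ^ 2 = (∑ i, if θ ≤ y i - x i then 0 else (y i - x i) ^ 2) +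
        (c * b - 2 * s * g) ^ 2 := by
      have e1 : ∀ i, m i ^ 2 = (if θ ≤ y i - x i then 0 else (y i - x i) ^ 2) +
          (c - 2 * s * g / b) ^ 2 * (if θ ≤ y i - x i then (y i - x i) ^ 2 else 0) := by
        intro i
        simp only [m]
        split_ifs with h
        · simp only [jump, refl, k, if_pos h]
          rw [← hc]
          have : ∑ j, (if θ ≤ y j - x j then (y j - x j) / b else 0) * z j = g := rfl
          rw [this, ← mul_pow, zero_add]
          congr 1
          field_simp
          ring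
        · ring
      rw [Finset.sum_congr rfl (fun i _ => e1 i), Finset.sum_add_distrib, ← Finset.mul_sum, ← hb2,
        ← mul_pow]
      congr 2
      field_simp
    rw [← hm]
    have key := W_coupling u u (Fn (∑ i, m i ^ 2) + rr + κ * ((‖x‖ + s * ‖z‖) +
      (‖y‖ + s * ((1 + 2 * n) * ‖z‖))))
      (fun i a b => 0 ≤ b - a ∧ b - a ≤ m i) (jump s x z) (jump s y (refl k z)) (List.finRange n)
      (List.nodup_finRange n) x y ?_ ?_
    · refine key.trans ?_
      have t1 : κ * ((‖x‖ + s * ‖z‖) + (‖y‖ + s * ((1 + 2 * n) * ‖z‖))) ≤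
          κ * (‖x‖ + ‖y‖) + 2 * κ * s * (1 + 2 * n) * ‖z‖ := by
        have : κ * ((‖x‖ + s * ‖z‖) + (‖y‖ + s * ((1 + 2 * n) * ‖z‖))) =
          κ * (‖x‖ + ‖y‖) + κ * s * (2 + 2 * n) * ‖z‖ := by ring
        rw [this]
        have t2 : κ * s * (2 + 2 * n) * ‖z‖ ≤ κ * s * (2 * (1 + 2 * n)) * ‖z‖ := by
          gcongr
          linarith
        linarith
      have t3 : 0 ≤ 2 * C * s ^ 3 * ‖z‖ ^ 6 := by positivity
      linarith
    · intro p q h1 _
      have h1' := fun i => h1 i (List.mem_finRange i)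
      have hpq : ∀ i, p i ≤ q i := fun i => by linarith [(h1' i).1.1]
      refine (hu p q hpq).trans ?_
      have hF : Fn (sq2 (q - p)) ≤ Fn (∑ i, m i ^ 2) := by
        apply Fn_mono
        · exact Finset.sum_nonneg (fun i _ => by positivity)
        · apply Finset.sum_le_sum
          intro i _
          exact pow_le_pow_left₀ (h1' i).1.1 (h1' i).1.2 2
      have hp : ‖p‖ ≤ ‖x‖ + s * ‖z‖ := by
        rw [pi_norm_le_iff_of_nonneg (by positivity)]
        intro i
        rcases (h1' i).2.1 with h | h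
        · rw [h]
          have := norm_le_pi_norm x i
          have t : 0 ≤ s * ‖z‖ := by positivity
          linarith
        · rw [h]
          simp only [jump]
          rw [← hc, Real.norm_eq_abs]
          calc |c * x i + s * z i| ≤ |c * x i| + |s * z i| := abs_add_le _ _
            _ = c * |x i| + s * |z i| := by rw [abs_mul, abs_mul, abs_of_nonneg hc0, abs_of_pos hs0]
            _ ≤ 1 * ‖x‖ + s * ‖z‖ := by
              gcongr
              · exact norm_le_pi_norm x i
              · exact hzabs i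
            _ = _ := by ring
      have hq : ‖q‖ ≤ ‖y‖ + s * ((1 + 2 * n) * ‖z‖) := by
        rw [pi_norm_le_iff_of_nonneg (by positivity)]
        intro i
        rcases (h1' i).2.2 with h | h
        · rw [h]
          have := norm_le_pi_norm y i
          have t : 0 ≤ s * ((1 + 2 * n) * ‖z‖) := by positivity
          linarith
        · rw [h]
          simp only [jump]
          rw [← hc, Real.norm_eq_abs]
          calc |c * y i + s * refl k z i| ≤ |c * y i| + |s * refl k z i| := abs_add_le _ _
            _ = c * |y i| + s * |refl k z i| := by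
              rw [abs_mul, abs_mul, abs_of_nonneg hc0, abs_of_pos hs0]
            _ ≤ 1 * ‖y‖ + s * ((1 + 2 * n) * ‖z‖) := by
              gcongr
              · exact norm_le_pi_norm y i
              · exact hrefl i
            _ = _ := by ring
      have := mul_le_mul_of_nonneg_left (add_le_add hp hq) hκ
      linarith
    · intro i _
      by_cases h : θ ≤ y i - x i
      · have hmi : m i = jump s y (refl k z) i - jump s x z i := by simp only [m, if_pos h]
        rw [hmi]
        have hx1 := abs_le.1 (hxj i)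
        have hy1 := abs_le.1 (hyj i)
        refine ⟨?_, ?_, ?_, ?_⟩
        · intro hx hy b' hb'
          refine ⟨_, Or.inr rfl, ?_⟩
          rcases hb' with rfl | rfl
          · constructor <;> linarith
          · constructor <;> linarith
        · intro hx hy
          exact ⟨_, _, Or.inr rfl, Or.inr rfl, by linarith, le_rfl⟩
        · intro hx hy a b' ha hb'
          push Not at hx
          rcases ha with rfl | rfl <;> rcases hb' with rfl | rfl <;>
            (constructor <;> linarith)
        · intro hx hy a ha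
          push Not at hx hy
          refine ⟨_, Or.inr rfl, ?_⟩
          rcases ha with rfl | rfl
          · constructor <;> linarith
          · constructor <;> linarith
      · have hmi : m i = y i - x i := by simp only [m, if_neg h]
        have hki : k i = 0 := by simp only [k, if_neg h]
        rw [hmi]
        have e : jump s y (refl k z) i - jump s x z i = c * (y i - x i) := by
          simp only [jump, refl, hki]; ring
        have hxyi : 0 ≤ y i - x i := by linarith [hxy i]
        have h5 : 0 ≤ c * (y i - x i) := mul_nonneg hc0 hxyi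
        have h6 : c * (y i - x i) ≤ y i - x i := mul_le_of_le_one_left hxyi hc1
        refine ⟨?_, ?_, ?_, ?_⟩
        · intro hx hy b' hb'
          rcases hb' with rfl | rfl
          · exact ⟨_, Or.inl rfl, hxyi, le_rfl⟩
          · exact ⟨_, Or.inr rfl, by linarith, by linarith⟩
        · intro hx hy
          exact ⟨_, _, Or.inl rfl, Or.inl rfl, hxyi, le_rfl⟩
        · intro hx hy a b' ha hb'
          push Not at hx
          exfalso
          linarith
        · intro hx hy a ha
          rcases ha with rfl | rfl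
          · exact ⟨_, Or.inl rfl, hxyi, le_rfl⟩
          · exact ⟨_, Or.inr rfl, by linarith, by linarith⟩

end MP04ae38
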