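import Pool.Agent.Lib.MP_04ae38_an.Phi
import Pool.Agent.Lib.MP_04ae38_an.GaussIneq

/-!
# Transfer to the unit cube
-/

open Set Function MeasureTheory ProbabilityTheory Filter Topology

namespace MP04ae38

variable {n : ℕ}

/-- coordinatewise distribution function -/
noncomputable def PhiN (x : Fin n → ℝ) : Fin n → ℝ := fun i => Phi (x i)

theorem PhiN_continuous : Continuous (PhiN (n := n)) := by
  unfold PhiN
  exact continuous_pi fun i => Phi_continuous.comp (continuous_apply i)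

theorem PhiN_injective : Injective (PhiN (n := n)) := by
  intro x y h
  funext i
  exact Phi_strictMono.injective (congrFun h i)

theorem PhiN_emb : MeasurableEmbedding (PhiN (n := n)) :=
  PhiN_continuous.measurableEmbedding PhiN_injective

theorem PhiN_mp : MeasurePreserving (PhiN (n := n)) (γ n)
    (volume.restrict (Icc (0 : Fin n → ℝ) 1)) := by
  have h1 : MeasurePreserving (PhiN (n := n)) (γ n)
      (Measure.pi fun _ : Fin n => volume.restrict (Icc (0 : ℝ) 1)) := by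
    unfold γ PhiN
    exact measurePreserving_pi (fun _ => gaussianReal 0 1)
      (fun _ => volume.restrict (Icc (0 : ℝ) 1)) (fun _ => Phi_mp)
  have h2 : (Measure.pi fun _ : Fin n => (volume : Measure ℝ).restrict (Icc (0 : ℝ) 1)) =
      volume.restrict (Icc (0 : Fin n → ℝ) 1) := by
    rw [← Measure.restrict_pi_pi, ← volume_pi]
    congr 1
    exact Set.pi_univ_Icc 0 1
  rwa [h2] at h1

theorem PhiN_mem (x : Fin n → ℝ) (i : Fin n) : 0 < PhiN x i ∧ PhiN x i < 1 :=
  ⟨Phi_pos _, Phi_lt_one _⟩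

theorem PhiN_mem_Icc (x : Fin n → ℝ) : PhiN x ∈ Icc (0 : Fin n → ℝ) 1 :=
  ⟨fun i => (PhiN_mem x i).1.le, fun i => (PhiN_mem x i).2.le⟩

theorem PhiN_surj (z : Fin n → ℝ) (hz : ∀ i, 0 < z i ∧ z i < 1) : ∃ x, PhiN x = z := by
  choose x hx using fun i => Phi_surj (z i) (hz i).1 (hz i).2
  exact ⟨x, funext hx⟩

theorem PhiN_nhds (x : Fin n → ℝ) : Icc (0 : Fin n → ℝ) 1 ∈ 𝓝 (PhiN x) := by
  have h1 : Set.pi univ (fun _ : Fin n => Ioo (0 : ℝ) 1) ∈ 𝓝 (PhiN x) := by
    apply (isOpen_set_pi finite_univ (fun _ _ => isOpen_Ioo)).mem_nhds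
    intro i _
    exact PhiN_mem x i
  refine mem_of_superset h1 ?_
  intro z hz
  exact ⟨fun i => (hz i (mem_univ i)).1.le, fun i => (hz i (mem_univ i)).2.le⟩

/-- The derivative of `PhiN`. -/
theorem hasFDerivAt_PhiN (x : Fin n → ℝ) : HasFDerivAt (PhiN (n := n))
    (ContinuousLinearMap.pi fun i => gaussianPDFReal 0 1 (x i) •
      (ContinuousLinearMap.proj i : (Fin n → ℝ) →L[ℝ] ℝ)) x := by
  rw [hasFDerivAt_pi]
  intro i
  have h1 : HasFDerivAt (fun x : Fin n → ℝ => x i)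
    (ContinuousLinearMap.proj i : (Fin n → ℝ) →L[ℝ] ℝ) x := hasFDerivAt_apply i x
  exact (hasDerivAt_Phi (x i)).comp_hasFDerivAt x h1

theorem dd_comp (f : (Fin n → ℝ) → ℝ) (x : Fin n → ℝ) (hf : DifferentiableAt ℝ f (PhiN x))
    (i : Fin n) : dd (fun y => f (PhiN y)) i x = gaussianPDFReal 0 1 (x i) * dd f i (PhiN x) := by
  unfold dd
  have h1 := hf.hasFDerivAt.comp x (hasFDerivAt_PhiN x)
  have h2 : fderiv ℝ (fun y => f (PhiN y)) x = (fderiv ℝ f (PhiN x)).comp
    (ContinuousLinearMap.pi fun i => gaussianPDFReal 0 1 (x i) •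
      (ContinuousLinearMap.proj i : (Fin n → ℝ) →L[ℝ] ℝ)) := h1.fderiv
  rw [h2, ContinuousLinearMap.comp_apply]
  have h3 : (ContinuousLinearMap.pi fun i => gaussianPDFReal 0 1 (x i) •
      (ContinuousLinearMap.proj i : (Fin n → ℝ) →L[ℝ] ℝ)) (Pi.single i 1) =
      gaussianPDFReal 0 1 (x i) • (Pi.single i (1 : ℝ) : Fin n → ℝ) := by
    funext j
    by_cases hj : j = i
    · subst hj; simp
    · simp [Pi.single_eq_of_ne hj]
  rw [h3, map_smul, smul_eq_mul]

theorem ngrad_comp (f : (Fin n → ℝ) → ℝ) (x : Fin n → ℝ) (hf : DifferentiableAt ℝ f (PhiN x)) :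
    ngrad (fun y => f (PhiN y)) x ≤ (√(2 * Real.pi))⁻¹ * ngrad f (PhiN x) := by
  unfold ngrad
  have hc : 0 ≤ (√(2 * Real.pi))⁻¹ := by positivity
  rw [← Real.sqrt_sq hc, ← Real.sqrt_mul (sq_nonneg _)]
  apply Real.sqrt_le_sqrt
  rw [Finset.mul_sum]
  apply Finset.sum_le_sum
  intro i _
  rw [dd_comp f x hf i, ← mul_pow]
  apply pow_le_pow_left₀ (le_max_right _ _)
  have hp := gaussianPDFReal_nonneg 0 1 (x i)
  have h1 : -(gaussianPDFReal 0 1 (x i) * dd f i (PhiN x)) =
      gaussianPDFReal 0 1 (x i) * (-dd f i (PhiN x)) := by ring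
  rw [h1]
  apply max_le
  · calc gaussianPDFReal 0 1 (x i) * (-dd f i (PhiN x)) ≤
        gaussianPDFReal 0 1 (x i) * max (-dd f i (PhiN x)) 0 :=
          mul_le_mul_of_nonneg_left (le_max_left _ _) hp
      _ ≤ _ := mul_le_mul_of_nonneg_right (pdf_le _) (le_max_right _ _)
  · exact mul_nonneg hc (le_max_right _ _)

theorem ae_differentiable_cube (f : (Fin n → ℝ) → ℝ) (K : NNReal)
    (hf : LipschitzOnWith K f (Icc (0 : Fin n → ℝ) 1)) :
    ∀ᵐ x ∂(volume.restrict (Icc (0 : Fin n → ℝ) 1)), DifferentiableAt ℝ f x := by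
  have h1 : ∀ᵐ z ∂(volume.restrict (Icc (0 : Fin n → ℝ) 1)),
      DifferentiableWithinAt ℝ f (Icc (0 : Fin n → ℝ) 1) z :=
    hf.ae_differentiableWithinAt measurableSet_Icc
  have h2 : ∀ᵐ z ∂(volume.restrict (Icc (0 : Fin n → ℝ) 1)), ∃ x, PhiN x = z := by
    have h3 : MeasurableSet (range (PhiN (n := n))) := PhiN_emb.measurableSet_range
    rw [← PhiN_mp.map_eq]
    rw [ae_map_iff PhiN_mp.measurable.aemeasurable h3]
    exact Eventually.of_forall fun x => ⟨x, rfl⟩
  filter_upwards [h1, h2] with z hz hx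
  obtain ⟨x, rfl⟩ := hx
  exact hz.differentiableAt (PhiN_nhds x)

theorem ngrad_le_cube (f : (Fin n → ℝ) → ℝ) (K : NNReal)
    (hf : LipschitzOnWith K f (Icc (0 : Fin n → ℝ) 1)) (x : Fin n → ℝ) :
    ngrad f (PhiN x) ≤ √(n * (K : ℝ) ^ 2) := by
  have hbd : ‖fderiv ℝ f (PhiN x)‖ ≤ K :=
    norm_fderiv_le_of_lipschitzOn ℝ (PhiN_nhds x) hf
  unfold ngrad
  apply Real.sqrt_le_sqrt
  calc ∑ i, (max (-dd f i (PhiN x)) 0) ^ 2 ≤ ∑ i : Fin n, (K : ℝ) ^ 2 := by
        apply Finset.sum_le_sum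
        intro i _
        apply pow_le_pow_left₀ (le_max_right _ _)
        apply max_le _ K.coe_nonneg
        have h1 : |dd f i (PhiN x)| ≤ K := by
          unfold dd
          calc |fderiv ℝ f (PhiN x) (Pi.single i 1)| ≤
              ‖fderiv ℝ f (PhiN x)‖ * ‖(Pi.single i 1 : Fin n → ℝ)‖ :=
                (fderiv ℝ f (PhiN x)).le_opNorm _
            _ ≤ K * 1 := by
              apply mul_le_mul hbd _ (norm_nonneg _) K.coe_nonneg
              rw [pi_norm_le_iff_of_nonneg zero_le_one]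
              intro j
              by_cases hj : j = i
              · subst hj; simp
              · simp [Pi.single_eq_of_ne hj]
            _ = K := mul_one _
        linarith [(abs_le.1 h1).1]
    _ = n * (K : ℝ) ^ 2 := by simp

theorem integrable_ngrad_cube (f : (Fin n → ℝ) → ℝ) (K : NNReal)
    (hf : LipschitzOnWith K f (Icc (0 : Fin n → ℝ) 1)) :
    IntegrableOn (ngrad f) (Icc (0 : Fin n → ℝ) 1) := by
  unfold IntegrableOn
  rw [← PhiN_mp.map_eq, PhiN_emb.integrable_map_iff]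
  refine Integrable.of_bound ((measurable_ngrad f).comp
      PhiN_continuous.measurable).aestronglyMeasurable (√(n * (K : ℝ) ^ 2)) ?_
  refine Eventually.of_forall fun x => ?_
  rw [Real.norm_eq_abs, Function.comp_apply, abs_of_nonneg (ngrad_nonneg _ _)]
  exact ngrad_le_cube f K hf x

/-- The directed Poincaré inequality on the unit cube. -/
theorem cube_directed (f : (Fin n → ℝ) → ℝ) (K : NNReal)
    (hf : LipschitzOnWith K f (Icc (0 : Fin n → ℝ) 1)) (ε : ℝ) (hε : 0 < ε) :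
    ∃ h : (Fin n → ℝ) → ℝ, Measurable h ∧ MonotoneOn h (Icc (0 : Fin n → ℝ) 1) ∧
      (∃ B, ∀ x, |h x| ≤ B) ∧
      ∫ x in Icc (0 : Fin n → ℝ) 1, |f x - h x| ≤
        (∫ x in Icc (0 : Fin n → ℝ) 1, ngrad f x) + ε := by
  -- bound for `f`
  set B : ℝ := |f 0| + K with hB
  have hB0 : 0 ≤ B := by positivity
  have h0mem : (0 : Fin n → ℝ) ∈ Icc (0 : Fin n → ℝ) 1 := ⟨le_rfl, fun i => zero_le_one⟩
  have hfB : ∀ x ∈ Icc (0 : Fin n → ℝ) 1, |f x| ≤ B := by
    intro x hx
    have h1 := hf.dist_le_mul x hx 0 h0mem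
    rw [Real.dist_eq, dist_zero_right] at h1
    have h2 : ‖x‖ ≤ 1 := by
      rw [pi_norm_le_iff_of_nonneg zero_le_one]
      intro i
      rw [Real.norm_eq_abs, abs_le]
      exact ⟨by linarith [hx.1 i, show (0 : Fin n → ℝ) i = 0 from rfl], hx.2 i⟩
    have h3 : (K : ℝ) * ‖x‖ ≤ K := by
      calc (K : ℝ) * ‖x‖ ≤ K * 1 := mul_le_mul_of_nonneg_left h2 K.coe_nonneg
        _ = K := mul_one _
    calc |f x| = |(f x - f 0) + f 0| := by ring_nf
      _ ≤ |f x - f 0| + |f 0| := abs_add_le _ _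
      _ ≤ B := by rw [hB]; linarith
  -- the function in Gauss space
  set F : (Fin n → ℝ) → ℝ := fun x => f (PhiN x) with hFdef
  have hFB : ∀ x, |F x| ≤ B := fun x => hfB _ (PhiN_mem_Icc x)
  have hFK : ∀ p q, |F p - F q| ≤ K * ‖p - q‖ := by
    intro p q
    have h1 := hf.dist_le_mul (PhiN p) (PhiN_mem_Icc p) (PhiN q) (PhiN_mem_Icc q)
    rw [Real.dist_eq, dist_eq_norm] at h1
    refine h1.trans (mul_le_mul_of_nonneg_left ?_ K.coe_nonneg)
    rw [pi_norm_le_iff_of_nonneg (norm_nonneg _)]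
    intro i
    calc ‖(PhiN p - PhiN q) i‖ = |Phi (p i) - Phi (q i)| := rfl
      _ ≤ |p i - q i| := Phi_lip _ _
      _ = ‖(p - q) i‖ := rfl
      _ ≤ _ := norm_le_pi_norm _ i
  obtain ⟨H, mH, hHmono, hH2, hHF⟩ := gauss_directed F B K K.coe_nonneg hFB hFK ε hε
  -- clamp
  set G : (Fin n → ℝ) → ℝ := fun x => max (-B) (min B (H x)) with hG
  have mG : Measurable G := measurable_const.max (measurable_const.min mH)
  have hGB : ∀ x, |G x| ≤ B := by
    intro x
    rw [abs_le]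
    exact ⟨le_max_left _ _, max_le (by linarith) (min_le_left _ _)⟩
  have hGF : ∀ x, |F x - G x| ≤ |F x - H x| := by
    intro x
    have hFx : F x = max (-B) (min B (F x)) := by
      rw [min_eq_right (abs_le.1 (hFB x)).2, max_eq_right (abs_le.1 (hFB x)).1]
    conv_lhs => rw [hFx]
    exact clamp_lip B _ _
  obtain ⟨h', mh', hh'⟩ := PhiN_emb.exists_measurable_extend mG (fun _ => ⟨0⟩)
  have hh'' : ∀ x, h' (PhiN x) = G x := fun x => congrFun hh' x
  -- definition of `h`
  have hset1 : MeasurableSet {z : Fin n → ℝ | ∃ i, z i ≤ 0} := by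
    have : {z : Fin n → ℝ | ∃ i, z i ≤ 0} = ⋃ i, {z : Fin n → ℝ | z i ≤ 0} := by
      ext z; simp
    rw [this]
    exact MeasurableSet.iUnion fun i =>
      measurableSet_le (measurable_pi_apply i) measurable_const
  have hset2 : MeasurableSet {z : Fin n → ℝ | ∃ i, 1 ≤ z i} := by
    have : {z : Fin n → ℝ | ∃ i, 1 ≤ z i} = ⋃ i, {z : Fin n → ℝ | 1 ≤ z i} := by
      ext z; simp
    rw [this]
    exact MeasurableSet.iUnion fun i =>
      measurableSet_le measurable_const (measurable_pi_apply i)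
  classical
  let h : (Fin n → ℝ) → ℝ := fun z => if ∃ i, z i ≤ 0 then -B else if ∃ i, 1 ≤ z i then B else
    max (-B) (min B (h' z))
  have mh : Measurable h := by
    apply Measurable.ite hset1 measurable_const
    apply Measurable.ite hset2 measurable_const
    exact measurable_const.max (measurable_const.min mh')
  have hhB : ∀ x, |h x| ≤ B := by
    intro x
    simp only [h]
    split_ifs
    · rw [abs_neg, abs_of_nonneg hB0]
    · rw [abs_of_nonneg hB0]
    · rw [abs_le]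
      exact ⟨le_max_left _ _, max_le (by linarith) (min_le_left _ _)⟩
  have hhPhi : ∀ x, h (PhiN x) = G x := by
    intro x
    simp only [h]
    rw [if_neg, if_neg, hh'' x]
    · rw [min_eq_right (abs_le.1 (hGB x)).2, max_eq_right (abs_le.1 (hGB x)).1]
    · rintro ⟨i, hi⟩
      exact absurd (PhiN_mem x i).2 (not_lt.2 hi)
    · rintro ⟨i, hi⟩
      exact absurd (PhiN_mem x i).1 (not_lt.2 hi)
  have hmono : MonotoneOn h (Icc (0 : Fin n → ℝ) 1) := by
    intro z hz w hw hzw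
    have hbz := abs_le.1 (hhB z)
    have hbw := abs_le.1 (hhB w)
    by_cases h1 : ∃ i, z i ≤ 0
    · have : h z = -B := by simp only [h]; rw [if_pos h1]
      rw [this]; exact hbw.1
    by_cases h2 : ∃ i, 1 ≤ w i
    · have h3 : ¬ ∃ i, w i ≤ 0 := by
        rintro ⟨i, hi⟩
        exact h1 ⟨i, (hzw i).trans hi⟩
      have : h w = B := by simp only [h]; rw [if_neg h3, if_pos h2]
      rw [this]; exact hbz.2
    push Not at h1 h2
    obtain ⟨x, hx⟩ := PhiN_surj z (fun i => ⟨h1 i, (hzw i).trans_lt (h2 i)⟩)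
    obtain ⟨y, hy⟩ := PhiN_surj w (fun i => ⟨(h1 i).trans_le (hzw i), h2 i⟩)
    rw [← hx, ← hy, hhPhi, hhPhi]
    have hxy : ∀ i, x i ≤ y i := by
      intro i
      have := hzw i
      rw [← hx, ← hy] at this
      exact Phi_strictMono.le_iff_le.1 this
    simp only [hG]
    exact max_le_max le_rfl (min_le_min le_rfl (hHmono x y hxy))
  refine ⟨h, mh, hmono, ⟨B, hhB⟩, ?_⟩
  -- change of variables
  have hfm : AEStronglyMeasurable f (volume.restrict (Icc (0 : Fin n → ℝ) 1)) :=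
    hf.continuousOn.aestronglyMeasurable measurableSet_Icc
  have e1 : ∫ x in Icc (0 : Fin n → ℝ) 1, |f x - h x| = ∫ x, |F x - G x| ∂(γ n) := by
    rw [← PhiN_mp.map_eq, integral_map PhiN_mp.measurable.aemeasurable]
    · apply integral_congr_ae
      refine Eventually.of_forall fun x => ?_
      dsimp only
      rw [hhPhi]
    · rw [PhiN_mp.map_eq]
      have : AEStronglyMeasurable (fun x => f x - h x)
        (volume.restrict (Icc (0 : Fin n → ℝ) 1)) := hfm.sub mh.aestronglyMeasurable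
      simpa [Real.norm_eq_abs] using this.norm
  have mF := meas_of_lip F K K.coe_nonneg hFK
  have iF : Integrable F (γ n) := bint _ B mF hFB
  have iG : Integrable G (γ n) := bint _ B mG hGB
  have iH : Integrable H (γ n) := hH2.integrable one_le_two
  have e2 : ∫ x, |F x - G x| ∂(γ n) ≤ ∫ x, |F x - H x| ∂(γ n) :=
    integral_mono (iF.sub iG).abs (iF.sub iH).abs hGF
  -- the gradient term
  have hdiff : ∀ᵐ x ∂(γ n), DifferentiableAt ℝ f (PhiN x) := by
    have h1 : ∀ᵐ z ∂(volume.restrict (Icc (0 : Fin n → ℝ) 1)),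
        DifferentiableWithinAt ℝ f (Icc (0 : Fin n → ℝ) 1) z :=
      hf.ae_differentiableWithinAt measurableSet_Icc
    filter_upwards [PhiN_mp.quasiMeasurePreserving.ae h1] with x hx
    exact hx.differentiableAt (PhiN_nhds x)
  have hngF : Integrable (ngrad F) (γ n) := bint _ (√(n * (K : ℝ) ^ 2)) (measurable_ngrad F)
    (fun p => by
      rw [abs_of_nonneg (ngrad_nonneg _ _)]
      exact ngrad_bound F K K.coe_nonneg hFK p)
  have hngf : Integrable (fun x => ngrad f (PhiN x)) (γ n) := by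
    -- bound of the gradient on the open cube
    refine Integrable.of_bound ((measurable_ngrad f).comp
      PhiN_continuous.measurable).aestronglyMeasurable (√(n * (K : ℝ) ^ 2)) ?_
    refine Eventually.of_forall fun x => ?_
    rw [Real.norm_eq_abs, abs_of_nonneg (ngrad_nonneg _ _)]
    exact ngrad_le_cube f K hf x
  have e3 : 5 / 2 * ∫ x, ngrad F x ∂(γ n) ≤ ∫ x, ngrad f (PhiN x) ∂(γ n) := by
    have h1 : ∫ x, ngrad F x ∂(γ n) ≤ (√(2 * Real.pi))⁻¹ * ∫ x, ngrad f (PhiN x) ∂(γ n) := by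
      rw [← integral_const_mul]
      apply integral_mono_ae hngF (hngf.const_mul _)
      filter_upwards [hdiff] with x hx
      exact ngrad_comp f x hx
    have h2 : 0 ≤ ∫ x, ngrad f (PhiN x) ∂(γ n) := integral_nonneg (fun x => ngrad_nonneg _ _)
    calc 5 / 2 * ∫ x, ngrad F x ∂(γ n) ≤ 5 / 2 * ((√(2 * Real.pi))⁻¹ *
          ∫ x, ngrad f (PhiN x) ∂(γ n)) := mul_le_mul_of_nonneg_left h1 (by norm_num)
      _ = (5 / 2 * (√(2 * Real.pi))⁻¹) * ∫ x, ngrad f (PhiN x) ∂(γ n) := by ring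
      _ ≤ 1 * ∫ x, ngrad f (PhiN x) ∂(γ n) := mul_le_mul_of_nonneg_right const_le h2
      _ = _ := one_mul _
  have e4 : ∫ x, ngrad f (PhiN x) ∂(γ n) = ∫ x in Icc (0 : Fin n → ℝ) 1, ngrad f x := by
    rw [← PhiN_mp.map_eq, integral_map PhiN_mp.measurable.aemeasurable
      (measurable_ngrad f).aestronglyMeasurable]
  rw [e1, ← e4]
  linarith

end MP04ae38
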